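import Mathlib

/-! Para-unitary sign matrix polynomials and sums of products of primes: definitions, elementary
facts, and the statements `St_X` of the tasks of the project
`Hadamard matrices of order 2 ^ t * q for t ≥ C (log log q) ^ 2`. -/

namespace Pool.Agent.H108R3.Had

open Finset Matrix

/-! ### Part I: para-unitary matrices -/

/-- value at `u` of the matrix polynomial `∑_{n < S} W n * u ^ n` -/
def evM {ι : Type} {R : Type} [CommRing R] (W : ℕ → ι → ι → ℤ) (S : ℕ) (u : R) : Matrix ι ι R :=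
  Matrix.of fun i j => ∑ n ∈ range S, ((W n i j : ℤ) : R) * u ^ n

/-- `W` is para-unitary with all coefficients `±1` on the window `[0, S)` -/
structure IsPU {ι : Type} [Fintype ι] [DecidableEq ι] (S : ℕ) (W : ℕ → ι → ι → ℤ) : Prop where
  sign : ∀ n < S, ∀ i j, W n i j = 1 ∨ W n i j = -1
  left : ∀ (R : Type) [CommRing R] (u v : R), u * v = 1 →
    evM W S u * (evM W S v)ᵀ = ((Fintype.card ι * S : ℕ) : R) • (1 : Matrix ι ι R)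
  right : ∀ (R : Type) [CommRing R] (u v : R), u * v = 1 →
    (evM W S v)ᵀ * evM W S u = ((Fintype.card ι * S : ℕ) : R) • (1 : Matrix ι ι R)

/-- there is a para-unitary sign matrix polynomial of length `S` indexed by `ι` -/
def PU (ι : Type) [Fintype ι] [DecidableEq ι] (S : ℕ) : Prop :=
  ∃ W : ℕ → ι → ι → ℤ, IsPU S W

/-- size `2 ^ k` -/
def PUk (k S : ℕ) : Prop := PU (Fin (2 ^ k)) S

/-- there is a Hadamard matrix of order `n` -/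
def HasHad (n : ℕ) : Prop :=
  ∃ H : Matrix (Fin n) (Fin n) ℤ, (∀ i j, H i j = 1 ∨ H i j = -1) ∧
    H * H.transpose = (n : ℤ) • (1 : Matrix (Fin n) (Fin n) ℤ)

/-- P1: only the cardinality of the index type matters -/
def St_congr : Prop := ∀ (ι κ : Type) [Fintype ι] [DecidableEq ι] [Fintype κ] [DecidableEq κ],
  Fintype.card ι = Fintype.card κ → ∀ S : ℕ, PU ι S → PU κ S

/-- P2 -/
def St_base : Prop := PUk 0 0 ∧ PUk 0 1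

/-- P3 -/
def St_lift : Prop := ∀ k S : ℕ, PUk k S → PUk (k + 1) S

/-- P4 -/
def St_dbl : Prop := ∀ k S : ℕ, 1 ≤ k → PUk k S → PUk k (2 * S)

/-- P5 -/
def St_mul : Prop := ∀ k S₁ S₂ : ℕ, PUk k S₁ → PUk k S₂ → PUk k (2 ^ k * (S₁ * S₂))

/-- P6 -/
def St_add : Prop := ∀ k S₁ S₂ : ℕ, 1 ≤ S₁ → 1 ≤ S₂ → PUk k S₁ → PUk k S₂ →
  PUk (2 * k + 1) (S₁ + S₂)

/-- P7 -/
def St_had : Prop := ∀ k S : ℕ, PUk k S → HasHad (2 ^ k * S)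

/-! ### Part II: sums of products of primes -/

/-- `e x = exp (2 π i x)` -/
noncomputable def e (x : ℝ) : ℂ := Complex.exp (2 * Real.pi * x * Complex.I)

/-- `SA A κ g = ∑_{p_1, …, p_κ ∈ A} g (p_1 * ⋯ * p_κ)` -/
def SA {E : Type} [AddCommMonoid E] (A : Finset ℕ) : ℕ → (ℕ → E) → E
  | 0, g => g 1
  | κ + 1, g => ∑ p ∈ A, SA A κ (fun m => g (p * m))

/-- the set of all products of `κ` elements of `A` -/
def Pr (A : Finset ℕ) : ℕ → Finset ℕ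
  | 0 => {1}
  | κ + 1 => A.biUnion fun p => (Pr A κ).image (fun m => p * m)

/-- number of ordered representations of `m` as a product of `κ` elements of `A` -/
def wt (A : Finset ℕ) (κ m : ℕ) : ℕ := SA A κ (fun x => if x = m then 1 else 0)

section basics

variable {E : Type} [AddCommMonoid E] (A : Finset ℕ)

theorem SA_congr (κ : ℕ) : ∀ {g h : ℕ → E}, (∀ m ∈ Pr A κ, g m = h m) → SA A κ g = SA A κ h := by
  induction κ with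
  | zero => intro g h H; exact H 1 (by simp [Pr])
  | succ κ ih =>
    intro g h H
    simp only [SA]
    refine Finset.sum_congr rfl fun p hp => ih fun m hm => H _ ?_
    simp only [Pr, Finset.mem_biUnion, Finset.mem_image]
    exact ⟨p, hp, m, hm, rfl⟩

theorem SA_sum {α : Type} (s : Finset α) (κ : ℕ) : ∀ (g : α → ℕ → E),
    SA A κ (fun m => ∑ i ∈ s, g i m) = ∑ i ∈ s, SA A κ (g i) := by
  induction κ with
  | zero => intro g; rfl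
  | succ κ ih =>
    intro g
    simp only [SA]
    rw [Finset.sum_comm]
    exact Finset.sum_congr rfl fun p _ => ih _

theorem SA_add (a b : ℕ) : ∀ (g : ℕ → E),
    SA A (a + b) g = SA A a (fun m => SA A b (fun m' => g (m * m'))) := by
  induction a with
  | zero => intro g; simp [SA]
  | succ a ih =>
    intro g
    rw [Nat.add_right_comm]
    simp only [SA]
    refine Finset.sum_congr rfl fun p _ => ?_
    rw [ih]
    simp only [mul_assoc]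

theorem SA_hom {F : Type} [AddCommMonoid F] (f : E →+ F) (κ : ℕ) : ∀ (g : ℕ → E),
    f (SA A κ g) = SA A κ (fun m => f (g m)) := by
  induction κ with
  | zero => intro g; rfl
  | succ κ ih =>
    intro g
    simp only [SA, map_sum]
    exact Finset.sum_congr rfl fun p _ => ih _

/-- the sum over all tuples as a weighted sum over the values -/
theorem SA_eq_sum (κ : ℕ) (g : ℕ → E) : SA A κ g = ∑ m ∈ Pr A κ, wt A κ m • g m := by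
  have h : SA A κ g = SA A κ (fun x => ∑ m ∈ Pr A κ, (if x = m then 1 else 0) • g m) := by
    apply SA_congr
    intro m hm
    rw [Finset.sum_eq_single m]
    · simp
    · intro b _ hb; simp [Ne.symm hb]
    · intro h; exact absurd hm h
  rw [h, SA_sum]
  refine Finset.sum_congr rfl fun m _ => ?_
  unfold wt
  let f : ℕ →+ E := { toFun := fun n => n • g m, map_zero' := zero_nsmul _, map_add' := fun a b => add_nsmul _ _ _ }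
  exact (SA_hom A f κ (fun x => if x = m then 1 else 0)).symm

theorem SA_const (κ : ℕ) : SA A κ (fun _ => (1 : ℕ)) = A.card ^ κ := by
  induction κ with
  | zero => rfl
  | succ κ ih => simp only [SA, ih, Finset.sum_const, smul_eq_mul]; ring

theorem sum_wt (κ : ℕ) : ∑ m ∈ Pr A κ, wt A κ m = A.card ^ κ := by
  rw [← SA_const, SA_eq_sum]; simp

theorem mem_Pr (κ : ℕ) : ∀ {m : ℕ}, m ∈ Pr A κ ↔
    ∃ l : List ℕ, l.length = κ ∧ (∀ p ∈ l, p ∈ A) ∧ l.prod = m := by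
  induction κ with
  | zero =>
    intro m
    simp only [Pr, Finset.mem_singleton]
    constructor
    · rintro rfl; exact ⟨[], rfl, by simp, rfl⟩
    · rintro ⟨l, h1, _, h3⟩
      rw [List.length_eq_zero_iff] at h1; subst h1; exact h3.symm
  | succ κ ih =>
    intro m
    simp only [Pr, Finset.mem_biUnion, Finset.mem_image]
    constructor
    · rintro ⟨p, hp, m', hm', rfl⟩
      obtain ⟨l, h1, h2, h3⟩ := ih.1 hm'
      exact ⟨p :: l, by simp [h1], by simpa using ⟨hp, h2⟩, by simp [h3]⟩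
    · rintro ⟨l, h1, h2, h3⟩
      rcases l with _ | ⟨p, l⟩
      · simp at h1
      · simp only [List.length_cons, Nat.add_right_cancel_iff] at h1
        simp only [List.mem_cons, forall_eq_or_imp] at h2
        exact ⟨p, h2.1, l.prod, ih.2 ⟨l, h1, h2.2, rfl⟩, by simpa using h3⟩

theorem norm_SA_le (κ : ℕ) : ∀ (g : ℕ → ℂ) (C : ℝ), (∀ m ∈ Pr A κ, ‖g m‖ ≤ C) →
    ‖SA A κ g‖ ≤ (A.card : ℝ) ^ κ * C := by
  induction κ with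
  | zero => intro g C h; simpa [SA] using h 1 (by simp [Pr])
  | succ κ ih =>
    intro g C h
    simp only [SA]
    refine (norm_sum_le _ _).trans ?_
    have : ∀ p ∈ A, ‖SA A κ (fun m => g (p * m))‖ ≤ (A.card : ℝ) ^ κ * C := by
      intro p hp
      refine ih _ _ fun m hm => h _ ?_
      simp only [Pr, Finset.mem_biUnion, Finset.mem_image]
      exact ⟨p, hp, m, hm, rfl⟩
    refine (Finset.sum_le_sum this).trans (le_of_eq ?_)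
    rw [Finset.sum_const, nsmul_eq_mul]; ring

end basics

/-- the exponential sum over all numbers `(T₀ + r) * p_1 ⋯ p_κ`, `r < 50 T₀`, `p_i ∈ A` -/
noncomputable def Phi (A : Finset ℕ) (κ T₀ : ℕ) (β : ℝ) : ℂ :=
  ∑ r ∈ range (50 * T₀), SA A κ (fun m => e (β * (((T₀ + r : ℕ) : ℝ) * (m : ℝ))))

/-- all elements of `A` are primes in `[M, M (1 + 1/L)]` -/
def Win (A : Finset ℕ) (M L : ℕ) : Prop := ∀ p ∈ A, p.Prime ∧ M ≤ p ∧ p * L ≤ M * (L + 1)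

/-- N0: geometric sums -/
def St_geom : Prop := ∀ (N : ℕ) (θ : ℝ), 0 < θ → θ ≤ 1 / 2 →
  ‖∑ r ∈ range N, e (θ * r)‖ ≤ 1 / (2 * θ)

/-- N1: a short window with many primes -/
def St_window : Prop := ∃ L₀ : ℕ, ∀ L : ℕ, L₀ ≤ L → ∃ (M : ℕ) (A : Finset ℕ),
  L ^ 40 ≤ M ∧ M ≤ 4 * L ^ 40 ∧ Win A M L ∧ M ≤ L ^ 2 * A.card

/-- N2: products of elements of a window -/
def St_Prbound : Prop := ∀ (A : Finset ℕ) (M L κ m : ℕ), Win A M L → κ ≤ L → m ∈ Pr A κ →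
  M ^ κ ≤ m ∧ m ≤ 3 * M ^ κ ∧ (m : ℝ) ≤ (M : ℝ) ^ κ * (1 + 2 * κ / L)

/-- N3: unique factorisation -/
def St_mult : Prop := ∀ (A : Finset ℕ), (∀ p ∈ A, p.Prime) → ∀ j m : ℕ, wt A j m ≤ j.factorial

/-- N4: the bilinear inequality -/
def St_bilin : Prop := ∀ (A : Finset ℕ) (j a l : ℕ) (γ : ℝ), (∀ m, wt A j m ≤ j.factorial) →
  (∀ m ∈ Pr A j, a ≤ m ∧ m ≤ a + l) → 0 < γ → γ * l ≤ 1 / 2 →
  ‖SA A j (fun m => SA A j (fun m' => e (γ * ((m : ℝ) * (m' : ℝ)))))‖ ^ 2 ≤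
    (A.card : ℝ) ^ (2 * j) * (j.factorial : ℝ) ^ 2 * (l + 1 + (1 + Real.log (l + 1)) / γ)

/-- N5: bound for small frequencies -/
def St_phi1 : Prop := ∀ (A : Finset ℕ) (M L κ T₀ : ℕ) (β : ℝ), Win A M L → κ ≤ L → 1 ≤ M →
  0 < β → β * (3 * (M : ℝ) ^ κ) ≤ 1 / 2 →
  ‖Phi A κ T₀ β‖ ≤ (A.card : ℝ) ^ κ / (2 * β * (M : ℝ) ^ κ)

/-- N6: bound for larger frequencies -/
def St_phi2 : Prop := ∀ (A : Finset ℕ) (M L κ T₀ ρ j : ℕ) (β : ℝ), Win A M L → κ ≤ L → 4 ≤ M →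
  1 ≤ T₀ → M ≤ ρ * A.card → 1 ≤ j → 2 * j ≤ κ → 612 * j ≤ L → 0 < β →
  β * ((T₀ : ℝ) * (M : ℝ) ^ κ) ≤ (M : ℝ) ^ j →
  ‖Phi A κ T₀ β‖ ^ 2 ≤ ((50 * T₀ : ℕ) * (A.card : ℝ) ^ κ) ^ 2 *
    (((j.factorial : ℝ) * (ρ : ℝ) ^ j) ^ 2 * (2 + j * Real.log M)) /
      (β * ((T₀ : ℝ) * (M : ℝ) ^ κ))

/-- kernel -/
noncomputable def ker (P Z Z₁ a : ℕ) : ℝ :=
  min (min 1 (20 * ((a : ℝ) * Z₁ / P) ^ 2)) (((P : ℝ) / (2 * a * Z)) ^ 2)

/-- weighted exponential sum of a finite family of naturals at the frequency `a / P` -/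
noncomputable def Fh {α : Type} (E : Finset α) (y : α → ℕ) (w : α → ℝ) (P a : ℕ) : ℂ :=
  ∑ i ∈ E, (w i : ℂ) * e ((a : ℝ) / P * (y i : ℝ))

/-- weighted number of solutions of `y i₁ + y i₂ + y i₃ + y i₄ + u = X + v` with `u, v < Z` -/
noncomputable def Rc {α : Type} (E : Finset α) (y : α → ℕ) (w : α → ℝ) (Z X : ℕ) : ℝ :=
  ∑ i₁ ∈ E, ∑ i₂ ∈ E, ∑ i₃ ∈ E, ∑ i₄ ∈ E, ∑ u ∈ range Z, ∑ v ∈ range Z,
    if y i₁ + y i₂ + y i₃ + y i₄ + u = X + v then w i₁ * w i₂ * w i₃ * w i₄ else 0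

/-- N7a: the Fourier identity -/
def St_four : Prop := ∀ (α : Type) (E : Finset α) (y : α → ℕ) (w : α → ℝ) (P Z X : ℕ),
  0 < P → (∀ i ∈ E, 4 * y i + Z ≤ P) → X + Z ≤ P →
  ((P : ℝ) * Rc E y w Z X : ℝ) = (∑ a ∈ range P, (Fh E y w P a) ^ 4 *
    ((‖∑ u ∈ range Z, e ((a : ℝ) / P * u)‖ ^ 2 : ℝ) : ℂ) * e (-((a : ℝ) / P * X)) : ℂ)

/-- N7b: kernel bounds -/
def St_ker : Prop := ∀ (P Z Z₁ a : ℕ), 1 ≤ Z → Z ≤ Z₁ → 1 ≤ a → 2 * a ≤ P →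
  |‖∑ u ∈ range Z, e ((a : ℝ) / P * u)‖ ^ 2 / (Z : ℝ) ^ 2 -
    ‖∑ u ∈ range Z₁, e ((a : ℝ) / P * u)‖ ^ 2 / (Z₁ : ℝ) ^ 2| ≤ ker P Z Z₁ a

/-- N7c: existence from exponential sum bounds -/
def St_exist : Prop := ∀ (α : Type) (E : Finset α) (y : α → ℕ) (w : α → ℝ) (P Z Z₁ X : ℕ) (c : ℝ),
  (∀ i ∈ E, 0 ≤ w i) → 1 ≤ Z → Z ≤ Z₁ → (∀ i ∈ E, 4 * y i + Z₁ ≤ P) → X + Z₁ ≤ P →
  c * (Z₁ : ℝ) ^ 2 * (∑ i ∈ E, w i) ^ 4 / P ≤ Rc E y w Z₁ X →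
  2 * ∑ a ∈ Icc 1 (P / 2), ‖Fh E y w P a‖ ^ 4 * ker P Z Z₁ a < c * (∑ i ∈ E, w i) ^ 4 →
  ∃ i₁ ∈ E, ∃ i₂ ∈ E, ∃ i₃ ∈ E, ∃ i₄ ∈ E,
    |((y i₁ + y i₂ + y i₃ + y i₄ : ℕ) : ℤ) - (X : ℤ)| < (Z : ℤ)

/-- the family `(T₀ + r) * m`, `r < 50 T₀`, `m` a product of `κ` elements of `A` -/
def Ef (A : Finset ℕ) (κ T₀ : ℕ) : Finset (ℕ × ℕ) := range (50 * T₀) ×ˢ Pr A κ

def yf (T₀ : ℕ) (i : ℕ × ℕ) : ℕ := (T₀ + i.1) * i.2

def wf (A : Finset ℕ) (κ : ℕ) (i : ℕ × ℕ) : ℝ := (wt A κ i.2 : ℝ)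

/-- N8: many solutions at a coarse scale -/
def St_coarse : Prop := ∀ (A : Finset ℕ) (M L κ T₁ X : ℕ), Win A M L → κ ≤ L → 1 ≤ M → 10 ≤ T₁ →
  24 * (1000000 * T₁ * M ^ κ) ≤ X → X < 50 * (1000000 * T₁ * M ^ κ) →
  1 / 1000000 * ((T₁ * M ^ κ : ℕ) : ℝ) ^ 2 * (∑ i ∈ Ef A κ (1000000 * T₁), wf A κ i) ^ 4 /
      ((625 * (1000000 * T₁ * M ^ κ) : ℕ) : ℝ) ≤
    Rc (Ef A κ (1000000 * T₁)) (yf (1000000 * T₁)) (wf A κ) (T₁ * M ^ κ) X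

/-- N9a: total weight, and the Fourier sum of the family -/
def St_fam : Prop := ∀ (A : Finset ℕ) (κ T₀ P : ℕ),
  (∑ i ∈ Ef A κ T₀, wf A κ i) = ((50 * T₀ : ℕ) : ℝ) * (A.card : ℝ) ^ κ ∧
  ∀ a : ℕ, Fh (Ef A κ T₀) (yf T₀) (wf A κ) P a = Phi A κ T₀ ((a : ℝ) / P)

/-- N9b, region 1 -/
def St_R1 : Prop := ∀ n : ℕ,
  ∑ a ∈ Icc 1 n, (25 / 4 / (a : ℝ)) ^ 4 * (20 * ((a : ℝ) / 625000000) ^ 2) ≤ 1 / 1000000000000

/-- N9b, region 2 -/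
def St_R2 : Prop := ∀ (F : ℕ → ℝ) (M L g : ℕ), (∀ a, 0 ≤ F a) → 1000000 ≤ L → L ^ 40 ≤ M →
  M ≤ 4 * L ^ 40 → 1 ≤ g → 2500 * g ≤ L →
  (∀ j a : ℕ, 1 ≤ j → j ≤ 2 * g → 1 ≤ a → a ≤ 625 * M ^ j →
    F a ^ 2 ≤ 625 * (((j.factorial : ℝ) * ((L : ℝ) ^ 2) ^ j) ^ 2 * (2 + j * Real.log M)) / a) →
  ∑ a ∈ Ioc (100 * (1000000 * L ^ 20)) (625 * M ^ (2 * g)), F a ^ 4 ≤ 1 / 100000000

/-- N9b, region 3 -/
def St_R3 : Prop := ∀ (M g T₀ n : ℕ), 1 ≤ M → 1 ≤ T₀ →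
  ∑ a ∈ Ioc (625 * M ^ (2 * g)) n, (((625 * (T₀ * M ^ (4 * g)) : ℕ) : ℝ) /
    (2 * a * ((100000 * T₀ * M ^ (3 * g) : ℕ) : ℝ))) ^ 2 ≤ 1 / 60000000

/-- N9c: the numerical sum -/
def St_nine : Prop := ∀ (F : ℕ → ℝ) (M L g : ℕ), (∀ a, 0 ≤ F a) → (∀ a, F a ≤ 1) →
  1000000 ≤ L → L ^ 40 ≤ M → M ≤ 4 * L ^ 40 → 1 ≤ g → 2500 * g ≤ L →
  (∀ a : ℕ, 1 ≤ a → a ≤ 100 * (1000000 * L ^ 20) → F a ≤ 25 / 4 / a) →
  (∀ j a : ℕ, 1 ≤ j → j ≤ 2 * g → 1 ≤ a → a ≤ 625 * M ^ j →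
    F a ^ 2 ≤ 625 * (((j.factorial : ℝ) * ((L : ℝ) ^ 2) ^ j) ^ 2 * (2 + j * Real.log M)) / a) →
  2 * ∑ a ∈ Icc 1 (625 * (1000000 * L ^ 20 * M ^ (4 * g)) / 2), F a ^ 4 *
    ker (625 * (1000000 * L ^ 20 * M ^ (4 * g))) (100000 * (1000000 * L ^ 20) * M ^ (3 * g))
      (L ^ 20 * M ^ (4 * g)) a < 1 / 1000000

/-- N10: every `X` in `[24 Y₀, 50 Y₀)` is, up to `Z`, a sum of four members of the family -/
def St_core : Prop := ∀ (A : Finset ℕ) (M L g X : ℕ), Win A M L → M ≤ L ^ 2 * A.card →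
  1000000 ≤ L → L ^ 40 ≤ M → M ≤ 4 * L ^ 40 → 1 ≤ g → 2500 * g ≤ L →
  24 * (1000000 * L ^ 20 * M ^ (4 * g)) ≤ X → X < 50 * (1000000 * L ^ 20 * M ^ (4 * g)) →
  ∃ i₁ ∈ Ef A (4 * g) (1000000 * L ^ 20), ∃ i₂ ∈ Ef A (4 * g) (1000000 * L ^ 20),
  ∃ i₃ ∈ Ef A (4 * g) (1000000 * L ^ 20), ∃ i₄ ∈ Ef A (4 * g) (1000000 * L ^ 20),
    |((yf (1000000 * L ^ 20) i₁ + yf (1000000 * L ^ 20) i₂ + yf (1000000 * L ^ 20) i₃ +
      yf (1000000 * L ^ 20) i₄ : ℕ) : ℤ) - (X : ℤ)| <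
      ((100000 * (1000000 * L ^ 20) * M ^ (3 * g) : ℕ) : ℤ)

/-- P8a: all small numbers -/
def St_small : Prop := ∀ m s : ℕ, s < 2 ^ 2 ^ m → PUk (2 ^ (m + 1) - 1) s

/-- P8b: products of elements of `𝒫_k` up to a power of two -/
def St_prod : Prop := ∀ (k : ℕ) (l : List ℕ) (x c : ℕ), 1 ≤ k → PUk k x → (∀ y ∈ l, PUk k y) →
  k * l.length ≤ c → PUk k (2 ^ c * (x * l.prod))

/-- P8c: sums of elements of `𝒫_k` -/
def St_sum : Prop := ∀ (k m : ℕ) (l : List ℕ), (∀ y ∈ l, PUk k y) → l.length ≤ 2 ^ m →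
  PUk (2 ^ m * (k + 1) - 1) l.sum

/-- P8d: all larger exponents -/
def St_final : Prop := ∀ k S t : ℕ, PUk k S → k ≤ t → HasHad (2 ^ t * S)

end Pool.Agent.H108R3.Had
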