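import Pool.Agent.H108R3.Had.Main
import Pool.Agent.H114R2.Det

/-! Determinants of sign matrices of every order. -/

namespace Pool.Agent.H108R3.Had

open Finset Matrix

/-- monotone form: one exponent for all `q ≤ n` -/
theorem pu_loglog_mono : ∃ C : ℝ, 1 ≤ C ∧ ∀ n q t : ℕ, 3 ≤ n → q ≤ n →
    C * (1 + Real.log (Real.log n)) * (1 + Real.log (1 + Real.log (Real.log n))) ^ 2 ≤ t →
    PUk t q := by
  obtain ⟨C, hC, h⟩ := pu_loglog
  have h12 : PUk 1 2 := by
    have := (t_P4 t_P1) 1 1 le_rfl (lift 0 1 t_P2.2)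
    simpa using this
  have hLev : Lev (fun B => ⌈C * (1 + Real.log (Real.log B)) *
      (1 + Real.log (1 + Real.log (Real.log B))) ^ 2⌉₊) := by
    refine lev_of t_P2 lift (fun B => C * (1 + Real.log (Real.log B)) *
      (1 + Real.log (1 + Real.log (Real.log B))) ^ 2) ?_ ?_ h h12
    · intro q hq
      have h1 := loglog_pos hq
      have h2 : 0 ≤ Real.log (1 + Real.log (Real.log q)) := Real.log_nonneg (by linarith)
      have h3 : 1 ≤ (1 + Real.log (1 + Real.log (Real.log q))) ^ 2 := by nlinarith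
      have h4 : 1 ≤ C * (1 + Real.log (Real.log q)) := by nlinarith
      nlinarith
    · intro q q' hq hqq'
      have hq3 : (3 : ℝ) ≤ q := by exact_mod_cast hq
      have hl := loglog_pos hq
      have hqr : (q : ℝ) ≤ q' := by exact_mod_cast hqq'
      have h1' : Real.log q ≤ Real.log q' := Real.log_le_log (by linarith) hqr
      have h0 : 0 < Real.log q := Real.log_pos (by linarith)
      have h2' : Real.log (Real.log q) ≤ Real.log (Real.log q') := Real.log_le_log h0 h1'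
      have h3' : Real.log (1 + Real.log (Real.log q)) ≤ Real.log (1 + Real.log (Real.log q')) :=
        Real.log_le_log (by linarith) (by linarith)
      have h4' : 0 ≤ Real.log (1 + Real.log (Real.log q)) := Real.log_nonneg (by linarith)
      have h5 : (1 + Real.log (1 + Real.log (Real.log q))) ^ 2 ≤
          (1 + Real.log (1 + Real.log (Real.log q'))) ^ 2 := by
        apply pow_le_pow_left₀ (by linarith)
        linarith
      have h6 : C * (1 + Real.log (Real.log q)) ≤ C * (1 + Real.log (Real.log q')) := by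
        apply mul_le_mul_of_nonneg_left _ (by linarith)
        linarith
      exact mul_le_mul h6 h5 (by positivity) (mul_nonneg (by linarith) (by linarith))
  refine ⟨C, hC, fun n q t hn hq ht => ?_⟩
  have := (hLev n hn).2 q hq
  exact PUk_mono lift (Nat.ceil_le.2 ht) this

theorem det_loglog : ∃ C : ℝ, 1 ≤ C ∧ ∀ n : ℕ, 3 ≤ n →
    ∃ B : Matrix (Fin n) (Fin n) ℤ, (∀ i j, B i j = 1 ∨ B i j = -1) ∧
      (n : ℝ) ^ ((n : ℝ) / 2) * Real.exp (-Real.exp (C * (1 + Real.log (Real.log n)) *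
        (1 + Real.log (1 + Real.log (Real.log n))) ^ 2)) ≤ (B.det : ℝ) := by
  obtain ⟨C, hC, hpu⟩ := pu_loglog_mono
  refine ⟨2 * C + 2, by linarith, fun n hn => ?_⟩
  set x := Real.log n with hx
  have hn0 : (0 : ℝ) < n := by positivity
  have hx1 : 1 < x := by
    rw [hx, Real.lt_log_iff_exp_lt hn0]
    have h1 : Real.exp 1 < 2.7182818286 := Real.exp_one_lt_d9
    have h2 : (3 : ℝ) ≤ n := by exact_mod_cast hn
    linarith
  have hllx : 0 < Real.log x := Real.log_pos hx1
  set ℓ : ℝ := 1 + Real.log x with hℓ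
  have hℓ1 : 1 ≤ ℓ := by rw [hℓ]; linarith
  have hlℓ : 0 ≤ Real.log ℓ := Real.log_nonneg hℓ1
  set F : ℝ := ℓ * (1 + Real.log ℓ) ^ 2 with hF
  have hsq1 : 1 ≤ (1 + Real.log ℓ) ^ 2 := by nlinarith
  have hFℓ : ℓ ≤ F := by rw [hF]; nlinarith
  have hF1 : 1 ≤ F := hℓ1.trans hFℓ
  have hassoc : ∀ D : ℝ, D * ℓ * (1 + Real.log ℓ) ^ 2 = D * F := by
    intro D; rw [hF]; ring
  rw [hassoc]
  set t := ⌈C * F⌉₊ with ht
  have hCF : 0 ≤ C * F := by positivity
  have ht1 : C * F ≤ t := Nat.le_ceil _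
  have ht2 : (t : ℝ) < C * F + 1 := Nat.ceil_lt_add_one hCF
  have h2t : 1 ≤ 2 ^ t := Nat.one_le_two_pow
  set q := (n + 2 ^ t - 1) / 2 ^ t with hq
  have hq1 : 0 < q := by
    rw [hq]; apply Nat.div_pos (by omega) (by positivity)
  have hqn : q ≤ n := by
    rw [hq, Nat.div_le_iff_le_mul_add_pred (by positivity)]
    have : n ≤ 2 ^ t * n := Nat.le_mul_of_pos_left _ (by positivity)
    omega
  have hlow : n ≤ 2 ^ t * q := by
    have h1 := Nat.div_add_mod (n + 2 ^ t - 1) (2 ^ t)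
    have h2 := Nat.mod_lt (n + 2 ^ t - 1) (show 0 < 2 ^ t by positivity)
    rw [← hq] at h1
    omega
  have hhigh : 2 ^ t * q < n + 2 ^ t := by
    have h1 := Nat.div_add_mod (n + 2 ^ t - 1) (2 ^ t)
    rw [← hq] at h1
    omega
  have hhad : Pool.Agent.H114R2.HasHad (2 ^ t * q) :=
    t_P7 _ _ (hpu n q t hn hqn (by rw [← hx, ← hℓ, hassoc]; exact ht1))
  obtain ⟨d, hd⟩ := Nat.exists_eq_add_of_le hlow
  rw [hd] at hhad
  obtain ⟨B, hB, hB0, hdet⟩ := Pool.Agent.H114R2.det_of_had (by omega) hhad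
  refine ⟨B, hB, ?_⟩
  set h := n + d with hh
  have hdlt : d < 2 ^ t := by omega
  have hhr : (0 : ℝ) < (h : ℝ) := by rw [hh]; positivity
  have hnh : (n : ℝ) ≤ h := by rw [hh]; push_cast; linarith [Nat.cast_nonneg (α := ℝ) d]
  have hdetr : (h : ℝ) ^ (n + d) ≤ ((h : ℝ) ^ d * (B.det : ℝ)) ^ 2 := by
    have := hdet
    exact_mod_cast this
  have hB0r : (0 : ℝ) ≤ (B.det : ℝ) := by exact_mod_cast hB0
  have hkey : (n : ℝ) ^ ((n : ℝ) / 2) ≤ Real.exp (((d : ℝ) / 2) * Real.log h) * (B.det : ℝ) := by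
    have h1 : (n : ℝ) ^ n * (h : ℝ) ^ d ≤ (((h : ℝ) ^ d * (B.det : ℝ))) ^ 2 := by
      calc (n : ℝ) ^ n * (h : ℝ) ^ d ≤ (h : ℝ) ^ n * (h : ℝ) ^ d := by
            apply mul_le_mul_of_nonneg_right _ (by positivity)
            exact pow_le_pow_left₀ hn0.le hnh n
        _ = (h : ℝ) ^ (n + d) := by rw [pow_add]
        _ ≤ _ := hdetr
    have h2 : (n : ℝ) ^ n ≤ (h : ℝ) ^ d * (B.det : ℝ) ^ 2 := by
      have h3 : (0 : ℝ) < (h : ℝ) ^ d := by positivity
      have h4 : (n : ℝ) ^ n * (h : ℝ) ^ d ≤ ((h : ℝ) ^ d * (B.det : ℝ) ^ 2) * (h : ℝ) ^ d := by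
        calc _ ≤ (((h : ℝ) ^ d * (B.det : ℝ))) ^ 2 := h1
          _ = _ := by ring
      exact le_of_mul_le_mul_right h4 h3
    have h5 : Real.exp (((d : ℝ) / 2) * Real.log h) ^ 2 = (h : ℝ) ^ d := by
      rw [← Real.exp_nat_mul]
      have : ((2 : ℕ) : ℝ) * (((d : ℝ) / 2) * Real.log h) = Real.log h * d := by
        push_cast; ring
      rw [this, Real.exp_mul, Real.exp_log hhr, Real.rpow_natCast]
    have h6 : ((n : ℝ) ^ ((n : ℝ) / 2)) ^ 2 = (n : ℝ) ^ n := by
      rw [← Real.rpow_natCast, ← Real.rpow_mul hn0.le]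
      have : (n : ℝ) / 2 * ((2 : ℕ) : ℝ) = n := by push_cast; ring
      rw [this, Real.rpow_natCast]
    have h7 : ((n : ℝ) ^ ((n : ℝ) / 2)) ^ 2 ≤
        (Real.exp (((d : ℝ) / 2) * Real.log h) * (B.det : ℝ)) ^ 2 := by
      rw [mul_pow, h5, h6]; exact h2
    exact le_of_sq_le_sq h7 (by positivity)
  -- the exponent
  have hlog2 : Real.log 2 < 0.6931471808 := Real.log_two_lt_d9
  have hlog2' : 0 < Real.log 2 := Real.log_pos (by norm_num)
  have hd2 : (d : ℝ) ≤ Real.exp (C * F + 1) := by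
    have h1 : (d : ℝ) ≤ (2 : ℝ) ^ t := by exact_mod_cast hdlt.le
    have h2 : (2 : ℝ) ^ t = Real.exp (Real.log 2 * t) := by
      rw [Real.exp_mul, Real.exp_log (by norm_num), Real.rpow_natCast]
    rw [h2] at h1
    refine h1.trans (Real.exp_le_exp.2 ?_)
    nlinarith
  have hlogh : Real.log h ≤ x + (t + 1) := by
    have h1 : (h : ℝ) ≤ n * 2 ^ (t + 1) := by
      have h2 : h ≤ n * 2 ^ (t + 1) := by
        have h3 : n * 2 ^ (t + 1) = n * 2 ^ t + n * 2 ^ t := by ring
        have h4 : n ≤ n * 2 ^ t := Nat.le_mul_of_pos_right _ (by positivity)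
        have h5 : 2 ^ t ≤ n * 2 ^ t := Nat.le_mul_of_pos_left _ (by omega)
        omega
      exact_mod_cast h2
    calc Real.log h ≤ Real.log (n * 2 ^ (t + 1)) := Real.log_le_log hhr h1
      _ = x + (t + 1) * Real.log 2 := by
          rw [Real.log_mul hn0.ne' (by positivity), Real.log_pow]; push_cast; rfl
      _ ≤ x + (t + 1) := by nlinarith [Nat.cast_nonneg (α := ℝ) t]
  have hxexp : x ≤ Real.exp (C * F + 1) := by
    have h1 : x = Real.exp (Real.log x) := (Real.exp_log (by linarith)).symm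
    rw [h1]
    apply Real.exp_le_exp.2
    nlinarith
  have htexp : (t : ℝ) + 1 ≤ Real.exp (C * F + 1) := by
    have := Real.add_one_le_exp (C * F + 1)
    linarith
  have hfin : ((d : ℝ) / 2) * Real.log h ≤ Real.exp ((2 * C + 2) * F) := by
    have h0 : (0 : ℝ) ≤ d := Nat.cast_nonneg _
    have hpos := Real.exp_pos (C * F + 1)
    have h1 : ((d : ℝ) / 2) * Real.log h ≤
        (Real.exp (C * F + 1) / 2) * (Real.exp (C * F + 1) + Real.exp (C * F + 1)) := by
      calc ((d : ℝ) / 2) * Real.log h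
          ≤ ((d : ℝ) / 2) * (Real.exp (C * F + 1) + Real.exp (C * F + 1)) := by
            apply mul_le_mul_of_nonneg_left _ (by positivity)
            linarith
        _ ≤ _ := by
            apply mul_le_mul_of_nonneg_right _ (by positivity)
            linarith
    have h3 : Real.exp (C * F + 1) * Real.exp (C * F + 1) ≤ Real.exp ((2 * C + 2) * F) := by
      rw [← Real.exp_add]; exact Real.exp_le_exp.2 (by nlinarith)
    linarith
  calc (n : ℝ) ^ ((n : ℝ) / 2) * Real.exp (-Real.exp ((2 * C + 2) * F))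
      ≤ (Real.exp (((d : ℝ) / 2) * Real.log h) * (B.det : ℝ)) *
          Real.exp (-Real.exp ((2 * C + 2) * F)) :=
        mul_le_mul_of_nonneg_right hkey (Real.exp_pos _).le
    _ = (Real.exp (((d : ℝ) / 2) * Real.log h - Real.exp ((2 * C + 2) * F))) * (B.det : ℝ) := by
        rw [sub_eq_add_neg, Real.exp_add]; ring
    _ ≤ 1 * (B.det : ℝ) := by
        apply mul_le_mul_of_nonneg_right _ hB0r
        rw [← Real.exp_zero]
        exact Real.exp_le_exp.2 (by linarith)
    _ = _ := one_mul _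

end Pool.Agent.H108R3.Had
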