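import Pool.Agent.H108R3.Had.Level

/-! The recursion and the final theorem, from the statements `St_X`. -/

namespace Pool.Agent.H108R3.Had

open Finset

theorem log_level {Q Q' : ℕ} (h : Q' ^ 98 ≤ Q ^ 97) : 98 * Real.log Q' ≤ 97 * Real.log Q := by
  rcases Nat.eq_zero_or_pos Q' with h0 | h0
  · subst h0
    have : 0 ≤ Real.log Q := Real.log_natCast_nonneg Q
    simp; exact this
  · have h1 : (0 : ℝ) < (Q' : ℝ) ^ 98 := by positivity
    have h2 : ((Q' : ℝ) ^ 98) ≤ (Q : ℝ) ^ 97 := by exact_mod_cast h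
    have h3 := Real.log_le_log h1 h2
    rw [Real.log_pow, Real.log_pow] at h3
    exact_mod_cast h3

theorem recursion (h3 : St_dbl) (h2 : St_lift) (h5 : St_mul) (hcore : St_core) {A : Finset ℕ}
    {M L k k' : ℕ}
    (hA : Win A M L) (hMA : M ≤ L ^ 2 * A.card) (hL : 1000000 ≤ L) (hM1 : L ^ 40 ≤ M)
    (hM2 : M ≤ 4 * L ^ 40) (hk1 : 1 ≤ k) (hk2 : 2 ^ k ≤ M ^ 5)
    (hsm : ∀ s ≤ 8 * L ^ 40, PUk k s) (hkk : k ≤ k')
    (hsm' : ∀ s < 25 * (1000000 * L ^ 20) * (M * 2 ^ k) ^ 4, PUk k' s) :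
    ∀ n Q : ℕ, Q < 2 ^ L → Real.log Q ≤ Real.exp ((n : ℝ) / 98) →
      ∃ l : List ℕ, l.length ≤ 4 * n + 1 ∧ (∀ y ∈ l, PUk k' y) ∧ l.sum = Q := by
  have hMpos : 0 < M := lt_of_lt_of_le (by positivity) hM1
  have hbig : 3 ≤ 25 * (1000000 * L ^ 20) * (M * 2 ^ k) ^ 4 := by
    have h1 : 1 ≤ (M * 2 ^ k) ^ 4 := Nat.one_le_pow _ _ (by positivity)
    have h2 : 1 ≤ L ^ 20 := Nat.one_le_pow _ _ (by omega)
    calc 3 ≤ 25 * (1000000 * 1) * 1 := by norm_num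
      _ ≤ 25 * (1000000 * L ^ 20) * (M * 2 ^ k) ^ 4 := by gcongr
  intro n
  induction n with
  | zero =>
    intro Q hQL hlog
    rcases lt_or_ge Q (25 * (1000000 * L ^ 20) * (M * 2 ^ k) ^ 4) with h | h
    · exact ⟨[Q], by simp, by simpa using hsm' Q h, by simp⟩
    · exfalso
      have hQ3 : (3 : ℝ) ≤ Q := by exact_mod_cast hbig.trans h
      have h1 : Real.log 3 ≤ Real.log Q := Real.log_le_log (by norm_num) hQ3
      have h2 : 1 < Real.log 3 := by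
        rw [Real.lt_log_iff_exp_lt (by norm_num)]
        exact lt_trans Real.exp_one_lt_d9 (by norm_num)
      simp at hlog
      linarith
  | succ n ih =>
    intro Q hQL hlog
    rcases lt_or_ge Q (25 * (1000000 * L ^ 20) * (M * 2 ^ k) ^ 4) with h | h
    · exact ⟨[Q], by simp, by simpa using hsm' Q h, by simp⟩
    · obtain ⟨l, hl1, hl2, Q', hQ', hpow⟩ := level h3 h5 hcore hA hMA hL hM1 hM2 hk1 hk2 hsm hQL h
      have hlog' := log_level hpow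
      have hQ'L : Q' < 2 ^ L := lt_of_le_of_lt (by omega) hQL
      have hexp : Real.log Q' ≤ Real.exp ((n : ℝ) / 98) := by
        have e1 : Real.exp (((n + 1 : ℕ) : ℝ) / 98) = Real.exp ((n : ℝ) / 98) * Real.exp (1 / 98) := by
          rw [← Real.exp_add]; congr 1; push_cast; ring
        have e2 : Real.exp (1 / 98) * (97 / 98) ≤ 1 := by
          have := Real.add_one_le_exp (-(1 / 98 : ℝ))
          have h1 : (97 / 98 : ℝ) ≤ Real.exp (-(1 / 98)) := by linarith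
          calc Real.exp (1 / 98) * (97 / 98) ≤ Real.exp (1 / 98) * Real.exp (-(1 / 98)) :=
                mul_le_mul_of_nonneg_left h1 (Real.exp_pos _).le
            _ = 1 := by rw [← Real.exp_add]; simp
        have e3 : Real.log Q' ≤ (97 / 98) * Real.log Q := by linarith
        calc Real.log Q' ≤ (97 / 98) * Real.log Q := e3
          _ ≤ (97 / 98) * Real.exp (((n + 1 : ℕ) : ℝ) / 98) :=
            mul_le_mul_of_nonneg_left hlog (by norm_num)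
          _ = Real.exp ((n : ℝ) / 98) * (Real.exp (1 / 98) * (97 / 98)) := by rw [e1]; ring
          _ ≤ Real.exp ((n : ℝ) / 98) * 1 := mul_le_mul_of_nonneg_left e2 (Real.exp_pos _).le
          _ = Real.exp ((n : ℝ) / 98) := mul_one _
      obtain ⟨l', hl1', hl2', hl3'⟩ := ih Q' hQ'L hexp
      refine ⟨l ++ l', by rw [List.length_append]; omega, ?_, ?_⟩
      · intro y hy
        rcases List.mem_append.1 hy with h' | h'
        · exact PUk_mono h2 hkk (hl2 y h')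
        · exact hl2' y h'
      · rw [List.sum_append, hl3', ← hQ']

/-- `2 ^ m` with `n ≤ 2 ^ m < 2 n` -/
theorem exists_pow_two (n : ℕ) (hn : 2 ≤ n) : ∃ m : ℕ, n ≤ 2 ^ m ∧ 2 ^ m < 2 * n := by
  refine ⟨Nat.clog 2 n, Nat.le_pow_clog (by norm_num) n, ?_⟩
  have h1 := Nat.pow_pred_clog_lt_self (b := 2) (by norm_num) (x := n) (by omega)
  have h2 : 1 ≤ Nat.clog 2 n := Nat.clog_pos (by norm_num) (by omega)
  have h3 : 2 ^ (Nat.clog 2 n) = 2 * 2 ^ (Nat.clog 2 n).pred := by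
    rw [← pow_succ', Nat.pred_eq_sub_one, Nat.sub_add_cancel h2]
  omega

/-- an exponent for all numbers up to `B` -/
theorem exists_level (hs : St_small) (B : ℕ) (hB : 2 ≤ B) : ∃ k : ℕ, 1 ≤ k ∧
    (∀ s ≤ B, PUk k s) ∧ k + 2 ≤ 4 * (Nat.log 2 B + 1) := by
  have hlog : 1 ≤ Nat.log 2 B := Nat.log_pos (by norm_num) hB
  obtain ⟨m, hm1, hm2⟩ := exists_pow_two (Nat.log 2 B + 1) (by omega)
  have h2 : 2 ^ (m + 1) = 2 * 2 ^ m := by rw [pow_succ]; ring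
  refine ⟨2 ^ (m + 1) - 1, ?_, ?_, ?_⟩
  · have : 1 ≤ 2 ^ m := Nat.one_le_two_pow
    omega
  · intro s hsB
    apply hs m s
    calc s ≤ B := hsB
      _ < 2 ^ (Nat.log 2 B + 1) := Nat.lt_pow_succ_log_self (by norm_num) B
      _ ≤ 2 ^ 2 ^ m := Nat.pow_le_pow_right (by norm_num) hm1
  · omega

theorem natlog_le (B : ℕ) (hB : B ≠ 0) : (Nat.log 2 B : ℝ) ≤ 2 * Real.log B := by
  have h1 : 2 ^ Nat.log 2 B ≤ B := Nat.pow_log_le_self 2 hB
  have h2 : ((2 : ℝ) ^ Nat.log 2 B) ≤ B := by exact_mod_cast h1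
  have h3 := Real.log_le_log (by positivity) h2
  rw [Real.log_pow] at h3
  have h4 : (1 / 2 : ℝ) ≤ Real.log 2 := by
    have := Real.log_two_gt_d9; linarith
  have h5 : (0 : ℝ) ≤ (Nat.log 2 B : ℝ) := Nat.cast_nonneg _
  nlinarith

/-- `κ B` is an exponent valid for all `s ≤ B` -/
def Lev (κ : ℕ → ℕ) : Prop := ∀ B : ℕ, 3 ≤ B → 1 ≤ κ B ∧ ∀ s ≤ B, PUk (κ B) s

/-- every valid bound for numbers up to `L ^ 1010`, `L` about `log q`, gives a bound for `q` -/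
theorem main_gen (h1 : St_base) (h2 : St_lift) (h3 : St_dbl) (h4 : St_add) (h5 : St_mul)
    (hw : St_window) (hcore : St_core) :
    ∃ C₁ : ℝ, 1 ≤ C₁ ∧ ∀ κ : ℕ → ℕ, Lev κ → ∀ q : ℕ, 3 ≤ q →
      ∃ L : ℕ, 1000000 ≤ L ∧ Real.log L ≤ C₁ * (1 + Real.log (Real.log q)) ∧
        ∀ t : ℕ, 786 * (1 + Real.log (Real.log q)) * ((κ (L ^ 1010) : ℝ) + 1) ≤ t → PUk t q := by
  have hsmall := t_small h1 h2 h3 h4
  have hsum := t_sum h1 h2 h4
  obtain ⟨L₀, hwin⟩ := hw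
  set C₀ : ℝ := 2 + (1 + 1000000 + L₀) with hC₀
  have hC₀pos : 1 < C₀ := by
    have : (0 : ℝ) ≤ L₀ := Nat.cast_nonneg _
    rw [hC₀]; linarith
  set C₁ : ℝ := 1 + Real.log C₀ with hC₁
  have hC₁pos : 1 ≤ C₁ := by
    have := Real.log_nonneg hC₀pos.le
    rw [hC₁]; linarith
  refine ⟨C₁, hC₁pos, fun κ hκ q hq => ?_⟩
  -- basic real facts
  have hq3 : (3 : ℝ) ≤ q := by exact_mod_cast hq
  have hlogq : 1 < Real.log q := by
    have h1 : Real.log 3 ≤ Real.log q := Real.log_le_log (by norm_num) hq3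
    have h2 : 1 < Real.log 3 := by
      rw [Real.lt_log_iff_exp_lt (by norm_num)]
      exact lt_trans Real.exp_one_lt_d9 (by norm_num)
    linarith
  have hllq : 0 < Real.log (Real.log q) := Real.log_pos hlogq
  set ℓ : ℝ := 1 + Real.log (Real.log q) with hℓ
  have hℓ1 : 1 ≤ ℓ := by rw [hℓ]; linarith
  -- L
  set L : ℕ := Nat.log 2 q + 1 + 1000000 + L₀ with hLdef
  have hL : 1000000 ≤ L := by omega
  have hLL₀ : L₀ ≤ L := by omega
  have hqL : q < 2 ^ L := lt_of_lt_of_le (Nat.lt_pow_succ_log_self (by norm_num) q)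
    (Nat.pow_le_pow_right (by norm_num) (by omega))
  have hLR : (L : ℝ) ≤ C₀ * Real.log q := by
    have h1 := natlog_le q (by omega)
    have h2 : (0 : ℝ) ≤ L₀ := Nat.cast_nonneg _
    have e : (L : ℝ) = (Nat.log 2 q : ℝ) + (1 + 1000000 + L₀) := by rw [hLdef]; push_cast; ring
    rw [e, hC₀]
    nlinarith
  clear_value L
  have hLpos : (0 : ℝ) < L := by
    have : (1000000 : ℝ) ≤ L := by exact_mod_cast hL
    linarith
  have hlogL : Real.log L ≤ C₁ * ℓ := by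
    have h1 := Real.log_le_log hLpos hLR
    rw [Real.log_mul (by linarith) (by linarith)] at h1
    have h2 : 0 ≤ Real.log C₀ := Real.log_nonneg hC₀pos.le
    have h3 : Real.log C₀ + Real.log (Real.log q) ≤ (1 + Real.log C₀) * (1 + Real.log (Real.log q)) := by
      nlinarith
    rw [hC₁, hℓ]; linarith
  refine ⟨L, hL, hlogL, fun t ht => ?_⟩
  obtain ⟨M, A, hM1, hM2, hA, hMA⟩ := hwin L hLL₀
  have hMpos : 0 < M := lt_of_lt_of_le (by positivity) hM1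
  have hL0 : 0 < L := by omega
  -- k
  have hB1 : 2 ≤ 8 * L ^ 40 := by
    have : 1 ≤ L ^ 40 := Nat.one_le_pow _ _ hL0
    omega
  have h8L : 8 * L ^ 40 ≤ L ^ 1010 := by
    calc 8 * L ^ 40 ≤ L * L ^ 40 := Nat.mul_le_mul_right _ (by omega)
      _ = L ^ 41 := by rw [← pow_succ']
      _ ≤ L ^ 1010 := Nat.pow_le_pow_right hL0 (by norm_num)
  have hL3 : 3 ≤ L ^ 1010 := by
    calc 3 ≤ L := by omega
      _ ≤ L ^ 1010 := Nat.le_self_pow (by norm_num) L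
  obtain ⟨k₀, hk₀1, hk₀sm, hk₀le⟩ := exists_level hsmall (8 * L ^ 40) hB1
  have hk₀2 : 2 ^ k₀ ≤ M ^ 5 := by
    have e1 : 2 ^ k₀ ≤ 2 ^ (4 * Nat.log 2 (8 * L ^ 40) + 2) :=
      Nat.pow_le_pow_right (by norm_num) (by omega)
    have e2 : 2 ^ Nat.log 2 (8 * L ^ 40) ≤ 8 * L ^ 40 := Nat.pow_log_le_self 2 (by omega)
    calc 2 ^ k₀ ≤ 2 ^ (4 * Nat.log 2 (8 * L ^ 40) + 2) := e1
      _ = (2 ^ Nat.log 2 (8 * L ^ 40)) ^ 4 * 4 := by
          rw [pow_add, mul_comm 4, pow_mul]; norm_num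
      _ ≤ (8 * L ^ 40) ^ 4 * 4 := Nat.mul_le_mul_right _ (Nat.pow_le_pow_left e2 4)
      _ = 16384 * L ^ 160 := by rw [mul_pow, ← pow_mul]; ring
      _ ≤ L ^ 40 * L ^ 160 := Nat.mul_le_mul_right _ (by
          calc 16384 ≤ 1000000 ^ 40 := by norm_num
            _ ≤ L ^ 40 := Nat.pow_le_pow_left hL 40)
      _ = (L ^ 40) ^ 5 := by rw [← pow_add, ← pow_mul]
      _ ≤ M ^ 5 := Nat.pow_le_pow_left hM1 5
  have hκL := hκ (L ^ 1010) hL3
  set k₂ : ℕ := κ (L ^ 1010) with hk₂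
  obtain ⟨k, hk1, hk2, hksm, hkk⟩ : ∃ k : ℕ, 1 ≤ k ∧ 2 ^ k ≤ M ^ 5 ∧
      (∀ s ≤ 8 * L ^ 40, PUk k s) ∧ k ≤ k₂ := by
    rcases le_total k₀ k₂ with h | h
    · exact ⟨k₀, hk₀1, hk₀2, hk₀sm, h⟩
    · refine ⟨k₂, hκL.1, ?_, ?_, le_rfl⟩
      · exact (Nat.pow_le_pow_right (by norm_num) h).trans hk₀2
      · intro s hs
        exact hκL.2 s (hs.trans h8L)
  have hbase : 25 * (1000000 * L ^ 20) * (M * 2 ^ k) ^ 4 ≤ L ^ 1010 := by
    calc 25 * (1000000 * L ^ 20) * (M * 2 ^ k) ^ 4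
        ≤ 25 * (1000000 * L ^ 20) * (M * M ^ 5) ^ 4 := by gcongr
      _ = 25000000 * L ^ 20 * M ^ 24 := by ring
      _ ≤ 25000000 * L ^ 20 * (4 * L ^ 40) ^ 24 := by gcongr
      _ = (25000000 * 4 ^ 24) * L ^ 980 := by rw [mul_pow, ← pow_mul]; ring
      _ ≤ L ^ 30 * L ^ 980 := Nat.mul_le_mul_right _ (by
          calc 25000000 * 4 ^ 24 ≤ 1000000 ^ 30 := by norm_num
            _ ≤ L ^ 30 := Nat.pow_le_pow_left hL 30)
      _ = L ^ 1010 := by rw [← pow_add]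
  -- recursion
  set n : ℕ := ⌈98 * Real.log (Real.log q)⌉₊ with hn
  have hn1 : 98 * Real.log (Real.log q) ≤ n := Nat.le_ceil _
  have hn2 : (n : ℝ) < 98 * Real.log (Real.log q) + 1 := Nat.ceil_lt_add_one (by positivity)
  have hlogexp : Real.log q ≤ Real.exp ((n : ℝ) / 98) := by
    rw [← Real.log_le_iff_le_exp (by linarith)]
    rw [le_div_iff₀ (by norm_num)]
    linarith
  obtain ⟨l, hl1, hl2, hl3⟩ := recursion h3 h2 h5 hcore hA hMA hL hM1 hM2 hk1 hk2 hksm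
    hkk (fun s hs => hκL.2 s (hs.le.trans hbase)) n q hqL hlogexp
  obtain ⟨m, hm1, hm2⟩ : ∃ m : ℕ, 4 * n + 1 ≤ 2 ^ m ∧ 2 ^ m ≤ 2 * (4 * n + 1) := by
    rcases Nat.eq_zero_or_pos n with h0 | h0
    · exact ⟨0, by omega, by omega⟩
    · obtain ⟨m, hm1, hm2⟩ := exists_pow_two (4 * n + 1) (by omega)
      exact ⟨m, hm1, hm2.le⟩
  have hPU := hsum k₂ m l hl2 (hl1.trans hm1)
  rw [hl3] at hPU
  refine PUk_mono h2 ?_ hPU
  have hmR : (2 : ℝ) ^ m ≤ 786 * ℓ := by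
    have e1 : (2 : ℝ) ^ m ≤ 2 * (4 * n + 1) := by exact_mod_cast hm2
    rw [hℓ]; linarith
  have hfin : ((2 ^ m * (k₂ + 1) - 1 : ℕ) : ℝ) ≤ t := by
    refine le_trans ?_ ht
    have e0 : ((2 ^ m * (k₂ + 1) - 1 : ℕ) : ℝ) ≤ ((2 ^ m * (k₂ + 1) : ℕ) : ℝ) := by
      exact_mod_cast Nat.sub_le _ _
    refine e0.trans ?_
    push_cast
    exact mul_le_mul_of_nonneg_right hmR (by positivity)
  exact_mod_cast hfin

/-- a valid function gives a valid function for the next round -/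
theorem loglog_pos {q : ℕ} (hq : 3 ≤ q) : 0 < Real.log (Real.log q) := by
  have hq3 : (3 : ℝ) ≤ q := by exact_mod_cast hq
  have h1 : Real.log 3 ≤ Real.log q := Real.log_le_log (by norm_num) hq3
  have h2 : 1 < Real.log 3 := by
    rw [Real.lt_log_iff_exp_lt (by norm_num)]
    exact lt_trans Real.exp_one_lt_d9 (by norm_num)
  exact Real.log_pos (by linarith)

/-- from a bound `t ≥ f q` for every `q ≥ 3`, `f` monotone, `f ≥ 1`, to a level function -/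
theorem lev_of (h1 : St_base) (h2 : St_lift) (f : ℕ → ℝ) (hf1 : ∀ q, 3 ≤ q → 1 ≤ f q)
    (hf : ∀ q q', 3 ≤ q → q ≤ q' → f q ≤ f q')
    (hPU : ∀ q t : ℕ, 3 ≤ q → f q ≤ t → PUk t q) (h02 : PUk 1 2) :
    Lev (fun B => ⌈f B⌉₊) := by
  intro B hB
  have h1le : (1 : ℝ) ≤ (⌈f B⌉₊ : ℝ) := (hf1 B hB).trans (Nat.le_ceil _)
  have h1' : 1 ≤ ⌈f B⌉₊ := by exact_mod_cast h1le
  refine ⟨h1', fun s hs => ?_⟩
  rcases lt_or_ge s 3 with h | h
  · have hs' : s = 0 ∨ s = 1 ∨ s = 2 := by omega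
    rcases hs' with rfl | rfl | rfl
    · exact PUk_mono h2 (Nat.zero_le _) h1.1
    · exact PUk_mono h2 (Nat.zero_le _) h1.2
    · exact PUk_mono h2 h1' h02
  · exact hPU s _ h ((hf s B h hs).trans (Nat.le_ceil _))

/-- first round: `t ≥ C (1 + log log q) ^ 2` -/
theorem round_one (h1 : St_base) (h2 : St_lift) (h3 : St_dbl) (h4 : St_add) (h5 : St_mul)
    (hw : St_window) (hcore : St_core) :
    ∃ C : ℝ, 1 ≤ C ∧ ∀ q t : ℕ, 3 ≤ q → C * (1 + Real.log (Real.log q)) ^ 2 ≤ t → PUk t q := by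
  have hsmall := t_small h1 h2 h3 h4
  obtain ⟨C₁, hC₁, hmain⟩ := main_gen h1 h2 h3 h4 h5 hw hcore
  have hex : ∀ B : ℕ, ∃ k : ℕ, 3 ≤ B → 1 ≤ k ∧
      (∀ s ≤ B, PUk k s) ∧ k + 2 ≤ 4 * (Nat.log 2 B + 1) := by
    intro B
    rcases lt_or_ge B 3 with h | h
    · exact ⟨0, fun h' => by omega⟩
    · obtain ⟨k, hk⟩ := exists_level hsmall B (by omega)
      exact ⟨k, fun _ => hk⟩
  choose κ hκ using hex
  have hLev : Lev κ := fun B hB => ⟨(hκ B hB).1, (hκ B hB).2.1⟩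
  refine ⟨786 * 8085 * C₁, by nlinarith, fun q t hq ht => ?_⟩
  obtain ⟨L, hL, hlogL, hPU⟩ := hmain κ hLev q hq
  have hll := loglog_pos hq
  set ℓ : ℝ := 1 + Real.log (Real.log q) with hℓ
  have hℓ1 : 1 ≤ ℓ := by rw [hℓ]; linarith
  apply hPU t
  have hLpos : (0 : ℝ) < L := by
    have : (1000000 : ℝ) ≤ L := by exact_mod_cast hL
    linarith
  have hlogL1 : 1 ≤ Real.log L := by
    rw [Real.le_log_iff_exp_le hLpos]
    have : (1000000 : ℝ) ≤ L := by exact_mod_cast hL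
    have h := Real.exp_one_lt_d9
    linarith
  have hLne : L ≠ 0 := by omega
  have hB3 : 3 ≤ L ^ 1010 := by
    calc 3 ≤ L := by omega
      _ ≤ L ^ 1010 := Nat.le_self_pow (by norm_num) L
  have e1 : (Nat.log 2 (L ^ 1010) : ℝ) ≤ 2020 * Real.log L := by
    have := natlog_le (L ^ 1010) (by positivity)
    rw [Nat.cast_pow, Real.log_pow] at this
    push_cast at this
    linarith
  have e4 : ((κ (L ^ 1010) : ℕ) : ℝ) + 2 ≤ 4 * ((Nat.log 2 (L ^ 1010) : ℝ) + 1) := by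
    exact_mod_cast (hκ (L ^ 1010) hB3).2.2
  have hkR : ((κ (L ^ 1010) : ℕ) : ℝ) + 1 ≤ 8085 * Real.log L := by linarith
  refine le_trans ?_ ht
  calc 786 * ℓ * (((κ (L ^ 1010) : ℕ) : ℝ) + 1) ≤ (786 * ℓ) * (8085 * (C₁ * ℓ)) := by
        apply mul_le_mul_of_nonneg_left _ (by positivity)
        linarith
    _ = 786 * 8085 * C₁ * ℓ ^ 2 := by ring

/-- second round: `t ≥ C ℓ (1 + log ℓ) ^ 2`, `ℓ = 1 + log log q` -/
theorem round_two (h1 : St_base) (h2 : St_lift) (h3 : St_dbl) (h4 : St_add) (h5 : St_mul)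
    (hw : St_window) (hcore : St_core) :
    ∃ C : ℝ, 1 ≤ C ∧ ∀ q t : ℕ, 3 ≤ q →
      C * (1 + Real.log (Real.log q)) * (1 + Real.log (1 + Real.log (Real.log q))) ^ 2 ≤ t →
      PUk t q := by
  obtain ⟨C₁, hC₁, hmain⟩ := main_gen h1 h2 h3 h4 h5 hw hcore
  obtain ⟨C, hC, hone⟩ := round_one h1 h2 h3 h4 h5 hw hcore
  have h12 : PUk 1 2 := by
    have := h3 1 1 le_rfl (h2 0 1 h1.2)
    simpa using this
  have hLev : Lev (fun B => ⌈C * (1 + Real.log (Real.log B)) ^ 2⌉₊) := by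
    refine lev_of h1 h2 (fun B => C * (1 + Real.log (Real.log B)) ^ 2) ?_ ?_ hone h12
    · intro q hq
      have := loglog_pos hq
      have h' : 1 ≤ (1 + Real.log (Real.log q)) ^ 2 := by nlinarith
      nlinarith
    · intro q q' hq hqq'
      have hq3 : (3 : ℝ) ≤ q := by exact_mod_cast hq
      have hl := loglog_pos hq
      have hqr : (q : ℝ) ≤ q' := by exact_mod_cast hqq'
      have h1' : Real.log q ≤ Real.log q' := Real.log_le_log (by linarith) hqr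
      have h0 : 0 < Real.log q := Real.log_pos (by linarith)
      have h2' : Real.log (Real.log q) ≤ Real.log (Real.log q') := Real.log_le_log h0 h1'
      have : (1 + Real.log (Real.log q)) ^ 2 ≤ (1 + Real.log (Real.log q')) ^ 2 := by
        apply pow_le_pow_left₀ (by linarith)
        linarith
      exact mul_le_mul_of_nonneg_left this (by linarith)
  -- constants
  set C₂ : ℝ := 8 + Real.log C₁ with hC₂
  have hlC₁ : 0 ≤ Real.log C₁ := Real.log_nonneg hC₁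
  refine ⟨786 * (C * C₂ ^ 2 + 2), by nlinarith, fun q t hq ht => ?_⟩
  obtain ⟨L, hL, hlogL, hPU⟩ := hmain _ hLev q hq
  have hll := loglog_pos hq
  set ℓ : ℝ := 1 + Real.log (Real.log q) with hℓ
  have hℓ1 : 1 ≤ ℓ := by rw [hℓ]; linarith
  have hlℓ : 0 ≤ Real.log ℓ := Real.log_nonneg hℓ1
  apply hPU t
  have hL6 : (1000000 : ℝ) ≤ L := by exact_mod_cast hL
  have hLpos : (0 : ℝ) < L := by linarith
  have hlogL1 : 1 ≤ Real.log L := by
    rw [Real.le_log_iff_exp_le hLpos]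
    have h := Real.exp_one_lt_d9
    linarith
  -- `log log (L ^ 1010) ≤ 7 + log C₁ + log ℓ`
  have hlog1010 : Real.log 1010 ≤ 7 := by
    rw [Real.log_le_iff_le_exp (by norm_num)]
    have h27 : (2.7 : ℝ) ≤ Real.exp 1 := by
      have := Real.exp_one_gt_d9
      linarith
    have h5 : Real.exp 7 = Real.exp 1 ^ 7 := by
      rw [← Real.exp_nat_mul]; norm_num
    rw [h5]
    calc (1010 : ℝ) ≤ 2.7 ^ 7 := by norm_num
      _ ≤ _ := pow_le_pow_left₀ (by norm_num) h27 7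
  have hLL : Real.log (Real.log ((L ^ 1010 : ℕ) : ℝ)) ≤ 7 + Real.log C₁ + Real.log ℓ := by
    rw [Nat.cast_pow, Real.log_pow, Real.log_mul (by norm_num) (by linarith)]
    have h1' : Real.log (Real.log L) ≤ Real.log (C₁ * ℓ) := Real.log_le_log (by linarith) hlogL
    rw [Real.log_mul (by linarith) (by linarith)] at h1'
    push_cast
    linarith
  have hLL0 : 0 < Real.log (Real.log ((L ^ 1010 : ℕ) : ℝ)) := by
    apply loglog_pos
    calc 3 ≤ L := by omega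
      _ ≤ L ^ 1010 := Nat.le_self_pow (by norm_num) L
  set X : ℝ := Real.log (Real.log ((L ^ 1010 : ℕ) : ℝ)) with hX
  have hX2 : 1 + X ≤ C₂ * (1 + Real.log ℓ) := by
    rw [hC₂]; nlinarith
  have hceil : ((⌈C * (1 + X) ^ 2⌉₊ : ℕ) : ℝ) ≤ C * (1 + X) ^ 2 + 1 :=
    (Nat.ceil_lt_add_one (by positivity)).le
  have hX3 : (1 + X) ^ 2 ≤ C₂ ^ 2 * (1 + Real.log ℓ) ^ 2 := by
    rw [← mul_pow]
    exact pow_le_pow_left₀ (by linarith) hX2 2
  have hone' : 1 ≤ (1 + Real.log ℓ) ^ 2 := by nlinarith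
  refine le_trans ?_ ht
  have hmid : ((⌈C * (1 + X) ^ 2⌉₊ : ℕ) : ℝ) + 1 ≤ (C * C₂ ^ 2 + 2) * (1 + Real.log ℓ) ^ 2 := by
    have h6 : C * (1 + X) ^ 2 ≤ C * (C₂ ^ 2 * (1 + Real.log ℓ) ^ 2) :=
      mul_le_mul_of_nonneg_left hX3 (by linarith)
    nlinarith
  calc 786 * ℓ * (((⌈C * (1 + X) ^ 2⌉₊ : ℕ) : ℝ) + 1)
      ≤ (786 * ℓ) * ((C * C₂ ^ 2 + 2) * (1 + Real.log ℓ) ^ 2) :=
        mul_le_mul_of_nonneg_left hmid (by positivity)
    _ = 786 * (C * C₂ ^ 2 + 2) * ℓ * (1 + Real.log ℓ) ^ 2 := by ring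

end Pool.Agent.H108R3.Had
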