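import Pool.Agent.H108R3.Had.P8a

/-! One level of the recursion. -/

namespace Pool.Agent.H108R3.Had

open Finset

theorem pow_le_of {L : ℕ} (hL : 1000000 ≤ L) : 1 ≤ L := by omega

/-- one level -/
theorem level (h3 : St_dbl) (h5 : St_mul) (hcore : St_core) {A : Finset ℕ} {M L k : ℕ}
    (hA : Win A M L) (hMA : M ≤ L ^ 2 * A.card) (hL : 1000000 ≤ L) (hM1 : L ^ 40 ≤ M)
    (hM2 : M ≤ 4 * L ^ 40) (hk1 : 1 ≤ k) (hk2 : 2 ^ k ≤ M ^ 5)
    (hsm : ∀ s ≤ 8 * L ^ 40, PUk k s) {Q : ℕ} (hQL : Q < 2 ^ L)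
    (hQ : 25 * (1000000 * L ^ 20) * (M * 2 ^ k) ^ 4 ≤ Q) :
    ∃ l : List ℕ, l.length = 4 ∧ (∀ y ∈ l, PUk k y) ∧
      ∃ Q' : ℕ, Q = l.sum + Q' ∧ Q' ^ 98 ≤ Q ^ 97 := by
  have hL0 : 0 < L := by omega
  set T : ℕ := 1000000 * L ^ 20 with hT
  set D : ℕ := (M * 2 ^ k) ^ 4 with hD
  have hMpos : 0 < M := lt_of_lt_of_le (by positivity) hM1
  have hTpos : 0 < T := by positivity
  -- sizes
  have hLbig : (1000000 : ℕ) ^ 20 ≤ L ^ 20 := Nat.pow_le_pow_left hL 20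
  have hTM : 25 * T ≤ M := by
    calc 25 * T = 25000000 * L ^ 20 := by rw [hT]; ring
      _ ≤ 1000000 ^ 20 * L ^ 20 := Nat.mul_le_mul_right _ (by norm_num)
      _ ≤ L ^ 20 * L ^ 20 := Nat.mul_le_mul_right _ hLbig
      _ = L ^ 40 := by rw [← pow_add]
      _ ≤ M := hM1
  have hM64 : 8000 ^ 2 ≤ M := by
    calc 8000 ^ 2 ≤ 1000000 ^ 20 := by norm_num
      _ ≤ L ^ 20 := hLbig
      _ ≤ L ^ 40 := Nat.pow_le_pow_right hL0 (by norm_num)
      _ ≤ M := hM1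
  have hDM : D ≤ M ^ 24 := by
    calc D = M ^ 4 * (2 ^ k) ^ 4 := by rw [hD, mul_pow]
      _ ≤ M ^ 4 * (M ^ 5) ^ 4 := Nat.mul_le_mul_left _ (Nat.pow_le_pow_left hk2 4)
      _ = M ^ 24 := by rw [← pow_mul, ← pow_add]
  have hD2 : 2 ^ 2500 ≤ D := by
    have h1 : 2 ^ 19 ≤ L := le_trans (by norm_num) hL
    calc 2 ^ 2500 ≤ 2 ^ (19 * 40 * 4) := Nat.pow_le_pow_right (by norm_num) (by norm_num)
      _ = ((2 ^ 19) ^ 40) ^ 4 := by rw [← pow_mul, ← pow_mul]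
      _ ≤ (L ^ 40) ^ 4 := Nat.pow_le_pow_left (Nat.pow_le_pow_left h1 40) 4
      _ ≤ M ^ 4 := Nat.pow_le_pow_left hM1 4
      _ ≤ (M * 2 ^ k) ^ 4 := Nat.pow_le_pow_left (Nat.le_mul_of_pos_right _ (by positivity)) 4
  have hD1 : 1 < D := lt_of_lt_of_le (by norm_num) hD2
  -- the maximal g
  let Pg : ℕ → Prop := fun g => 25 * T * D ^ g ≤ Q
  have hexg : ∃ g : ℕ, 1 ≤ g ∧ 25 * T * D ^ g ≤ Q ∧ Q < 25 * T * D ^ (g + 1) := by
    have hPdec : DecidablePred Pg := fun g => Nat.decLe _ _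
    refine ⟨Nat.findGreatest Pg Q, ?_, ?_, ?_⟩
    · apply Nat.le_findGreatest
      · refine le_trans ?_ hQ
        have : 0 < 25 * T * D := by positivity
        omega
      · show 25 * T * D ^ 1 ≤ Q
        rw [pow_one]; exact hQ
    · have h1 : Pg 1 := by
        show 25 * T * D ^ 1 ≤ Q
        rw [pow_one]; exact hQ
      have h1Q : 1 ≤ Q := by
        refine le_trans ?_ hQ
        have : 0 < 25 * T * D := by positivity
        omega
      exact Nat.findGreatest_spec (P := Pg) h1Q h1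
    · by_contra hcon
      push Not at hcon
      have hle : Nat.findGreatest Pg Q + 1 ≤ Q := by
        refine le_trans (Nat.le_of_lt (Nat.lt_pow_self hD1)) (le_trans ?_ hcon)
        exact Nat.le_mul_of_pos_left _ (by positivity)
      have := Nat.le_findGreatest (P := Pg) hle hcon
      omega
  obtain ⟨g, hg1, hgQ, hgQ'⟩ := hexg
  have hgL : 2500 * g ≤ L := by
    have h1 : 2 ^ (2500 * g) < 2 ^ L := by
      calc 2 ^ (2500 * g) = (2 ^ 2500) ^ g := by rw [← pow_mul]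
        _ ≤ D ^ g := Nat.pow_le_pow_left hD2 g
        _ ≤ 25 * T * D ^ g := Nat.le_mul_of_pos_left _ (by positivity)
        _ ≤ Q := hgQ
        _ < 2 ^ L := hQL
    exact (Nat.pow_lt_pow_iff_right (by norm_num)).1 h1 |>.le
  -- the maximal c
  set Y : ℕ := T * M ^ (4 * g) with hY
  have hYpos : 0 < Y := by positivity
  have hc0 : 2 ^ (k * (4 * g)) * (25 * Y) ≤ Q := by
    refine le_trans (le_of_eq ?_) hgQ
    rw [hY, hD, ← pow_mul, mul_pow, ← pow_mul]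
    rw [show k * (4 * g) = 4 * g * k by ring, show 2 ^ (4 * g * k) = 2 ^ (k * (4 * g)) by
      rw [mul_comm]]
    ring
  let Pc : ℕ → Prop := fun c => 2 ^ c * (25 * Y) ≤ Q
  have hexc : ∃ c : ℕ, k * (4 * g) ≤ c ∧ 2 ^ c * (25 * Y) ≤ Q ∧ Q < 2 ^ (c + 1) * (25 * Y) := by
    have hPdec : DecidablePred Pc := fun g => Nat.decLe _ _
    have hle0 : k * (4 * g) ≤ Q := by
      refine le_trans (Nat.le_of_lt (Nat.lt_pow_self (by norm_num : 1 < 2))) (le_trans ?_ hc0)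
      exact Nat.le_mul_of_pos_right _ (by positivity)
    refine ⟨Nat.findGreatest Pc Q, ?_, ?_, ?_⟩
    · exact Nat.le_findGreatest hle0 hc0
    · exact Nat.findGreatest_spec (P := Pc) hle0 hc0
    · by_contra hcon
      push Not at hcon
      have hle : Nat.findGreatest Pc Q + 1 ≤ Q := by
        refine le_trans (Nat.le_of_lt (Nat.lt_pow_self (by norm_num : 1 < 2))) (le_trans ?_ hcon)
        exact Nat.le_mul_of_pos_right _ (by positivity)
      have := Nat.le_findGreatest (P := Pc) hle hcon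
      omega
  obtain ⟨c, hkc, hcQ, hcQ'⟩ := hexc
  have h2c : 0 < 2 ^ c := by positivity
  set q := Q / 2 ^ c with hq
  have hq1 : 25 * Y ≤ q := by
    rw [hq, Nat.le_div_iff_mul_le h2c]; linarith
  have hq2 : q < 50 * Y := by
    rw [hq, Nat.div_lt_iff_lt_mul h2c]
    refine lt_of_lt_of_le hcQ' (le_of_eq ?_)
    rw [pow_succ]; ring
  set Z : ℕ := 100000 * T * M ^ (3 * g) with hZ
  have hMg : M ≤ M ^ g := Nat.le_self_pow (by omega) M
  have hZY : Z ≤ Y := by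
    calc Z = 100000 * (T * M ^ (3 * g)) := by rw [hZ]; ring
      _ ≤ M ^ g * (T * M ^ (3 * g)) := Nat.mul_le_mul_right _ (by omega)
      _ = Y := by rw [hY]; rw [show 4 * g = g + 3 * g by ring, pow_add]; ring
  obtain ⟨i₁, hi₁, i₂, hi₂, i₃, hi₃, i₄, hi₄, hX⟩ := hcore A M L g (q - Z) hA hMA hL hM1 hM2 hg1 hgL
    (by rw [← hT, ← hY]; omega) (by rw [← hT, ← hY]; omega)
  rw [← hT, ← hZ] at hX
  rw [← hT] at hi₁ hi₂ hi₃ hi₄
  set S : ℕ := yf T i₁ + yf T i₂ + yf T i₃ + yf T i₄ with hS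
  have hcast : ((q - Z : ℕ) : ℤ) = (q : ℤ) - Z := by push_cast [Nat.cast_sub (by omega : Z ≤ q)]; ring
  rw [hcast, abs_lt] at hX
  have hS1 : S < q := by have := hX.2; omega
  have hS2 : q + 1 ≤ S + 2 * Z := by have := hX.1; omega
  have hQdiv : q * 2 ^ c ≤ Q := Nat.div_mul_le_self _ _
  have hQdiv' : Q < (q + 1) * 2 ^ c := by
    rw [hq]
    have h := Nat.div_add_mod Q (2 ^ c)
    have h' := Nat.mod_lt Q h2c
    nlinarith
  -- membership
  have hmem : ∀ i ∈ Ef A (4 * g) T, PUk k (2 ^ c * yf T i) := by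
    intro i hi
    simp only [Ef, Finset.mem_product, Finset.mem_range] at hi
    obtain ⟨l, hl1, hl2, hl3⟩ := (mem_Pr A (4 * g)).1 hi.2
    have := t_prod h3 h5 k l (T + i.1) c hk1 (hsm _ ?_) ?_ ?_
    · rw [hl3] at this; exact this
    · have h51 : T + i.1 ≤ 51 * T := by omega
      calc T + i.1 ≤ 51 * T := h51
        _ ≤ 8 * (25 * T) := by omega
        _ = 8 * (25000000 * L ^ 20) := by rw [hT]; ring
        _ ≤ 8 * (1000000 ^ 20 * L ^ 20) :=
          Nat.mul_le_mul_left _ (Nat.mul_le_mul_right _ (by norm_num))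
        _ ≤ 8 * (L ^ 20 * L ^ 20) := Nat.mul_le_mul_left _ (Nat.mul_le_mul_right _ hLbig)
        _ = 8 * L ^ 40 := by rw [← pow_add]
    · intro p hp
      apply hsm
      have hpA := hA p (hl2 p hp)
      have h1 : p * L ≤ (2 * M) * L := by
        refine hpA.2.2.trans ?_
        rw [show 2 * M * L = M * (2 * L) by ring]
        exact Nat.mul_le_mul_left _ (by omega)
      have h2 : p ≤ 2 * M := Nat.le_of_mul_le_mul_right h1 hL0
      omega
    · rw [hl1]; exact hkc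
  refine ⟨[2 ^ c * yf T i₁, 2 ^ c * yf T i₂, 2 ^ c * yf T i₃, 2 ^ c * yf T i₄], rfl, ?_,
    Q - 2 ^ c * S, ?_, ?_⟩
  · intro y hy
    simp only [List.mem_cons, List.not_mem_nil, or_false] at hy
    rcases hy with rfl | rfl | rfl | rfl
    · exact hmem _ hi₁
    · exact hmem _ hi₂
    · exact hmem _ hi₃
    · exact hmem _ hi₄
  · have hsum : [2 ^ c * yf T i₁, 2 ^ c * yf T i₂, 2 ^ c * yf T i₃, 2 ^ c * yf T i₄].sum
        = 2 ^ c * S := by
      simp only [List.sum_cons, List.sum_nil, hS]; ring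
    rw [hsum]
    have : 2 ^ c * S ≤ Q := by
      refine le_trans ?_ hQdiv
      rw [mul_comm]
      exact Nat.mul_le_mul_right _ hS1.le
    omega
  · set Q' := Q - 2 ^ c * S with hQ'
    have hle : 2 ^ c * S ≤ Q := by
      refine le_trans ?_ hQdiv
      rw [mul_comm]
      exact Nat.mul_le_mul_right _ hS1.le
    have hQ'1 : Q' ≤ 2 ^ c * (2 * Z) := by
      have h1 : Q ≤ (S + 2 * Z) * 2 ^ c := by
        refine hQdiv'.le.trans (Nat.mul_le_mul_right _ hS2)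
      have h2 : (S + 2 * Z) * 2 ^ c = 2 ^ c * S + 2 ^ c * (2 * Z) := by ring
      omega
    have hQ'2 : Q' * M ^ g ≤ 8000 * Q := by
      have h1 : Q' * M ^ g ≤ 2 ^ c * (2 * Z) * M ^ g := Nat.mul_le_mul_right _ hQ'1
      have h2 : 2 ^ c * (2 * Z) * M ^ g = 8000 * (2 ^ c * (25 * Y)) := by
        rw [hZ, hY, show 4 * g = g + 3 * g by ring, pow_add]; ring
      rw [h2] at h1
      exact h1.trans (Nat.mul_le_mul_left _ hcQ)
    have hQ'3 : Q' ^ 2 * M ^ g ≤ Q ^ 2 := by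
      have h1 : Q' ^ 2 * M ^ g * M ^ g ≤ 8000 ^ 2 * Q ^ 2 := by
        calc Q' ^ 2 * M ^ g * M ^ g = (Q' * M ^ g) ^ 2 := by ring
          _ ≤ (8000 * Q) ^ 2 := Nat.pow_le_pow_left hQ'2 2
          _ = 8000 ^ 2 * Q ^ 2 := by rw [mul_pow]
      have h2 : 8000 ^ 2 * Q ^ 2 ≤ M ^ g * Q ^ 2 := Nat.mul_le_mul_right _ (hM64.trans hMg)
      have h3 : Q' ^ 2 * M ^ g * M ^ g ≤ Q ^ 2 * M ^ g := by
        rw [mul_comm (Q ^ 2)]; exact h1.trans h2
      exact Nat.le_of_mul_le_mul_right h3 (by positivity)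
    have hQM : Q ≤ M ^ (49 * g) := by
      calc Q ≤ 25 * T * D ^ (g + 1) := hgQ'.le
        _ ≤ M * (M ^ 24) ^ (g + 1) := Nat.mul_le_mul hTM (Nat.pow_le_pow_left hDM _)
        _ = M ^ (1 + 24 * (g + 1)) := by rw [← pow_mul, pow_add, pow_one]
        _ ≤ M ^ (49 * g) := Nat.pow_le_pow_right hMpos (by omega)
    have hQ0 : 0 < Q := lt_of_lt_of_le (by positivity) hcQ
    have h5 : Q' ^ 98 * Q ≤ Q ^ 97 * Q := by
      calc Q' ^ 98 * Q ≤ Q' ^ 98 * M ^ (49 * g) := Nat.mul_le_mul_left _ hQM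
        _ = (Q' ^ 2 * M ^ g) ^ 49 := by rw [mul_pow, ← pow_mul, ← pow_mul, mul_comm g 49]
        _ ≤ (Q ^ 2) ^ 49 := Nat.pow_le_pow_left hQ'3 49
        _ = Q ^ 97 * Q := by rw [← pow_mul, ← pow_succ]
    exact Nat.le_of_mul_le_mul_right h5 hQ0

end Pool.Agent.H108R3.Had
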