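import Pool.Agent.H108R3.Had.Defs

namespace Pool.Agent.H108R3.Had

open Finset

theorem t_N0 : St_geom := by
  intro N θ hθ hθ2
  have hpi := Real.pi_pos
  have hz : ∀ r : ℕ, e (θ * r) = (e θ) ^ r := by
    intro r
    unfold e
    rw [← Complex.exp_nat_mul]
    congr 1
    push_cast
    ring
  have hnorm : ‖e θ - 1‖ = 2 * Real.sin (Real.pi * θ) := by
    have h1 : e θ = Complex.exp (Complex.I * ((2 * Real.pi * θ : ℝ) : ℂ)) := by
      unfold e
      congr 1
      push_cast
      ring
    rw [h1, Complex.norm_exp_I_mul_ofReal_sub_one]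
    have h2 : 2 * Real.pi * θ / 2 = Real.pi * θ := by ring
    have h3 : 0 ≤ Real.sin (Real.pi * θ) := by
      apply Real.sin_nonneg_of_nonneg_of_le_pi (by positivity)
      nlinarith
    rw [h2, Real.norm_of_nonneg (by positivity)]
  have hge : 4 * θ ≤ ‖e θ - 1‖ := by
    rw [hnorm]
    have := Real.mul_le_sin (x := Real.pi * θ) (by positivity) (by nlinarith)
    have h4 : 2 / Real.pi * (Real.pi * θ) = 2 * θ := by
      field_simp
    rw [h4] at this
    linarith
  have hpos : 0 < ‖e θ - 1‖ := by linarith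
  have hne : e θ ≠ 1 := by
    intro h
    rw [h, sub_self, norm_zero] at hpos
    exact lt_irrefl _ hpos
  have hone : ‖e θ‖ = 1 := by
    unfold e
    have : (2 * (Real.pi : ℂ) * (θ : ℂ) * Complex.I) = ((2 * Real.pi * θ : ℝ) : ℂ) * Complex.I := by
      push_cast; ring
    rw [this]
    exact Complex.norm_exp_ofReal_mul_I _
  rw [Finset.sum_congr rfl fun r _ => hz r, geom_sum_eq hne, norm_div]
  have hnum : ‖e θ ^ N - 1‖ ≤ 2 := by
    refine (norm_sub_le _ _).trans ?_
    rw [norm_pow, hone, one_pow, norm_one]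
    norm_num
  rw [div_le_div_iff₀ hpos (by positivity)]
  nlinarith

end Pool.Agent.H108R3.Had
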