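import Pool.Agent.H108R3.Had.Defs

/-! Task N1: a short window with many primes. -/

set_option autoImplicit false

namespace Pool.Agent.H108R3.Had

open Finset

/-- the primes in `(x, 4x]` -/
private def N1_P (x : ℕ) : Finset ℕ := (Ioc x (4 * x)).filter Nat.Prime

private theorem N1_theta_diff (x : ℕ) (hx : 1 ≤ x) :
    Chebyshev.theta ((4 * x : ℕ) : ℝ) - Chebyshev.theta (x : ℝ) ≤
      ((N1_P x).card : ℝ) * Real.log ((4 * x : ℕ) : ℝ) := by
  have h1 : Chebyshev.theta ((4 * x : ℕ) : ℝ) =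
      Chebyshev.theta (x : ℝ) + ∑ p ∈ N1_P x, Real.log p := by
    unfold Chebyshev.theta N1_P
    rw [Nat.floor_natCast, Nat.floor_natCast]
    have hsplit : Ioc 0 (4 * x) = Ioc 0 x ∪ Ioc x (4 * x) := by
      ext p; simp only [mem_union, mem_Ioc]; omega
    rw [hsplit, Finset.filter_union, Finset.sum_union]
    rw [Finset.disjoint_left]
    intro p hp hp'
    simp only [mem_filter, mem_Ioc] at hp hp'
    omega
  rw [h1, add_sub_cancel_left, ← nsmul_eq_mul]
  refine Finset.sum_le_card_nsmul _ _ _ fun p hp => ?_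
  simp only [N1_P, mem_filter, mem_Ioc] at hp
  apply Real.log_le_log
  · have := hp.2.pos
    exact_mod_cast this
  · exact_mod_cast hp.1.2

private theorem N1_many (L : ℕ) (hL : 100 ≤ L) :
    ((L ^ 40 : ℕ) : ℝ) ≤ ((N1_P (L ^ 40)).card : ℝ) * (2 + 40 * Real.log L) := by
  set x : ℕ := L ^ 40 with hx
  have hL0 : (100 : ℝ) ≤ L := by exact_mod_cast hL
  have hx1 : 1 ≤ x := Nat.one_le_pow _ _ (by omega)
  have hxR : (x : ℝ) = (L : ℝ) ^ 40 := by rw [hx]; push_cast; ring
  have hd := N1_theta_diff x hx1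
  have hge := Chebyshev.theta_ge (4 * x)
  have hle := Chebyshev.theta_le_log4_mul_x (x := (x : ℝ)) (by positivity)
  have hlog4 : Real.log 4 = 2 * Real.log 2 := by
    rw [show (4 : ℝ) = 2 ^ 2 by norm_num, Real.log_pow]; norm_num
  have hl2 : (0.6931 : ℝ) < Real.log 2 := by have := Real.log_two_gt_d9; linarith
  have hl2' : Real.log 2 < 0.6932 := by have := Real.log_two_lt_d9; linarith
  have hlogx : Real.log ((4 * x : ℕ) : ℝ) = 2 * Real.log 2 + 40 * Real.log L := by
    push_cast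
    rw [Real.log_mul (by norm_num) (by positivity), hlog4, hxR, Real.log_pow]
    norm_num
  have hlogL : Real.log L ≤ L := by
    have := Real.log_le_sub_one_of_pos (show (0 : ℝ) < L by linarith)
    linarith
  have hlogL0 : 0 ≤ Real.log L := Real.log_nonneg (by linarith)
  have hsq : √((4 * x : ℕ) : ℝ) = 2 * (L : ℝ) ^ 20 := by
    rw [show (((4 * x : ℕ) : ℝ)) = (2 * (L : ℝ) ^ 20) ^ 2 by push_cast; rw [hxR]; ring]
    exact Real.sqrt_sq (by positivity)
  have hlog1 : Real.log (((4 * x : ℕ) : ℝ) + 1) ≤ 3 + 40 * Real.log L := by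
    have h1 : Real.log (((4 * x : ℕ) : ℝ) + 1) ≤ Real.log (2 * ((4 * x : ℕ) : ℝ)) := by
      apply Real.log_le_log (by positivity)
      have : (1 : ℝ) ≤ x := by exact_mod_cast hx1
      push_cast; linarith
    rw [Real.log_mul (by norm_num) (by positivity), hlogx] at h1
    linarith
  rw [hlogx] at hd hge
  rw [hsq] at hge
  have hcard : (0 : ℝ) ≤ ((N1_P x).card : ℝ) := by positivity
  have h5 : ((N1_P x).card : ℝ) * (2 * Real.log 2 + 40 * Real.log L) ≤
      ((N1_P x).card : ℝ) * (2 + 40 * Real.log L) :=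
    mul_le_mul_of_nonneg_left (by linarith) hcard
  refine le_trans ?_ h5
  refine le_trans ?_ hd
  have hL20 : (0 : ℝ) ≤ (L : ℝ) ^ 20 := by positivity
  -- lower bound of theta(4x) - theta(x)
  have hA : 2 * (2 * (L : ℝ) ^ 20) * (2 * Real.log 2 + 40 * Real.log L) ≤ 168 * (L : ℝ) ^ 21 := by
    have : 2 * Real.log 2 + 40 * Real.log L ≤ 42 * L := by linarith
    calc 2 * (2 * (L : ℝ) ^ 20) * (2 * Real.log 2 + 40 * Real.log L)
        ≤ 2 * (2 * (L : ℝ) ^ 20) * (42 * L) := mul_le_mul_of_nonneg_left this (by positivity)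
      _ = 168 * (L : ℝ) ^ 21 := by ring
  have hB : 3 + 40 * Real.log L ≤ (L : ℝ) ^ 21 := by
    have h1 : (L : ℝ) ^ 2 ≤ (L : ℝ) ^ 21 := pow_le_pow_right₀ (by linarith) (by norm_num)
    nlinarith
  have hC : 169 * (L : ℝ) ^ 21 ≤ 0.38 * (x : ℝ) := by
    rw [hxR]
    have h1 : (L : ℝ) ^ 40 = (L : ℝ) ^ 21 * (L : ℝ) ^ 19 := by rw [← pow_add]
    have h2 : (L : ℝ) ^ 2 ≤ (L : ℝ) ^ 19 := pow_le_pow_right₀ (by linarith) (by norm_num)
    have h3 : (10000 : ℝ) ≤ (L : ℝ) ^ 19 := by nlinarith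
    have h4 : (0 : ℝ) ≤ (L : ℝ) ^ 21 := by positivity
    rw [h1]; nlinarith
  have hxpos : (0 : ℝ) ≤ x := by positivity
  have hD : (0.6931 : ℝ) * (2 * x) ≤ Real.log 2 * (2 * x) :=
    mul_le_mul_of_nonneg_right hl2.le (by positivity)
  rw [hlog4] at hle
  push_cast at hge ⊢
  push_cast at hlog1
  nlinarith

private theorem N1_num : ∃ L₀ : ℕ, 100 ≤ L₀ ∧ ∀ L : ℕ, L₀ ≤ L →
    4 * (3 * (L : ℝ) + 1) * (2 + 40 * Real.log L) ≤ (L : ℝ) ^ 2 := by
  refine ⟨2000000, by norm_num, fun L hL => ?_⟩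
  have hL0 : (2000000 : ℝ) ≤ L := by exact_mod_cast hL
  have hs : (1400 : ℝ) ≤ √(L : ℝ) := by
    apply Real.le_sqrt_of_sq_le; linarith
  have hss : √(L : ℝ) * √(L : ℝ) = L := Real.mul_self_sqrt (by linarith)
  have hlog : Real.log L ≤ 2 * √(L : ℝ) := by
    have h1 : Real.log (√(L : ℝ)) = Real.log L / 2 := Real.log_sqrt (by linarith)
    have h2 := Real.log_le_sub_one_of_pos (show (0 : ℝ) < √(L : ℝ) by linarith)
    linarith
  have h1 : 2 + 40 * Real.log L ≤ 81 * √(L : ℝ) := by linarith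
  have h2 : 4 * (3 * (L : ℝ) + 1) ≤ 13 * L := by linarith
  have h3 : 0 ≤ 2 + 40 * Real.log L := by
    have := Real.log_nonneg (show (1 : ℝ) ≤ L by linarith)
    linarith
  calc 4 * (3 * (L : ℝ) + 1) * (2 + 40 * Real.log L) ≤ 13 * L * (81 * √(L : ℝ)) :=
        mul_le_mul h2 h1 h3 (by linarith)
    _ = 1053 * √(L : ℝ) * L := by ring
    _ ≤ L * L := by
        refine mul_le_mul_of_nonneg_right ?_ (by linarith)
        nlinarith
    _ = (L : ℝ) ^ 2 := by ring

theorem t_N1 : St_window := by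
  obtain ⟨L₀, hL₀, hnum⟩ := N1_num
  refine ⟨L₀, fun L hL => ?_⟩
  have hL100 : 100 ≤ L := hL₀.trans hL
  have hLpos : 0 < L := by omega
  have hmany := N1_many L hL100
  have hn := hnum L hL
  set x : ℕ := L ^ 40 with hx
  set h : ℕ := L ^ 39 with hh
  have hxh : x = h * L := by rw [hx, hh, ← pow_succ]
  have hhpos : 0 < h := by rw [hh]; positivity
  have hxpos : 0 < x := by rw [hx]; positivity
  -- pigeonhole
  have hmaps : ∀ p ∈ N1_P x, (p - x) / h ∈ range (3 * L + 1) := by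
    intro p hp
    simp only [N1_P, mem_filter, mem_Ioc] at hp
    rw [mem_range, Nat.div_lt_iff_lt_mul hhpos]
    have : (3 * L + 1) * h = 3 * x + h := by rw [hxh]; ring
    omega
  have hcardsum := Finset.card_eq_sum_card_fiberwise (f := fun p => (p - x) / h)
    (s := N1_P x) (t := range (3 * L + 1)) (fun p hp => hmaps p hp)
  have hex : ∃ j ∈ range (3 * L + 1),
      (N1_P x).card ≤ (3 * L + 1) * ((N1_P x).filter (fun p => (p - x) / h = j)).card := by
    by_contra hcon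
    push Not at hcon
    have h1 : ∑ j ∈ range (3 * L + 1), (3 * L + 1) *
        ((N1_P x).filter (fun p => (p - x) / h = j)).card <
        ∑ j ∈ range (3 * L + 1), (N1_P x).card :=
      Finset.sum_lt_sum_of_nonempty ⟨0, by simp⟩ hcon
    rw [← Finset.mul_sum, ← hcardsum, Finset.sum_const, card_range, smul_eq_mul] at h1
    exact lt_irrefl _ h1
  obtain ⟨j, -, hj⟩ := hex
  set A := (N1_P x).filter (fun p => (p - x) / h = j) with hA
  -- the numerical bound
  have hbig : 4 * x ≤ L ^ 2 * A.card := by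
    have hj' : ((N1_P x).card : ℝ) ≤ (3 * (L : ℝ) + 1) * (A.card : ℝ) := by exact_mod_cast hj
    have h3 : 0 ≤ 2 + 40 * Real.log L := by
      have := Real.log_nonneg (show (1 : ℝ) ≤ L by exact_mod_cast hLpos)
      linarith
    have h4 : (4 : ℝ) * x ≤ (L : ℝ) ^ 2 * A.card := by
      calc (4 : ℝ) * x ≤ 4 * (((N1_P x).card : ℝ) * (2 + 40 * Real.log L)) := by linarith
        _ ≤ 4 * (((3 * (L : ℝ) + 1) * (A.card : ℝ)) * (2 + 40 * Real.log L)) := by
            gcongr
        _ = (4 * (3 * (L : ℝ) + 1) * (2 + 40 * Real.log L)) * A.card := by ring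
        _ ≤ (L : ℝ) ^ 2 * A.card := mul_le_mul_of_nonneg_right hn (by positivity)
    exact_mod_cast h4
  have hAne : A.Nonempty := by
    rw [Finset.nonempty_iff_ne_empty]
    intro h0
    rw [h0, card_empty, mul_zero] at hbig
    omega
  have hmem : ∀ p ∈ A, p.Prime ∧ x < p ∧ p ≤ 4 * x ∧ (p - x) / h = j := by
    intro p hp
    rw [hA] at hp
    simp only [N1_P, mem_filter, mem_Ioc] at hp
    exact ⟨hp.1.2, hp.1.1.1, hp.1.1.2, hp.2⟩
  have hM := hmem _ (A.min'_mem hAne)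
  refine ⟨A.min' hAne, A, hM.2.1.le, hM.2.2.1, fun p hp => ⟨(hmem p hp).1, A.min'_le p hp, ?_⟩,
    hM.2.2.1.trans hbig⟩
  obtain ⟨-, hp1, -, hp3⟩ := hmem p hp
  set M := A.min' hAne with hMdef
  have h1 : j * h ≤ M - x := by
    rw [← hM.2.2.2]; exact Nat.div_mul_le_self _ _
  have h2 : p - x < (j + 1) * h := by
    rw [← hp3]
    exact Nat.lt_mul_of_div_lt (Nat.lt_succ_self _) hhpos
  have h3 : p ≤ M + h := by
    have : (j + 1) * h = j * h + h := by ring
    omega
  calc p * L ≤ (M + h) * L := Nat.mul_le_mul_right _ h3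
    _ = M * L + x := by rw [hxh]; ring
    _ ≤ M * L + M := by have := hM.2.1; omega
    _ = M * (L + 1) := by ring

end Pool.Agent.H108R3.Had
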