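import Pool.Agent.H108R3.Had.Defs

namespace Pool.Agent.H108R3.Had

open Finset

private theorem n10_norm_e (x : ℝ) : ‖e x‖ = 1 := by
  unfold e
  have h : (2 * (Real.pi : ℂ) * (x : ℂ) * Complex.I) = ((2 * Real.pi * x : ℝ) : ℂ) * Complex.I := by
    push_cast
    ring
  rw [h, Complex.norm_exp_ofReal_mul_I]

theorem t_N10 (h1 : St_phi1) (h2 : St_phi2) (he : St_exist) (hc : St_coarse) (hf : St_fam)
    (hn : St_nine) (hp : St_Prbound) : St_core := by
  intro A M L g X hW hMA hL hM1 hM2 hg hgL hX1 hX2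
  have hκL : 4 * g ≤ L := by omega
  have hL1 : 1 ≤ L := by omega
  have hM : 1000000 ≤ M := le_trans hL (le_trans (Nat.le_self_pow (by norm_num) L) hM1)
  have hA0 : 0 < A.card := by
    rcases Nat.eq_zero_or_pos A.card with h | h
    · rw [h, mul_zero] at hMA
      omega
    · exact h
  have hT1 : 1000000 ≤ L ^ 20 := le_trans hL (Nat.le_self_pow (by norm_num) L)
  have hMg : 100000 * 1000000 ≤ M ^ g :=
    calc 100000 * 1000000 ≤ 1000000 * 1000000 := by norm_num
      _ ≤ L * L := Nat.mul_le_mul hL hL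
      _ = L ^ 2 := (sq L).symm
      _ ≤ L ^ 40 := Nat.pow_le_pow_right hL1 (by norm_num)
      _ ≤ M := hM1
      _ ≤ M ^ g := Nat.le_self_pow (by omega) M
  have hZZ : 100000 * (1000000 * L ^ 20) * M ^ (3 * g) ≤ L ^ 20 * M ^ (4 * g) := by
    have h3 : M ^ (4 * g) = M ^ g * M ^ (3 * g) := by
      rw [← pow_add]
      congr 1
      ring
    rw [h3]
    calc 100000 * (1000000 * L ^ 20) * M ^ (3 * g) =
        L ^ 20 * ((100000 * 1000000) * M ^ (3 * g)) := by ring
      _ ≤ L ^ 20 * (M ^ g * M ^ (3 * g)) :=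
        Nat.mul_le_mul_left _ (Nat.mul_le_mul_right _ hMg)
  have hcc := hc A M L (4 * g) (L ^ 20) X hW hκL (by omega) (by omega) hX1 hX2
  have hnn := fun (F : ℕ → ℝ) a b c d => hn F M L g a b hL hM1 hM2 hg hgL c d
  have hfam := hf A (4 * g) (1000000 * L ^ 20) (625 * (1000000 * L ^ 20 * M ^ (4 * g)))
  have hpp := fun m => hp A M L (4 * g) m hW hκL
  have hph1 := fun β => h1 A M L (4 * g) (1000000 * L ^ 20) β hW hκL (by omega)
  have hph2 := fun j β => h2 A M L (4 * g) (1000000 * L ^ 20) (L ^ 2) j β hW hκL (by omega)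
    (by omega) hMA
  have hQ1 : 1 ≤ M ^ (4 * g) := Nat.one_le_pow _ _ (by omega)
  have hZ1 : 1 ≤ 100000 * (1000000 * L ^ 20) * M ^ (3 * g) := by
    have h3 : 0 < M ^ (3 * g) := Nat.pow_pos (by omega)
    have h4 : 0 < L ^ 20 := by omega
    exact Nat.mul_pos (Nat.mul_pos (by norm_num) (Nat.mul_pos (by norm_num) h4)) h3
  refine he (ℕ × ℕ) (Ef A (4 * g) (1000000 * L ^ 20)) (yf (1000000 * L ^ 20)) (wf A (4 * g))
    (625 * (1000000 * L ^ 20 * M ^ (4 * g))) (100000 * (1000000 * L ^ 20) * M ^ (3 * g))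
    (L ^ 20 * M ^ (4 * g)) X (1 / 1000000) (fun i _ => Nat.cast_nonneg _) hZ1 hZZ ?_ ?_ hcc ?_
  · rintro ⟨r, m⟩ hi
    unfold Ef at hi
    rw [Finset.mem_product, Finset.mem_range] at hi
    obtain ⟨hr, hm⟩ := hi
    have hm2 := (hpp m hm).2.1
    show 4 * ((1000000 * L ^ 20 + r) * m) + L ^ 20 * M ^ (4 * g) ≤ _
    simp only at hr hm2
    generalize M ^ (4 * g) = Q at *
    generalize L ^ 20 = T at *
    have h3 : (1000000 * T + r) * m ≤ (51 * (1000000 * T)) * (3 * Q) :=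
      Nat.mul_le_mul (by omega) hm2
    nlinarith [Nat.mul_le_mul hT1 hQ1, Nat.zero_le (T * Q)]
  · have h3 : L ^ 20 * M ^ (4 * g) ≤ 1000000 * L ^ 20 * M ^ (4 * g) :=
      Nat.mul_le_mul_right _ (by omega)
    omega
  · obtain ⟨hN, hFh⟩ := hfam
    rw [hN]
    -- real quantities
    have hAr : (0 : ℝ) < (A.card : ℝ) ^ (4 * g) := pow_pos (by exact_mod_cast hA0) _
    have hTr : (0 : ℝ) < ((1000000 * L ^ 20 : ℕ) : ℝ) := by
      have : 0 < 1000000 * L ^ 20 := by omega
      exact_mod_cast this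
    have hQr : (0 : ℝ) < (M : ℝ) ^ (4 * g) := by
      have : 0 < M := by omega
      positivity
    obtain ⟨N, hNdef⟩ : ∃ N : ℝ, N = ((50 * (1000000 * L ^ 20) : ℕ) : ℝ) *
        (A.card : ℝ) ^ (4 * g) := ⟨_, rfl⟩
    have hN50 : N = 50 * ((1000000 * L ^ 20 : ℕ) : ℝ) * (A.card : ℝ) ^ (4 * g) := by
      rw [hNdef]
      push_cast
      ring
    have hNpos : 0 < N := by
      rw [hN50]
      positivity
    rw [← hNdef] at hN ⊢
    have hPr : ((625 * (1000000 * L ^ 20 * M ^ (4 * g)) : ℕ) : ℝ) =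
        625 * (((1000000 * L ^ 20 : ℕ) : ℝ) * (M : ℝ) ^ (4 * g)) := by
      push_cast
      ring
    have key := hnn (fun a => ‖Fh (Ef A (4 * g) (1000000 * L ^ 20)) (yf (1000000 * L ^ 20))
      (wf A (4 * g)) (625 * (1000000 * L ^ 20 * M ^ (4 * g))) a‖ / N) ?_ ?_ ?_ ?_
    · -- conclusion
      have e1 : ∀ a ∈ Icc 1 (625 * (1000000 * L ^ 20 * M ^ (4 * g)) / 2),
          ‖Fh (Ef A (4 * g) (1000000 * L ^ 20)) (yf (1000000 * L ^ 20)) (wf A (4 * g))
            (625 * (1000000 * L ^ 20 * M ^ (4 * g))) a‖ ^ 4 *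
            ker (625 * (1000000 * L ^ 20 * M ^ (4 * g)))
              (100000 * (1000000 * L ^ 20) * M ^ (3 * g)) (L ^ 20 * M ^ (4 * g)) a =
          N ^ 4 * ((‖Fh (Ef A (4 * g) (1000000 * L ^ 20)) (yf (1000000 * L ^ 20)) (wf A (4 * g))
            (625 * (1000000 * L ^ 20 * M ^ (4 * g))) a‖ / N) ^ 4 *
            ker (625 * (1000000 * L ^ 20 * M ^ (4 * g)))
              (100000 * (1000000 * L ^ 20) * M ^ (3 * g)) (L ^ 20 * M ^ (4 * g)) a) := by
        intro a _
        rw [div_pow]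
        field_simp
      rw [Finset.sum_congr rfl e1, ← Finset.mul_sum]
      have e2 := mul_lt_mul_of_pos_left key (pow_pos hNpos 4)
      calc _ = N ^ 4 * (2 * _) := by ring
        _ < N ^ 4 * (1 / 1000000) := e2
        _ = 1 / 1000000 * N ^ 4 := mul_comm _ _
    · intro a
      positivity
    · intro a
      rw [div_le_one hNpos, ← hN]
      unfold Fh
      refine (norm_sum_le _ _).trans (le_of_eq ?_)
      refine Finset.sum_congr rfl fun i _ => ?_
      rw [norm_mul, n10_norm_e, mul_one, Complex.norm_real, Real.norm_eq_abs, abs_of_nonneg]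
      exact Nat.cast_nonneg _
    · intro a ha1 ha2
      rw [hFh, div_le_iff₀ hNpos]
      have har : (0 : ℝ) < a := by exact_mod_cast ha1
      have ha2' : (a : ℝ) ≤ 100 * ((1000000 * L ^ 20 : ℕ) : ℝ) := by exact_mod_cast ha2
      have hβ0 : (0 : ℝ) < (a : ℝ) / ((625 * (1000000 * L ^ 20 * M ^ (4 * g)) : ℕ) : ℝ) := by
        rw [hPr]
        positivity
      have e1 := hph1 _ hβ0 (by
        rw [hPr, div_mul_eq_mul_div, div_le_iff₀ (by positivity)]
        nlinarith [mul_le_mul_of_nonneg_right ha2' hQr.le])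
      refine e1.trans (le_of_eq ?_)
      rw [hPr, hN50]
      field_simp
      ring
    · intro j a hj1 hj2 ha1 ha2
      rw [hFh, div_pow]
      have har : (0 : ℝ) < a := by exact_mod_cast ha1
      have ha2' : (a : ℝ) ≤ 625 * (M : ℝ) ^ j := by exact_mod_cast ha2
      have hβ0 : (0 : ℝ) < (a : ℝ) / ((625 * (1000000 * L ^ 20 * M ^ (4 * g)) : ℕ) : ℝ) := by
        rw [hPr]
        positivity
      have hβT : (a : ℝ) / ((625 * (1000000 * L ^ 20 * M ^ (4 * g)) : ℕ) : ℝ) *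
          (((1000000 * L ^ 20 : ℕ) : ℝ) * (M : ℝ) ^ (4 * g)) = a / 625 := by
        rw [hPr]
        field_simp
      have e1 := hph2 j _ hj1 (by omega) (by omega) hβ0 (by
        rw [hβT]
        linarith)
      rw [hβT, ← hNdef] at e1
      rw [div_le_iff₀ (by positivity)]
      refine e1.trans (le_of_eq ?_)
      push_cast
      field_simp

end Pool.Agent.H108R3.Had
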