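import Pool.Agent.H108R3.Had.Defs

namespace Pool.Agent.H108R3.Had

open Finset Matrix

theorem N2_aux (A : Finset ℕ) (M L : ℕ) (hW : Win A M L) : ∀ (κ m : ℕ), m ∈ Pr A κ →
    M ^ κ ≤ m ∧ m * L ^ κ ≤ M ^ κ * (L + 1) ^ κ := by
  intro κ
  induction κ with
  | zero =>
    intro m hm
    have : m = 1 := by simpa [Pr] using hm
    subst this
    simp
  | succ κ ih =>
    intro m hm
    simp only [Pr, Finset.mem_biUnion, Finset.mem_image] at hm
    obtain ⟨p, hp, m', hm', rfl⟩ := hm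
    obtain ⟨h1, h2⟩ := ih m' hm'
    obtain ⟨-, h3, h4⟩ := hW p hp
    constructor
    · calc M ^ (κ + 1) = M * M ^ κ := by ring
        _ ≤ p * m' := Nat.mul_le_mul h3 h1
    · calc p * m' * L ^ (κ + 1) = (p * L) * (m' * L ^ κ) := by ring
        _ ≤ (M * (L + 1)) * (M ^ κ * (L + 1) ^ κ) := Nat.mul_le_mul h4 h2
        _ = M ^ (κ + 1) * (L + 1) ^ (κ + 1) := by ring

theorem t_N2 : St_Prbound := by
  intro A M L κ m hW hκ hm
  obtain ⟨h1, h2⟩ := N2_aux A M L hW κ m hm
  have key : (m : ℝ) ≤ (M : ℝ) ^ κ * (1 + 2 * κ / L) := by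
    rcases Nat.eq_zero_or_pos L with h0 | hL
    · have hk : κ = 0 := by omega
      subst hk
      have : m = 1 := by simpa [Pr] using hm
      subst this
      simp
    · have hL' : (0 : ℝ) < L := by exact_mod_cast hL
      have hk : (κ : ℝ) ≤ L := by exact_mod_cast hκ
      have h3 : (m : ℝ) * (L : ℝ) ^ κ ≤ (M : ℝ) ^ κ * ((L : ℝ) + 1) ^ κ := by exact_mod_cast h2
      have h4 : (m : ℝ) ≤ (M : ℝ) ^ κ * (1 + 1 / (L : ℝ)) ^ κ := by
        have h5 : (1 + 1 / (L : ℝ)) ^ κ = ((L : ℝ) + 1) ^ κ / (L : ℝ) ^ κ := by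
          rw [← div_pow]
          congr 1
          field_simp
        rw [h5, ← mul_div_assoc, le_div_iff₀ (pow_pos hL' κ)]
        exact h3
      have h6 : (1 + 1 / (L : ℝ)) ^ κ ≤ 1 + 2 * κ / L := by
        have h7 : (1 + 1 / (L : ℝ)) ≤ Real.exp (1 / (L : ℝ)) := by
          have := Real.add_one_le_exp (1 / (L : ℝ))
          linarith
        have h8 : (1 + 1 / (L : ℝ)) ^ κ ≤ Real.exp ((κ : ℝ) / L) := by
          calc (1 + 1 / (L : ℝ)) ^ κ ≤ (Real.exp (1 / (L : ℝ))) ^ κ :=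
                pow_le_pow_left₀ (by positivity) h7 κ
            _ = Real.exp ((κ : ℝ) / L) := by
                rw [← Real.exp_nat_mul]
                congr 1
                ring
        have hx0 : (0 : ℝ) ≤ (κ : ℝ) / L := by positivity
        have hx1 : (κ : ℝ) / L ≤ 1 := (div_le_one hL').2 hk
        have h9 := Real.abs_exp_sub_one_sub_id_le (x := (κ : ℝ) / L) (by rw [abs_of_nonneg hx0]; exact hx1)
        have h10 := (abs_le.1 h9).2
        have h11 : ((κ : ℝ) / L) ^ 2 ≤ (κ : ℝ) / L := by nlinarith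
        have h12 : 2 * (κ : ℝ) / L = 2 * ((κ : ℝ) / L) := by ring
        rw [h12]
        linarith
      exact h4.trans (mul_le_mul_of_nonneg_left h6 (by positivity))
  refine ⟨h1, ?_, key⟩
  have h13 : (m : ℝ) ≤ 3 * (M : ℝ) ^ κ := by
    have h14 : 1 + 2 * (κ : ℝ) / L ≤ 3 := by
      have : 2 * (κ : ℝ) / L ≤ 2 := by
        rcases Nat.eq_zero_or_pos L with h0 | hL
        · rw [h0]; simp
        · have hL' : (0 : ℝ) < L := by exact_mod_cast hL
          rw [div_le_iff₀ hL']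
          have hk : (κ : ℝ) ≤ L := by exact_mod_cast hκ
          linarith
      linarith
    calc (m : ℝ) ≤ (M : ℝ) ^ κ * (1 + 2 * κ / L) := key
      _ ≤ (M : ℝ) ^ κ * 3 := mul_le_mul_of_nonneg_left h14 (by positivity)
      _ = 3 * (M : ℝ) ^ κ := by ring
  exact_mod_cast h13

end Pool.Agent.H108R3.Had
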