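import Pool.Agent.H108R3.Had.Defs

namespace Pool.Agent.H108R3.Had

open Finset

private theorem n3_zero (A : Finset ℕ) (κ : ℕ) : SA A κ (fun _ => (0 : ℕ)) = 0 := by
  induction κ with
  | zero => rfl
  | succ κ ih => simp only [SA, ih, Finset.sum_const_zero]

theorem t_N3 : St_mult := by
  intro A hA j
  induction j with
  | zero =>
    intro m
    show (if 1 = m then 1 else 0) ≤ 1
    split_ifs <;> simp
  | succ j ih =>
    intro m
    by_cases hm : m ∈ Pr A (j + 1)
    · obtain ⟨l, hl1, hl2, hl3⟩ := (mem_Pr A (j + 1)).1 hm
      have h1 : ∀ p ∈ A, SA A j (fun x => if p * x = m then 1 else 0) ≤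
          if p ∣ m then j.factorial else 0 := by
        intro p hp
        split_ifs with hpm
        · obtain ⟨c, rfl⟩ := hpm
          have h2 : (fun x => if p * x = p * c then 1 else 0) =
              fun x => if x = c then 1 else 0 := by
            funext x
            have h3 : p * x = p * c ↔ x = c := by
              constructor
              · intro h
                exact Nat.eq_of_mul_eq_mul_left (hA p hp).pos h
              · intro h
                rw [h]
            simp only [h3]
          rw [h2]
          exact ih c
        · have h2 : (fun x => if p * x = m then 1 else 0) = fun _ => 0 := by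
            funext x
            rw [if_neg]
            intro h
            exact hpm ⟨x, h.symm⟩
          rw [h2, n3_zero]
      have h4 : (A.filter (fun p => p ∣ m)).card ≤ j + 1 := by
        rw [← hl1]
        refine le_trans (Finset.card_le_card ?_) (List.toFinset_card_le l)
        intro p hp
        rw [Finset.mem_filter] at hp
        rw [List.mem_toFinset]
        rw [← hl3, Prime.dvd_prod_iff (Nat.prime_iff.1 (hA p hp.1))] at hp
        obtain ⟨q, hq, hpq⟩ := hp.2
        rw [(Nat.prime_dvd_prime_iff_eq (hA p hp.1) (hA q (hl2 q hq))).1 hpq]
        exact hq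
      calc wt A (j + 1) m = ∑ p ∈ A, SA A j (fun x => if p * x = m then 1 else 0) := rfl
        _ ≤ ∑ p ∈ A, if p ∣ m then j.factorial else 0 := Finset.sum_le_sum h1
        _ = (A.filter (fun p => p ∣ m)).card * j.factorial := by
          rw [← Finset.sum_filter, Finset.sum_const, smul_eq_mul]
        _ ≤ (j + 1) * j.factorial := Nat.mul_le_mul_right _ h4
        _ = (j + 1).factorial := (Nat.factorial_succ j).symm
    · have h1 : wt A (j + 1) m = 0 := by
        unfold wt
        rw [SA_congr A (j + 1) (h := fun _ => 0), n3_zero]
        intro x hx
        rw [if_neg]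
        rintro rfl
        exact hm hx
      rw [h1]
      exact Nat.zero_le _

end Pool.Agent.H108R3.Had
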