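import Pool.Agent.H108R3.Had.Defs

namespace Pool.Agent.H108R3.Had

open Finset

private theorem n4_e_add (x y : ℝ) : e (x + y) = e x * e y := by
  unfold e
  rw [← Complex.exp_add]
  congr 1
  push_cast
  ring

private theorem n4_norm_e (x : ℝ) : ‖e x‖ = 1 := by
  unfold e
  have h : (2 * (Real.pi : ℂ) * (x : ℂ) * Complex.I) = ((2 * Real.pi * x : ℝ) : ℂ) * Complex.I := by
    push_cast
    ring
  rw [h, Complex.norm_exp_ofReal_mul_I]

private theorem n4_conj_e (x : ℝ) : (starRingEnd ℂ) (e x) = e (-x) := by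
  unfold e
  rw [← Complex.exp_conj]
  congr 1
  rw [map_mul, map_mul, map_mul, Complex.conj_I, Complex.conj_ofReal, Complex.conj_ofReal,
    Complex.conj_ofNat]
  push_cast
  ring

/-- the bound for the inner geometric sums -/
private theorem n4_geom (hg : St_geom) (a l : ℕ) (γ : ℝ) (hγ : 0 < γ) (hγl : γ * l ≤ 1 / 2)
    (d : ℕ) (hd : 1 ≤ d) (hdl : d ≤ l) :
    ‖∑ r ∈ range (l + 1), e (γ * ((a + r : ℕ) : ℝ) * d)‖ ≤ 1 / (2 * γ * d) := by
  have hd0 : (0 : ℝ) < d := by exact_mod_cast hd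
  have h1 := hg (l + 1) (γ * d) (mul_pos hγ hd0) (by
    refine le_trans (mul_le_mul_of_nonneg_left ?_ hγ.le) hγl
    exact_mod_cast hdl)
  have h2 : ∑ r ∈ range (l + 1), e (γ * ((a + r : ℕ) : ℝ) * d) =
      e (γ * a * d) * ∑ r ∈ range (l + 1), e (γ * d * r) := by
    rw [Finset.mul_sum]
    refine Finset.sum_congr rfl fun r _ => ?_
    rw [← n4_e_add]
    congr 1
    push_cast
    ring
  rw [h2, norm_mul, n4_norm_e, one_mul]
  refine h1.trans (le_of_eq ?_)
  ring

private noncomputable def n4G (l : ℕ) (γ : ℝ) (x y : ℕ) : ℝ :=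
  if x = y then (l : ℝ) + 1 else 1 / (2 * γ * |(x : ℝ) - y|)

private theorem n4_geom2 (hg : St_geom) (a l : ℕ) (γ : ℝ) (hγ : 0 < γ) (hγl : γ * l ≤ 1 / 2)
    (x y : ℕ) (hx : a ≤ x ∧ x ≤ a + l) (hy : a ≤ y ∧ y ≤ a + l) :
    ‖∑ r ∈ range (l + 1), e (γ * ((a + r : ℕ) : ℝ) * ((x : ℝ) - y))‖ ≤ n4G l γ x y := by
  unfold n4G
  split_ifs with h
  · refine (norm_sum_le _ _).trans ?_
    simp only [n4_norm_e, Finset.sum_const, Finset.card_range, nsmul_eq_mul, mul_one]
    push_cast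
    exact le_rfl
  · rcases lt_or_gt_of_ne h with h1 | h1
    · -- x < y
      obtain ⟨d, rfl⟩ := Nat.exists_eq_add_of_lt h1
      have h2 := n4_geom hg a l γ hγ hγl (d + 1) (by omega) (by omega)
      have h3 : ∑ r ∈ range (l + 1), e (γ * ((a + r : ℕ) : ℝ) * ((x : ℝ) - ((x + d + 1 : ℕ) : ℝ))) =
          (starRingEnd ℂ) (∑ r ∈ range (l + 1), e (γ * ((a + r : ℕ) : ℝ) * ((d + 1 : ℕ) : ℝ))) := by
        rw [map_sum]
        refine Finset.sum_congr rfl fun r _ => ?_
        rw [n4_conj_e]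
        congr 1
        push_cast
        ring
      rw [h3, RCLike.norm_conj]
      refine h2.trans (le_of_eq ?_)
      have h4 : |(x : ℝ) - ((x + d + 1 : ℕ) : ℝ)| = ((d + 1 : ℕ) : ℝ) := by
        have : (x : ℝ) - ((x + d + 1 : ℕ) : ℝ) = -((d + 1 : ℕ) : ℝ) := by
          push_cast
          ring
        rw [this, abs_neg, Nat.abs_cast]
      rw [h4]
    · obtain ⟨d, rfl⟩ := Nat.exists_eq_add_of_lt h1
      have h2 := n4_geom hg a l γ hγ hγl (d + 1) (by omega) (by omega)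
      have h3 : (((y + d + 1 : ℕ) : ℝ) - y) = ((d + 1 : ℕ) : ℝ) := by
        push_cast
        ring
      rw [h3, Nat.abs_cast]
      exact h2

/-- sum of the kernel over a set of naturals in a short interval -/
private theorem n4_sum (l : ℕ) (γ : ℝ) (hγ : 0 < γ) (a : ℕ) (P : Finset ℕ)
    (hP : ∀ m ∈ P, a ≤ m ∧ m ≤ a + l) (x : ℕ) (hx : a ≤ x ∧ x ≤ a + l) :
    ∑ y ∈ P, n4G l γ x y ≤ (l : ℝ) + 1 + (1 + Real.log (l + 1)) / γ := by
  have hH : ∑ d ∈ Icc 1 l, (1 / (2 * γ * (d : ℝ))) ≤ (1 + Real.log (l + 1)) / (2 * γ) := by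
    have h1 : ∑ d ∈ Icc 1 l, (1 / (2 * γ * (d : ℝ))) = (∑ d ∈ Icc 1 l, ((d : ℝ))⁻¹) / (2 * γ) := by
      rw [Finset.sum_div]
      refine Finset.sum_congr rfl fun d _ => ?_
      rw [one_div, mul_inv, mul_comm, div_eq_mul_inv]
    have h2 : ∑ d ∈ Icc 1 l, ((d : ℝ))⁻¹ ≤ 1 + Real.log l := by
      have h3 := harmonic_le_one_add_log l
      rw [harmonic_eq_sum_Icc] at h3
      push_cast at h3
      exact h3
    have h4 : Real.log l ≤ Real.log (l + 1) := by
      rcases Nat.eq_zero_or_pos l with h0 | h0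
      · rw [h0]
        simp
      · exact Real.log_le_log (by exact_mod_cast h0) (by linarith)
    rw [h1]
    have h5 : (0 : ℝ) < 2 * γ := by linarith
    rw [div_le_div_iff_of_pos_right h5]
    linarith
  -- split
  have hsplit : ∑ y ∈ P, n4G l γ x y = ∑ y ∈ P.filter (fun y => y < x), n4G l γ x y +
      (∑ y ∈ P.filter (fun y => x < y), n4G l γ x y + ∑ y ∈ P.filter (fun y => y = x),
        n4G l γ x y) := by
    rw [← Finset.sum_filter_add_sum_filter_not P (fun y => y < x)]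
    congr 1
    rw [← Finset.sum_filter_add_sum_filter_not (P.filter (fun y => ¬ y < x)) (fun y => x < y),
      Finset.filter_filter, Finset.filter_filter]
    congr 1
    · refine Finset.sum_congr ?_ fun _ _ => rfl
      ext y
      simp only [Finset.mem_filter]
      constructor
      · rintro ⟨h1, h2, h3⟩
        exact ⟨h1, h3⟩
      · rintro ⟨h1, h2⟩
        exact ⟨h1, by omega, h2⟩
    · refine Finset.sum_congr ?_ fun _ _ => rfl
      ext y
      simp only [Finset.mem_filter]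
      constructor
      · rintro ⟨h1, h2, h3⟩
        exact ⟨h1, by omega⟩
      · rintro ⟨h1, h2⟩
        exact ⟨h1, by omega, by omega⟩
  have hA : ∑ y ∈ P.filter (fun y => y < x), n4G l γ x y ≤
      ∑ d ∈ Icc 1 l, (1 / (2 * γ * (d : ℝ))) := by
    have h1 : ∑ y ∈ P.filter (fun y => y < x), n4G l γ x y =
        ∑ d ∈ (P.filter (fun y => y < x)).image (fun y => x - y), (1 / (2 * γ * (d : ℝ))) := by
      rw [Finset.sum_image]
      · refine Finset.sum_congr rfl fun y hy => ?_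
        rw [Finset.mem_filter] at hy
        unfold n4G
        rw [if_neg (by omega), Nat.cast_sub hy.2.le, abs_of_nonneg]
        have : (y : ℝ) ≤ x := by exact_mod_cast hy.2.le
        linarith
      · intro y hy z hz hyz
        rw [Finset.mem_coe, Finset.mem_filter] at hy hz
        simp only at hyz
        omega
    rw [h1]
    apply Finset.sum_le_sum_of_subset_of_nonneg
    · intro d hd
      obtain ⟨y, hy, rfl⟩ := Finset.mem_image.1 hd
      rw [Finset.mem_filter] at hy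
      have := hP y hy.1
      rw [Finset.mem_Icc]
      omega
    · intro d _ _
      positivity
  have hB : ∑ y ∈ P.filter (fun y => x < y), n4G l γ x y ≤
      ∑ d ∈ Icc 1 l, (1 / (2 * γ * (d : ℝ))) := by
    have h1 : ∑ y ∈ P.filter (fun y => x < y), n4G l γ x y =
        ∑ d ∈ (P.filter (fun y => x < y)).image (fun y => y - x), (1 / (2 * γ * (d : ℝ))) := by
      rw [Finset.sum_image]
      · refine Finset.sum_congr rfl fun y hy => ?_
        rw [Finset.mem_filter] at hy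
        unfold n4G
        rw [if_neg (by omega), Nat.cast_sub hy.2.le, abs_sub_comm, abs_of_nonneg]
        have : (x : ℝ) ≤ y := by exact_mod_cast hy.2.le
        linarith
      · intro y hy z hz hyz
        rw [Finset.mem_coe, Finset.mem_filter] at hy hz
        simp only at hyz
        omega
    rw [h1]
    apply Finset.sum_le_sum_of_subset_of_nonneg
    · intro d hd
      obtain ⟨y, hy, rfl⟩ := Finset.mem_image.1 hd
      rw [Finset.mem_filter] at hy
      have := hP y hy.1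
      rw [Finset.mem_Icc]
      omega
    · intro d _ _
      positivity
  have hC : ∑ y ∈ P.filter (fun y => y = x), n4G l γ x y ≤ (l : ℝ) + 1 := by
    have h1 : P.filter (fun y => y = x) ⊆ {x} := by
      intro y hy
      rw [Finset.mem_filter] at hy
      rw [Finset.mem_singleton]
      exact hy.2
    have h2 : ∑ y ∈ P.filter (fun y => y = x), n4G l γ x y ≤ ∑ y ∈ {x}, n4G l γ x y := by
      apply Finset.sum_le_sum_of_subset_of_nonneg h1
      intro d _ _
      unfold n4G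
      split_ifs
      · positivity
      · positivity
    refine h2.trans ?_
    rw [Finset.sum_singleton]
    unfold n4G
    rw [if_pos rfl]
  rw [hsplit]
  have hfin : (1 + Real.log (l + 1)) / γ = (1 + Real.log (l + 1)) / (2 * γ) +
      (1 + Real.log (l + 1)) / (2 * γ) := by
    field_simp
    ring
  rw [hfin]
  linarith

theorem t_N4 (h : St_geom) : St_bilin := by
  intro A j a l γ hwt hPr hγ hγl
  obtain ⟨P, hP⟩ : ∃ P, P = Pr A j := ⟨_, rfl⟩
  obtain ⟨w, hw⟩ : ∃ w : ℕ → ℝ, w = fun m => (wt A j m : ℝ) := ⟨_, rfl⟩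
  have hw0 : ∀ m, 0 ≤ w m := fun m => by rw [hw]; exact Nat.cast_nonneg _
  have hwj : ∀ m, w m ≤ (j.factorial : ℝ) := fun m => by
    rw [hw]
    show (wt A j m : ℝ) ≤ (j.factorial : ℝ)
    exact_mod_cast hwt m
  have hwsum : ∑ m ∈ P, w m = (A.card : ℝ) ^ j := by
    rw [hw, hP]
    have := sum_wt A j
    show ∑ m ∈ Pr A j, (wt A j m : ℝ) = (A.card : ℝ) ^ j
    exact_mod_cast this
  rw [← hP] at hPr
  obtain ⟨f, hf⟩ : ∃ f : ℕ → ℂ, f = fun m : ℕ => ∑ m' ∈ P, (w m' : ℂ) * e (γ * ((m : ℝ) * (m' : ℝ))) :=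
    ⟨_, rfl⟩
  have hS : SA A j (fun m => SA A j (fun m' => e (γ * ((m : ℝ) * (m' : ℝ))))) =
      ∑ m ∈ P, (w m : ℂ) * f m := by
    rw [SA_eq_sum, ← hP]
    refine Finset.sum_congr rfl fun m _ => ?_
    rw [SA_eq_sum, ← hP, hw, hf, nsmul_eq_mul]
    simp only [nsmul_eq_mul, Complex.ofReal_natCast]
    rw [hw]
    simp only [Complex.ofReal_natCast]
  rw [hS]
  obtain ⟨K, hK⟩ : ∃ K : ℝ, K = (l : ℝ) + 1 + (1 + Real.log (l + 1)) / γ := ⟨_, rfl⟩
  rw [← hK]
  -- second moment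
  have h2 : ∑ r ∈ range (l + 1), ‖f (a + r)‖ ^ 2 ≤ (A.card : ℝ) ^ j * ((j.factorial : ℝ) * K) := by
    have e1 : ((∑ r ∈ range (l + 1), ‖f (a + r)‖ ^ 2 : ℝ) : ℂ) =
        ∑ x ∈ P, ∑ y ∈ P, ((w x * w y : ℝ) : ℂ) *
          ∑ r ∈ range (l + 1), e (γ * ((a + r : ℕ) : ℝ) * ((x : ℝ) - y)) := by
      push_cast
      have e2 : ∀ r ∈ range (l + 1), ((‖f (a + r)‖ : ℂ)) ^ 2 = ∑ x ∈ P, ∑ y ∈ P,
          ((w x : ℂ) * (w y : ℂ)) * e (γ * ((a + r : ℕ) : ℝ) * ((x : ℝ) - y)) := by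
        intro r _
        rw [← Complex.mul_conj', hf]
        simp only
        rw [map_sum, Finset.sum_mul_sum]
        refine Finset.sum_congr rfl fun x _ => Finset.sum_congr rfl fun y _ => ?_
        rw [map_mul, n4_conj_e, Complex.conj_ofReal]
        have e3 : e (γ * ((a + r : ℕ) : ℝ) * ((x : ℝ) - y)) =
            e (γ * (((a + r : ℕ) : ℝ) * (x : ℝ))) * e (-(γ * (((a + r : ℕ) : ℝ) * (y : ℝ)))) := by
          rw [← n4_e_add]
          congr 1
          ring
        rw [e3]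
        ring
      rw [Finset.sum_congr rfl e2, Finset.sum_comm]
      refine Finset.sum_congr rfl fun x _ => ?_
      rw [Finset.sum_comm]
      refine Finset.sum_congr rfl fun y _ => ?_
      rw [Finset.mul_sum]
      refine Finset.sum_congr rfl fun r _ => ?_
      push_cast
      ring
    have e4 : ∑ r ∈ range (l + 1), ‖f (a + r)‖ ^ 2 =
        ‖((∑ r ∈ range (l + 1), ‖f (a + r)‖ ^ 2 : ℝ) : ℂ)‖ := by
      rw [Complex.norm_real, Real.norm_eq_abs, abs_of_nonneg]
      exact Finset.sum_nonneg fun r _ => by positivity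
    rw [e4, e1]
    refine (norm_sum_le _ _).trans ?_
    rw [← hwsum, Finset.sum_mul]
    refine Finset.sum_le_sum fun x hx => ?_
    refine (norm_sum_le _ _).trans ?_
    have e5 : ∀ y ∈ P, ‖((w x * w y : ℝ) : ℂ) *
        ∑ r ∈ range (l + 1), e (γ * ((a + r : ℕ) : ℝ) * ((x : ℝ) - y))‖ ≤
        w x * ((j.factorial : ℝ) * n4G l γ x y) := by
      intro y hy
      have e6 := n4_geom2 h a l γ hγ hγl x y (hPr x hx) (hPr y hy)
      rw [norm_mul, Complex.norm_real, Real.norm_eq_abs, abs_of_nonneg (mul_nonneg (hw0 x) (hw0 y)),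
        mul_assoc]
      refine mul_le_mul_of_nonneg_left ?_ (hw0 x)
      exact mul_le_mul (hwj y) e6 (norm_nonneg _) (by positivity)
    refine (Finset.sum_le_sum e5).trans ?_
    rw [← Finset.mul_sum, ← Finset.mul_sum]
    refine mul_le_mul_of_nonneg_left ?_ (hw0 x)
    refine mul_le_mul_of_nonneg_left ?_ (by positivity)
    rw [hK]
    exact n4_sum l γ hγ a P hPr x (hPr x hx)
  have h3 : ∑ m ∈ P, ‖f m‖ ^ 2 ≤ ∑ r ∈ range (l + 1), ‖f (a + r)‖ ^ 2 := by
    have e1 : ∑ r ∈ range (l + 1), ‖f (a + r)‖ ^ 2 =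
        ∑ m ∈ (range (l + 1)).image (fun r => a + r), ‖f m‖ ^ 2 := by
      rw [Finset.sum_image]
      intro x _ y _ hxy
      simp only at hxy
      omega
    rw [e1]
    apply Finset.sum_le_sum_of_subset_of_nonneg
    · intro m hm
      have := hPr m hm
      rw [Finset.mem_image]
      exact ⟨m - a, Finset.mem_range.2 (by omega), by omega⟩
    · intro m _ _
      positivity
  have h4 : ∑ m ∈ P, w m ^ 2 ≤ (j.factorial : ℝ) * (A.card : ℝ) ^ j := by
    rw [← hwsum, Finset.mul_sum]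
    refine Finset.sum_le_sum fun m _ => ?_
    rw [sq]
    exact mul_le_mul_of_nonneg_right (hwj m) (hw0 m)
  have h5 : ‖∑ m ∈ P, (w m : ℂ) * f m‖ ≤ ∑ m ∈ P, w m * ‖f m‖ := by
    refine (norm_sum_le _ _).trans (le_of_eq ?_)
    refine Finset.sum_congr rfl fun m _ => ?_
    rw [norm_mul, Complex.norm_real, Real.norm_eq_abs, abs_of_nonneg (hw0 m)]
  have h6 : (∑ m ∈ P, w m * ‖f m‖) ^ 2 ≤ (∑ m ∈ P, w m ^ 2) * ∑ m ∈ P, ‖f m‖ ^ 2 :=
    Finset.sum_mul_sq_le_sq_mul_sq _ _ _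
  have h7 : ‖∑ m ∈ P, (w m : ℂ) * f m‖ ^ 2 ≤ (∑ m ∈ P, w m * ‖f m‖) ^ 2 :=
    pow_le_pow_left₀ (norm_nonneg _) h5 2
  have h8 : (∑ m ∈ P, w m ^ 2) * ∑ m ∈ P, ‖f m‖ ^ 2 ≤
      ((j.factorial : ℝ) * (A.card : ℝ) ^ j) * ((A.card : ℝ) ^ j * ((j.factorial : ℝ) * K)) :=
    mul_le_mul h4 (h3.trans h2) (Finset.sum_nonneg fun m _ => by positivity) (by positivity)
  refine (h7.trans (h6.trans h8)).trans (le_of_eq ?_)
  rw [two_mul j, pow_add]
  ring

end Pool.Agent.H108R3.Had
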