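import Pool.Agent.H108R3.Had.Defs

namespace Pool.Agent.H108R3.Had

open Finset Matrix

theorem N5_e_add (x y : ℝ) : e (x + y) = e x * e y := by
  unfold e
  rw [← Complex.exp_add]
  congr 1
  push_cast
  ring

theorem N5_norm_e (x : ℝ) : ‖e x‖ = 1 := by
  unfold e
  have : (2 * (Real.pi : ℂ) * (x : ℂ) * Complex.I) = ((2 * Real.pi * x : ℝ) : ℂ) * Complex.I := by
    push_cast; ring
  rw [this, Complex.norm_exp_ofReal_mul_I]

/-- N5: bound for small frequencies -/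
theorem t_N5 (h0 : St_geom) (h2 : St_Prbound) : St_phi1 := by
  intro A M L κ T₀ β hW hκ hM hβ hβM
  have hMpos : (0 : ℝ) < (M : ℝ) ^ κ := by
    have : (0 : ℝ) < (M : ℝ) := by exact_mod_cast hM
    positivity
  have key : Phi A κ T₀ β = SA A κ (fun m => ∑ r ∈ range (50 * T₀),
      e (β * (((T₀ + r : ℕ) : ℝ) * (m : ℝ)))) := by
    unfold Phi
    rw [SA_sum]
  rw [key]
  have hb : ∀ m ∈ Pr A κ, ‖∑ r ∈ range (50 * T₀), e (β * (((T₀ + r : ℕ) : ℝ) * (m : ℝ)))‖ ≤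
      1 / (2 * β * (M : ℝ) ^ κ) := by
    intro m hm
    obtain ⟨hm1, hm2, _⟩ := h2 A M L κ m hW hκ hm
    have hm1' : (M : ℝ) ^ κ ≤ (m : ℝ) := by exact_mod_cast hm1
    have hm2' : (m : ℝ) ≤ 3 * (M : ℝ) ^ κ := by exact_mod_cast hm2
    have hmpos : (0 : ℝ) < m := lt_of_lt_of_le hMpos hm1'
    have h1 : ∑ r ∈ range (50 * T₀), e (β * (((T₀ + r : ℕ) : ℝ) * (m : ℝ))) =
        e (β * m * T₀) * ∑ r ∈ range (50 * T₀), e (β * m * r) := by
      rw [Finset.mul_sum]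
      refine Finset.sum_congr rfl fun r _ => ?_
      rw [← N5_e_add]
      congr 1
      push_cast
      ring
    rw [h1, norm_mul, N5_norm_e, one_mul]
    have h3 : 0 < β * m := mul_pos hβ hmpos
    have h4 : β * m ≤ 1 / 2 := (mul_le_mul_of_nonneg_left hm2' hβ.le).trans hβM
    refine (h0 (50 * T₀) (β * m) h3 h4).trans ?_
    apply one_div_le_one_div_of_le
    · positivity
    · nlinarith
  refine (norm_SA_le A κ _ _ hb).trans (le_of_eq ?_)
  rw [mul_one_div]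

end Pool.Agent.H108R3.Had
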