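import Pool.Agent.H108R3.Had.Defs

/-! Task N6: bound for larger frequencies. -/

namespace Pool.Agent.H108R3.Had

open Finset

private theorem N6_split (A : Finset ℕ) (κ j : ℕ) (h : 2 * j ≤ κ) (g : ℕ → ℂ) :
    SA A κ g = SA A (κ - 2 * j) (fun m'' => SA A j (fun m => SA A j (fun m' =>
      g (m'' * (m * m'))))) := by
  conv_lhs => rw [show κ = (κ - 2 * j) + (j + j) by omega]
  rw [SA_add]
  congr 1
  funext m''
  rw [SA_add]

private theorem N6_inner (h2 : St_Prbound) (h3 : St_mult) (h4 : St_bilin)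
    (A : Finset ℕ) (M L κ T₀ ρ j : ℕ) (β : ℝ) (hW : Win A M L) (hκ : κ ≤ L) (hM : 4 ≤ M)
    (hT : 1 ≤ T₀) (hρ : M ≤ ρ * A.card) (hj : 1 ≤ j) (hjκ : 2 * j ≤ κ) (hjL : 612 * j ≤ L)
    (hβ : 0 < β) (hB : β * ((T₀ : ℝ) * (M : ℝ) ^ κ) ≤ (M : ℝ) ^ j) (r : ℕ) (hr : r < 50 * T₀)
    (m'' : ℕ) (hm : m'' ∈ Pr A (κ - 2 * j)) :
    ‖SA A j (fun m => SA A j (fun m' => e (β * (((T₀ + r : ℕ) : ℝ) * ((m'' * (m * m') : ℕ) : ℝ)))))‖
      ≤ (A.card : ℝ) ^ (2 * j) * Real.sqrt ((((j.factorial : ℝ) * (ρ : ℝ) ^ j) ^ 2 *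
        (2 + j * Real.log M)) / (β * ((T₀ : ℝ) * (M : ℝ) ^ κ))) := by
  have hM1 : (4 : ℝ) ≤ M := by exact_mod_cast hM
  have hM0 : (0 : ℝ) < M := by linarith
  have hT1 : (1 : ℝ) ≤ T₀ := by exact_mod_cast hT
  have hj1 : (1 : ℝ) ≤ j := by exact_mod_cast hj
  have hL : (612 : ℝ) * j ≤ L := by exact_mod_cast hjL
  have hL0 : (0 : ℝ) < L := by linarith
  obtain ⟨hm1, hm2, -⟩ := h2 A M L (κ - 2 * j) m'' hW (by omega) hm
  have hm1' : (M : ℝ) ^ (κ - 2 * j) ≤ m'' := by exact_mod_cast hm1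
  have hm2' : (m'' : ℝ) ≤ 3 * (M : ℝ) ^ (κ - 2 * j) := by exact_mod_cast hm2
  have hpow : (M : ℝ) ^ κ = (M : ℝ) ^ (κ - 2 * j) * (M : ℝ) ^ (2 * j) := by
    rw [← pow_add]; congr 1; omega
  have hpk0 : (0 : ℝ) < (M : ℝ) ^ (κ - 2 * j) := pow_pos hM0 _
  have hpj0 : (0 : ℝ) < (M : ℝ) ^ j := pow_pos hM0 _
  have hp2j0 : (0 : ℝ) < (M : ℝ) ^ (2 * j) := pow_pos hM0 _
  have hp2j : (M : ℝ) ^ (2 * j) = (M : ℝ) ^ j * (M : ℝ) ^ j := by rw [← pow_add]; congr 1; omega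
  have hm0 : (0 : ℝ) < m'' := lt_of_lt_of_le hpk0 hm1'
  set B : ℝ := β * ((T₀ : ℝ) * (M : ℝ) ^ κ) with hBdef
  have hB0 : 0 < B := by rw [hBdef]; positivity
  set γ : ℝ := β * (((T₀ + r : ℕ) : ℝ) * (m'' : ℝ)) with hγ
  have hTr0 : (T₀ : ℝ) ≤ ((T₀ + r : ℕ) : ℝ) := by exact_mod_cast Nat.le_add_right _ _
  have hTr1 : ((T₀ + r : ℕ) : ℝ) ≤ 51 * T₀ := by
    have : T₀ + r ≤ 51 * T₀ := by omega
    exact_mod_cast this
  have hTrpos : (0 : ℝ) < ((T₀ + r : ℕ) : ℝ) := lt_of_lt_of_le (by linarith) hTr0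
  have hγ0 : 0 < γ := by rw [hγ]; positivity
  -- lower bound for gamma
  have hγlow : B / (M : ℝ) ^ (2 * j) ≤ γ := by
    rw [div_le_iff₀ hp2j0, hBdef, hpow, hγ]
    have : (T₀ : ℝ) * (M : ℝ) ^ (κ - 2 * j) ≤ ((T₀ + r : ℕ) : ℝ) * (m'' : ℝ) :=
      mul_le_mul hTr0 hm1' (le_of_lt hpk0) (le_of_lt hTrpos)
    calc β * ((T₀ : ℝ) * ((M : ℝ) ^ (κ - 2 * j) * (M : ℝ) ^ (2 * j)))
        = β * ((T₀ : ℝ) * (M : ℝ) ^ (κ - 2 * j)) * (M : ℝ) ^ (2 * j) := by ring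
      _ ≤ β * (((T₀ + r : ℕ) : ℝ) * (m'' : ℝ)) * (M : ℝ) ^ (2 * j) := by
          apply mul_le_mul_of_nonneg_right _ (le_of_lt hp2j0)
          exact mul_le_mul_of_nonneg_left this (le_of_lt hβ)
  have hγup : γ * (M : ℝ) ^ (2 * j) ≤ 153 * B := by
    rw [hBdef, hpow, hγ]
    have : ((T₀ + r : ℕ) : ℝ) * (m'' : ℝ) ≤ (51 * T₀) * (3 * (M : ℝ) ^ (κ - 2 * j)) :=
      mul_le_mul hTr1 hm2' (le_of_lt hm0) (by positivity)
    calc β * (((T₀ + r : ℕ) : ℝ) * (m'' : ℝ)) * (M : ℝ) ^ (2 * j)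
        ≤ β * ((51 * T₀) * (3 * (M : ℝ) ^ (κ - 2 * j))) * (M : ℝ) ^ (2 * j) := by
          apply mul_le_mul_of_nonneg_right _ (le_of_lt hp2j0)
          exact mul_le_mul_of_nonneg_left this (le_of_lt hβ)
      _ = _ := by ring
  -- the window for the products of j elements
  set l : ℕ := 2 * j * M ^ j / L with hl
  have hlr : (l : ℝ) * L ≤ 2 * j * (M : ℝ) ^ j := by
    have : l * L ≤ 2 * j * M ^ j := Nat.div_mul_le_self _ _
    exact_mod_cast this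
  have hwin : ∀ m ∈ Pr A j, M ^ j ≤ m ∧ m ≤ M ^ j + l := by
    intro m hm
    obtain ⟨h5, -, h7⟩ := h2 A M L j m hW (by omega) hm
    refine ⟨h5, ?_⟩
    have h8 : ((m : ℝ) - (M : ℝ) ^ j) * L ≤ 2 * j * (M : ℝ) ^ j := by
      have : (M : ℝ) ^ j * (1 + 2 * j / L) * L = (M : ℝ) ^ j * L + 2 * j * (M : ℝ) ^ j := by
        field_simp
      nlinarith [mul_le_mul_of_nonneg_right h7 (le_of_lt hL0)]
    have h9 : (m - M ^ j) * L ≤ 2 * j * M ^ j := by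
      have : (((m - M ^ j : ℕ) : ℝ)) * L ≤ 2 * j * (M : ℝ) ^ j := by
        rw [Nat.cast_sub h5]; push_cast; exact h8
      exact_mod_cast this
    have h10 : m - M ^ j ≤ l := by
      rw [hl, Nat.le_div_iff_mul_le (by omega)]
      exact h9
    omega
  have hl2 : (l : ℝ) * 306 ≤ (M : ℝ) ^ j := by
    have h1 : (l : ℝ) * (612 * j) ≤ 2 * j * (M : ℝ) ^ j :=
      (mul_le_mul_of_nonneg_left hL (Nat.cast_nonneg _)).trans hlr
    nlinarith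
  have hMj4 : (4 : ℝ) ≤ (M : ℝ) ^ j := by
    calc (4 : ℝ) ≤ M := hM1
      _ = (M : ℝ) ^ 1 := (pow_one _).symm
      _ ≤ (M : ℝ) ^ j := pow_le_pow_right₀ (by linarith) hj
  have hl3 : (l : ℝ) + 1 ≤ (M : ℝ) ^ j := by linarith
  have hγl : γ * l ≤ 1 / 2 := by
    -- gamma * l * M^{2j} * L ≤ 153 B * 2 j M^j ≤ 306 j M^{2j} ≤ (L/2) M^{2j}
    have h1 : γ * (M : ℝ) ^ (2 * j) * ((l : ℝ) * L) ≤ 153 * B * (2 * j * (M : ℝ) ^ j) :=
      mul_le_mul hγup hlr (by positivity) (by positivity)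
    have h2' : 153 * B * (2 * j * (M : ℝ) ^ j) ≤ 306 * j * (M : ℝ) ^ (2 * j) := by
      rw [hp2j]
      have : B * (j * (M : ℝ) ^ j) ≤ (M : ℝ) ^ j * (j * (M : ℝ) ^ j) :=
        mul_le_mul_of_nonneg_right hB (by positivity)
      nlinarith
    have h3' : 306 * (j : ℝ) * (M : ℝ) ^ (2 * j) ≤ L / 2 * (M : ℝ) ^ (2 * j) := by
      apply mul_le_mul_of_nonneg_right _ (le_of_lt hp2j0)
      linarith
    have h4' : γ * l * ((M : ℝ) ^ (2 * j) * L) ≤ 1 / 2 * ((M : ℝ) ^ (2 * j) * L) := by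
      calc γ * l * ((M : ℝ) ^ (2 * j) * L) = γ * (M : ℝ) ^ (2 * j) * ((l : ℝ) * L) := by ring
        _ ≤ L / 2 * (M : ℝ) ^ (2 * j) := (h1.trans h2').trans h3'
        _ = _ := by ring
    exact le_of_mul_le_mul_right h4' (by positivity)
  have key := h4 A j (M ^ j) l γ (fun m => h3 A (fun p hp => (hW p hp).1) j m) hwin hγ0 hγl
  have hrew : ∀ m m' : ℕ, β * (((T₀ + r : ℕ) : ℝ) * ((m'' * (m * m') : ℕ) : ℝ)) =
      γ * ((m : ℝ) * (m' : ℝ)) := by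
    intro m m'; rw [hγ]; push_cast; ring
  simp only [hrew]
  have hlog : Real.log ((l : ℝ) + 1) ≤ j * Real.log M := by
    have : Real.log ((l : ℝ) + 1) ≤ Real.log ((M : ℝ) ^ j) :=
      Real.log_le_log (by positivity) hl3
    rwa [Real.log_pow] at this
  have hlogM : 0 ≤ Real.log M := Real.log_nonneg (by linarith)
  have hlog0 : 0 ≤ Real.log ((l : ℝ) + 1) := Real.log_nonneg (by
    have : (0 : ℝ) ≤ l := Nat.cast_nonneg _
    linarith)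
  have h1γ : 1 / γ ≤ (M : ℝ) ^ (2 * j) / B := by
    rw [div_le_div_iff₀ hγ0 hB0, one_mul]
    have := (div_le_iff₀ hp2j0).mp hγlow
    linarith
  have hMjB : (M : ℝ) ^ j ≤ (M : ℝ) ^ (2 * j) / B := by
    rw [le_div_iff₀ hB0, hp2j]
    exact mul_le_mul_of_nonneg_left hB (le_of_lt hpj0)
  have hbr : (l : ℝ) + 1 + (1 + Real.log (l + 1)) / γ ≤
      (M : ℝ) ^ (2 * j) / B * (2 + j * Real.log M) := by
    have h5 : (1 + Real.log ((l : ℝ) + 1)) / γ ≤ (1 + j * Real.log M) * ((M : ℝ) ^ (2 * j) / B) := by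
      rw [div_eq_mul_one_div]
      exact mul_le_mul (by linarith) h1γ (by positivity) (by positivity)
    have h6 : (l : ℝ) + 1 ≤ (M : ℝ) ^ (2 * j) / B := hl3.trans hMjB
    nlinarith
  have hρ' : (M : ℝ) ≤ ρ * A.card := by exact_mod_cast hρ
  have hA0 : (0 : ℝ) ≤ (A.card : ℝ) := Nat.cast_nonneg _
  have hMρ : (M : ℝ) ^ (2 * j) ≤ (ρ * A.card : ℝ) ^ (2 * j) :=
    pow_le_pow_left₀ (le_of_lt hM0) hρ' _
  have hlogj : 0 ≤ 2 + (j : ℝ) * Real.log M := by positivity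
  have hfin : ‖SA A j (fun m => SA A j (fun m' => e (γ * ((m : ℝ) * (m' : ℝ)))))‖ ^ 2 ≤
      ((A.card : ℝ) ^ (2 * j)) ^ 2 * ((((j.factorial : ℝ) * (ρ : ℝ) ^ j) ^ 2 *
        (2 + j * Real.log M)) / B) := by
    refine key.trans ?_
    have hC : 0 ≤ (A.card : ℝ) ^ (2 * j) * (j.factorial : ℝ) ^ 2 := by positivity
    calc (A.card : ℝ) ^ (2 * j) * (j.factorial : ℝ) ^ 2 *
          (l + 1 + (1 + Real.log (l + 1)) / γ)
        ≤ (A.card : ℝ) ^ (2 * j) * (j.factorial : ℝ) ^ 2 *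
          ((M : ℝ) ^ (2 * j) / B * (2 + j * Real.log M)) := mul_le_mul_of_nonneg_left hbr hC
      _ ≤ (A.card : ℝ) ^ (2 * j) * (j.factorial : ℝ) ^ 2 *
          ((ρ * A.card : ℝ) ^ (2 * j) / B * (2 + j * Real.log M)) := by
          apply mul_le_mul_of_nonneg_left _ hC
          apply mul_le_mul_of_nonneg_right _ hlogj
          exact div_le_div_of_nonneg_right hMρ (le_of_lt hB0)
      _ = _ := by
          rw [mul_pow, mul_pow]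
          ring
  have hX : ‖SA A j (fun m => SA A j (fun m' => e (γ * ((m : ℝ) * (m' : ℝ)))))‖ ≤
      Real.sqrt (((A.card : ℝ) ^ (2 * j)) ^ 2 * ((((j.factorial : ℝ) * (ρ : ℝ) ^ j) ^ 2 *
        (2 + j * Real.log M)) / B)) := Real.le_sqrt_of_sq_le hfin
  rw [Real.sqrt_mul (by positivity), Real.sqrt_sq (by positivity)] at hX
  exact hX

theorem t_N6 (h2 : St_Prbound) (h3 : St_mult) (h4 : St_bilin) : St_phi2 := by
  intro A M L κ T₀ ρ j β hW hκ hM hT hρ hj hjκ hjL hβ hB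
  have hM0 : (0 : ℝ) < M := by
    have : (4 : ℝ) ≤ M := by exact_mod_cast hM
    linarith
  have hT1 : (1 : ℝ) ≤ T₀ := by exact_mod_cast hT
  have hlogM : 0 ≤ Real.log M := Real.log_nonneg (by
    have : (4 : ℝ) ≤ M := by exact_mod_cast hM
    linarith)
  set K : ℝ := ((((j.factorial : ℝ) * (ρ : ℝ) ^ j) ^ 2 *
        (2 + j * Real.log M)) / (β * ((T₀ : ℝ) * (M : ℝ) ^ κ))) with hK
  have hK0 : 0 ≤ K := by rw [hK]; positivity
  have h1 : ∀ r ∈ range (50 * T₀), ‖SA A κ (fun m => e (β * (((T₀ + r : ℕ) : ℝ) * (m : ℝ))))‖ ≤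
      (A.card : ℝ) ^ κ * Real.sqrt K := by
    intro r hr
    rw [N6_split A κ j hjκ]
    refine (norm_SA_le A (κ - 2 * j) _ ((A.card : ℝ) ^ (2 * j) * Real.sqrt K)
      (fun m'' hm => ?_)).trans (le_of_eq ?_)
    · exact N6_inner h2 h3 h4 A M L κ T₀ ρ j β hW hκ hM hT hρ hj hjκ hjL hβ hB r
        (Finset.mem_range.mp hr) m'' hm
    · rw [← mul_assoc, ← pow_add]
      congr 2; omega
  have h5 : ‖Phi A κ T₀ β‖ ≤ ((50 * T₀ : ℕ) : ℝ) * (A.card : ℝ) ^ κ * Real.sqrt K := by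
    unfold Phi
    refine (norm_sum_le _ _).trans ((Finset.sum_le_sum h1).trans (le_of_eq ?_))
    rw [Finset.sum_const, Finset.card_range, nsmul_eq_mul]
    ring
  have h6 : ‖Phi A κ T₀ β‖ ^ 2 ≤ (((50 * T₀ : ℕ) : ℝ) * (A.card : ℝ) ^ κ * Real.sqrt K) ^ 2 :=
    pow_le_pow_left₀ (norm_nonneg _) h5 2
  refine h6.trans (le_of_eq ?_)
  rw [mul_pow, Real.sq_sqrt hK0, hK]
  ring

end Pool.Agent.H108R3.Had
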