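import Pool.Agent.H108R3.Had.Defs

/-! Task N7a (helper61): the Fourier identity. -/

set_option autoImplicit false

namespace Pool.Agent.H108R3.Had

open Finset Matrix

theorem N7a_e_add (x y : ℝ) : e (x + y) = e x * e y := by
  unfold e
  rw [← Complex.exp_add]
  congr 1
  push_cast
  ring

theorem N7a_conj (x : ℝ) : (starRingEnd ℂ) (e x) = e (-x) := by
  unfold e
  rw [← Complex.exp_conj]
  congr 1
  simp [map_ofNat]

theorem N7a_orth (P N1 N2 : ℕ) (h1 : N1 < P) (h2 : N2 < P) :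
    ∑ a ∈ range P, e ((a : ℝ) / P * (N1 : ℝ)) * e (-((a : ℝ) / P * (N2 : ℝ))) =
      if N1 = N2 then (P : ℂ) else 0 := by
  have hP0 : 0 < P := by omega
  have hP : (P : ℝ) ≠ 0 := by
    have : (0 : ℝ) < P := by exact_mod_cast hP0
    exact this.ne'
  set ζ : ℂ := e (((N1 : ℝ) - N2) / P) with hζ
  have hpow : ∀ a : ℕ, e ((a : ℝ) / P * (N1 : ℝ)) * e (-((a : ℝ) / P * (N2 : ℝ))) = ζ ^ a := by
    intro a
    rw [← N7a_e_add, hζ]
    unfold e
    rw [← Complex.exp_nat_mul]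
    congr 1
    push_cast
    ring
  rw [Finset.sum_congr rfl fun a _ => hpow a]
  split_ifs with h
  · subst h
    have h3 : ζ = 1 := by simp [hζ, e]
    simp [h3]
  · have hne : ζ ≠ 1 := by
      intro h3
      rw [hζ] at h3
      unfold e at h3
      rw [Complex.exp_eq_one_iff] at h3
      obtain ⟨m, hm⟩ := h3
      have h4 : ((N1 : ℝ) - N2) / P = m := by
        have h5 : ((((N1 : ℝ) - N2) / P : ℝ) : ℂ) = (m : ℂ) := by
          apply mul_right_cancel₀ Complex.two_pi_I_ne_zero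
          rw [← hm]
          ring
        exact_mod_cast h5
      have h5 : (N1 : ℝ) - N2 = m * P := by
        rw [div_eq_iff hP] at h4
        exact h4
      have h6 : (N1 : ℤ) - N2 = m * P := by exact_mod_cast h5
      have h7 : m = 0 := by
        by_contra hm0
        have h8 : 1 ≤ |m| := Int.one_le_abs hm0
        have h9 : |(N1 : ℤ) - N2| = |m| * P := by
          rw [h6, abs_mul, abs_of_nonneg (by positivity : (0 : ℤ) ≤ (P : ℤ))]
        have h10 : |(N1 : ℤ) - N2| < P := by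
          rw [abs_lt]
          constructor <;> omega
        nlinarith
      rw [h7, zero_mul] at h6
      apply h
      omega
    have hP1 : ζ ^ P = 1 := by
      rw [hζ]
      unfold e
      rw [← Complex.exp_nat_mul, Complex.exp_eq_one_iff]
      refine ⟨(N1 : ℤ) - N2, ?_⟩
      push_cast
      have hPc : (P : ℂ) ≠ 0 := by exact_mod_cast hP0.ne'
      field_simp
    rw [geom_sum_eq hne, hP1]
    simp

theorem t_N7a : St_four := by
  intro α E y w P Z X hP hE hX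
  have hsq : ∀ a : ℕ, ((‖∑ u ∈ range Z, e ((a : ℝ) / P * u)‖ ^ 2 : ℝ) : ℂ) =
      (∑ u ∈ range Z, e ((a : ℝ) / P * (u : ℝ))) * ∑ v ∈ range Z, e (-((a : ℝ) / P * (v : ℝ))) := by
    intro a
    rw [← Complex.normSq_eq_norm_sq, ← Complex.mul_conj, map_sum]
    congr 1
    exact Finset.sum_congr rfl fun v _ => N7a_conj _
  have hexp : ∀ a : ℕ, (Fh E y w P a) ^ 4 * ((‖∑ u ∈ range Z, e ((a : ℝ) / P * u)‖ ^ 2 : ℝ) : ℂ) *
      e (-((a : ℝ) / P * X)) =
      ∑ i₁ ∈ E, ∑ i₂ ∈ E, ∑ i₃ ∈ E, ∑ i₄ ∈ E, ∑ u ∈ range Z, ∑ v ∈ range Z,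
        ((w i₁ : ℂ) * w i₂ * w i₃ * w i₄) *
          (e ((a : ℝ) / P * ((y i₁ + y i₂ + y i₃ + y i₄ + u : ℕ) : ℝ)) *
            e (-((a : ℝ) / P * ((X + v : ℕ) : ℝ)))) := by
    intro a
    rw [hsq a]
    have h4 : (Fh E y w P a) ^ 4 = ∑ i₁ ∈ E, ∑ i₂ ∈ E, ∑ i₃ ∈ E, ∑ i₄ ∈ E,
        ((w i₁ : ℂ) * e ((a : ℝ) / P * (y i₁ : ℝ))) * (((w i₂ : ℂ) * e ((a : ℝ) / P * (y i₂ : ℝ))) *
          (((w i₃ : ℂ) * e ((a : ℝ) / P * (y i₃ : ℝ))) *
            ((w i₄ : ℂ) * e ((a : ℝ) / P * (y i₄ : ℝ))))) := by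
      simp only [← Finset.mul_sum, ← Finset.sum_mul]
      unfold Fh
      ring
    rw [h4, Finset.sum_mul_sum, Finset.sum_mul]
    simp only [Finset.sum_mul]
    refine Finset.sum_congr rfl fun i₁ _ => ?_
    refine Finset.sum_congr rfl fun i₂ _ => ?_
    refine Finset.sum_congr rfl fun i₃ _ => ?_
    refine Finset.sum_congr rfl fun i₄ _ => ?_
    simp only [Finset.mul_sum, Finset.sum_mul]
    refine Finset.sum_congr rfl fun u _ => ?_
    refine Finset.sum_congr rfl fun v _ => ?_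
    have e1 : e ((a : ℝ) / P * ((y i₁ + y i₂ + y i₃ + y i₄ + u : ℕ) : ℝ)) =
        e ((a : ℝ) / P * (y i₁ : ℝ)) * e ((a : ℝ) / P * (y i₂ : ℝ)) *
        e ((a : ℝ) / P * (y i₃ : ℝ)) * e ((a : ℝ) / P * (y i₄ : ℝ)) *
        e ((a : ℝ) / P * (u : ℝ)) := by
      rw [← N7a_e_add, ← N7a_e_add, ← N7a_e_add, ← N7a_e_add]
      congr 1
      push_cast
      ring
    have e2 : e (-((a : ℝ) / P * ((X + v : ℕ) : ℝ))) =
        e (-((a : ℝ) / P * (X : ℝ))) * e (-((a : ℝ) / P * (v : ℝ))) := by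
      rw [← N7a_e_add]
      congr 1
      push_cast
      ring
    rw [e1, e2]
    ring
  have hexp' := Finset.sum_congr (rfl : range P = range P) fun a (_ : a ∈ range P) => hexp a
  rw [hexp']
  have hL : (((P : ℝ) * Rc E y w Z X : ℝ) : ℂ) = ∑ i₁ ∈ E, ∑ i₂ ∈ E, ∑ i₃ ∈ E, ∑ i₄ ∈ E,
      ∑ u ∈ range Z, ∑ v ∈ range Z, (P : ℂ) *
        ((if y i₁ + y i₂ + y i₃ + y i₄ + u = X + v then w i₁ * w i₂ * w i₃ * w i₄ else 0 : ℝ) :
          ℂ) := by
    unfold Rc
    rw [Complex.ofReal_mul]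
    simp only [Complex.ofReal_sum, Finset.mul_sum, Complex.ofReal_natCast]
  rw [hL]
  conv_rhs => rw [Finset.sum_comm]
  apply Finset.sum_congr rfl
  intro i₁ h1
  conv_rhs => rw [Finset.sum_comm]
  apply Finset.sum_congr rfl
  intro i₂ h2
  conv_rhs => rw [Finset.sum_comm]
  apply Finset.sum_congr rfl
  intro i₃ h3
  conv_rhs => rw [Finset.sum_comm]
  apply Finset.sum_congr rfl
  intro i₄ h4
  conv_rhs => rw [Finset.sum_comm]
  apply Finset.sum_congr rfl
  intro u hu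
  conv_rhs => rw [Finset.sum_comm]
  apply Finset.sum_congr rfl
  intro v hv
  rw [← Finset.mul_sum]
  have hy1 := hE i₁ h1
  have hy2 := hE i₂ h2
  have hy3 := hE i₃ h3
  have hy4 := hE i₄ h4
  have hu' := Finset.mem_range.1 hu
  have hv' := Finset.mem_range.1 hv
  rw [N7a_orth P _ _ (by omega) (by omega)]
  split_ifs with h
  · push_cast
    ring
  · simp

end Pool.Agent.H108R3.Had
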