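import Mathlib
import Pool.Agent.H108R3.Had.Defs

/-! Task N7b (helper873): kernel bounds. -/

set_option autoImplicit false

namespace Pool.Agent.H108R3.Had

open Finset

private theorem n7b_norm_e (x : ℝ) : ‖e x‖ = 1 := by
  unfold e
  have : (2 * Real.pi * x * Complex.I : ℂ) = ((2 * Real.pi * x : ℝ) : ℂ) * Complex.I := by
    push_cast
    ring
  rw [this]
  exact Complex.norm_exp_ofReal_mul_I _

private theorem n7b_re_e (x : ℝ) : (e x).re = Real.cos (2 * Real.pi * x) := by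
  unfold e
  have : (2 * Real.pi * x * Complex.I : ℂ) = ((2 * Real.pi * x : ℝ) : ℂ) * Complex.I := by
    push_cast
    ring
  rw [this]
  exact Complex.exp_ofReal_mul_I_re _

private theorem n7b_e_add (x y : ℝ) : e (x + y) = e x * e y := by
  unfold e
  rw [← Complex.exp_add]
  congr 1
  push_cast
  ring

private theorem n7b_conj (x : ℝ) : (starRingEnd ℂ) (e x) = e (-x) := by
  unfold e
  rw [← Complex.exp_conj]
  congr 1
  have h2 : (starRingEnd ℂ) (2 : ℂ) = 2 := map_ofNat _ 2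
  simp [Complex.conj_ofReal, h2]

private theorem n7b_sq (Z : ℕ) (θ : ℝ) : ‖∑ u ∈ range Z, e (θ * u)‖ ^ 2 =
    ∑ u ∈ range Z, ∑ v ∈ range Z, Real.cos (2 * Real.pi * (θ * ((u : ℝ) - v))) := by
  have h1 : ((‖∑ u ∈ range Z, e (θ * u)‖ ^ 2 : ℝ) : ℂ) =
      ∑ u ∈ range Z, ∑ v ∈ range Z, e (θ * ((u : ℝ) - v)) := by
    push_cast
    rw [← Complex.mul_conj', map_sum, sum_mul_sum]
    refine sum_congr rfl fun u _ => sum_congr rfl fun v _ => ?_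
    rw [n7b_conj, ← n7b_e_add]
    congr 1
    ring
  have h2 := congrArg Complex.re h1
  rw [Complex.ofReal_re] at h2
  rw [h2, Complex.re_sum]
  refine sum_congr rfl fun u _ => ?_
  rw [Complex.re_sum]
  exact sum_congr rfl fun v _ => n7b_re_e _

private theorem n7b_le (Z : ℕ) (θ : ℝ) : ‖∑ u ∈ range Z, e (θ * u)‖ ≤ Z := by
  refine (norm_sum_le _ _).trans ?_
  simp [n7b_norm_e]

private theorem n7b_ge (Z : ℕ) (θ : ℝ) :
    (Z : ℝ) ^ 2 - 20 * (θ * Z) ^ 2 * (Z : ℝ) ^ 2 ≤ ‖∑ u ∈ range Z, e (θ * u)‖ ^ 2 := by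
  rw [n7b_sq]
  have h1 : ∀ u ∈ range Z, ∀ v ∈ range Z, (1 : ℝ) - 20 * (θ * Z) ^ 2 ≤
      Real.cos (2 * Real.pi * (θ * ((u : ℝ) - v))) := by
    intro u hu v hv
    have hu' : (u : ℝ) < Z := by exact_mod_cast mem_range.1 hu
    have hv' : (v : ℝ) < Z := by exact_mod_cast mem_range.1 hv
    have hu0 : (0 : ℝ) ≤ u := Nat.cast_nonneg u
    have hv0 : (0 : ℝ) ≤ v := Nat.cast_nonneg v
    have h2 := Real.one_sub_sq_div_two_le_cos (x := 2 * Real.pi * (θ * ((u : ℝ) - v)))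
    have h3 : (2 * Real.pi * (θ * ((u : ℝ) - v))) ^ 2 / 2 = 2 * Real.pi ^ 2 * (θ ^ 2 * ((u : ℝ) - v) ^ 2) := by
      ring
    have h4 : ((u : ℝ) - v) ^ 2 ≤ (Z : ℝ) ^ 2 := by
      apply sq_le_sq'
      · linarith
      · linarith
    have h5 : Real.pi ^ 2 ≤ 10 := by
      have := Real.pi_lt_d2
      have := Real.pi_pos
      nlinarith
    have h6 : 2 * Real.pi ^ 2 * (θ ^ 2 * ((u : ℝ) - v) ^ 2) ≤ 2 * 10 * (θ ^ 2 * (Z : ℝ) ^ 2) := by
      apply mul_le_mul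
      · linarith
      · exact mul_le_mul_of_nonneg_left h4 (sq_nonneg _)
      · positivity
      · norm_num
    rw [h3] at h2
    have h7 : (θ * Z) ^ 2 = θ ^ 2 * (Z : ℝ) ^ 2 := by ring
    rw [h7]
    linarith
  have h2 : ∑ u ∈ range Z, ∑ v ∈ range Z, ((1 : ℝ) - 20 * (θ * Z) ^ 2) ≤
      ∑ u ∈ range Z, ∑ v ∈ range Z, Real.cos (2 * Real.pi * (θ * ((u : ℝ) - v))) :=
    sum_le_sum fun u hu => sum_le_sum fun v hv => h1 u hu v hv
  refine le_trans (le_of_eq ?_) h2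
  rw [sum_const, sum_const, card_range, nsmul_eq_mul, nsmul_eq_mul]
  ring

theorem t_N7b (h : St_geom) : St_ker := by
  intro P Z Z₁ a hZ hZZ ha haP
  have hP : (0 : ℝ) < P := by
    have : 0 < P := by omega
    exact_mod_cast this
  have ha0 : (0 : ℝ) < a := by exact_mod_cast ha
  have hZ0 : (0 : ℝ) < Z := by exact_mod_cast hZ
  have hZ1 : (0 : ℝ) < Z₁ := by exact_mod_cast (hZ.trans hZZ)
  have hZZ' : (Z : ℝ) ≤ Z₁ := by exact_mod_cast hZZ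
  have haP' : 2 * (a : ℝ) ≤ P := by exact_mod_cast haP
  set θ : ℝ := (a : ℝ) / P with hθ
  have hθ0 : 0 < θ := div_pos ha0 hP
  have hθ1 : θ ≤ 1 / 2 := by
    rw [hθ, div_le_div_iff₀ hP (by norm_num)]
    linarith
  -- general bounds
  have hub : ∀ N : ℕ, (0 : ℝ) < N → ‖∑ u ∈ range N, e (θ * u)‖ ^ 2 / (N : ℝ) ^ 2 ≤ 1 := by
    intro N hN
    rw [div_le_one (by positivity)]
    exact pow_le_pow_left₀ (norm_nonneg _) (n7b_le N θ) 2
  have hlb : ∀ N : ℕ, 0 ≤ ‖∑ u ∈ range N, e (θ * u)‖ ^ 2 / (N : ℝ) ^ 2 := fun N => by positivity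
  have hge : ∀ N : ℕ, (0 : ℝ) < N → (N : ℝ) ≤ Z₁ →
      1 - 20 * ((a : ℝ) * Z₁ / P) ^ 2 ≤ ‖∑ u ∈ range N, e (θ * u)‖ ^ 2 / (N : ℝ) ^ 2 := by
    intro N hN hN1
    rw [le_div_iff₀ (by positivity)]
    refine le_trans ?_ (n7b_ge N θ)
    have h1 : (a : ℝ) * Z₁ / P = θ * Z₁ := by
      rw [hθ]
      ring
    rw [h1]
    have h2 : (θ * N) ^ 2 ≤ (θ * Z₁) ^ 2 := by
      apply pow_le_pow_left₀ (by positivity)
      exact mul_le_mul_of_nonneg_left hN1 hθ0.le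
    have h3 : (0 : ℝ) < (N : ℝ) ^ 2 := by positivity
    nlinarith
  have hsm : ∀ N : ℕ, (0 : ℝ) < N → (Z : ℝ) ≤ N →
      ‖∑ u ∈ range N, e (θ * u)‖ ^ 2 / (N : ℝ) ^ 2 ≤ ((P : ℝ) / (2 * a * Z)) ^ 2 := by
    intro N hN hZN
    have h1 := h N θ hθ0 hθ1
    have h2 : ‖∑ u ∈ range N, e (θ * u)‖ ^ 2 ≤ (1 / (2 * θ)) ^ 2 :=
      pow_le_pow_left₀ (norm_nonneg _) h1 2
    have h3 : (P : ℝ) / (2 * a * Z) = 1 / (2 * θ) / Z := by
      rw [hθ]
      field_simp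
    rw [h3, div_pow (1 / (2 * θ)) (Z : ℝ) 2]
    apply div_le_div₀ (by positivity) h2 (by positivity)
    exact pow_le_pow_left₀ hZ0.le hZN 2
  unfold ker
  rw [le_min_iff, le_min_iff]
  have a1 := hub Z hZ0
  have a2 := hub Z₁ hZ1
  have b1 := hlb Z
  have b2 := hlb Z₁
  have c1 := hge Z hZ0 hZZ'
  have c2 := hge Z₁ hZ1 le_rfl
  have d1 := hsm Z hZ0 le_rfl
  have d2 := hsm Z₁ hZ1 hZZ'
  refine ⟨⟨?_, ?_⟩, ?_⟩
  · rw [abs_le]
    constructor <;> linarith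
  · rw [abs_le]
    constructor <;> linarith
  · rw [abs_le]
    constructor <;> linarith

end Pool.Agent.H108R3.Had
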