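import Pool.Agent.H108R3.Had.Defs

/-! N7c: existence from exponential sum bounds -/

namespace Pool.Agent.H108R3.Had

open Finset Matrix

theorem N7c_neg (x : ℝ) : e (-x) = (starRingEnd ℂ) (e x) := by
  unfold e
  rw [← Complex.exp_conj]
  congr 1
  simp only [map_mul, Complex.conj_ofReal, Complex.conj_I, map_ofNat]
  push_cast
  ring

theorem N7c_nat (x : ℝ) (k : ℕ) : e ((k : ℝ) - x) = e (-x) := by
  unfold e
  have h : (2 * Real.pi * ((k : ℝ) - x : ℝ) * Complex.I : ℂ) =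
      (k : ℂ) * (2 * Real.pi * Complex.I) + (2 * Real.pi * (-x : ℝ) * Complex.I : ℂ) := by
    push_cast; ring
  rw [h, Complex.exp_add, Complex.exp_nat_mul_two_pi_mul_I, one_mul]

theorem N7c_refl {P a : ℕ} (hP : 0 < P) (ha : a ≤ P) (k : ℕ) :
    e (((P - a : ℕ) : ℝ) / P * k) = (starRingEnd ℂ) (e ((a : ℝ) / P * k)) := by
  have hP' : (P : ℝ) ≠ 0 := by positivity
  have h : ((P - a : ℕ) : ℝ) / P * k = (k : ℝ) - (a : ℝ) / P * k := by
    rw [Nat.cast_sub ha]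
    field_simp
  rw [h, N7c_nat, N7c_neg]

theorem N7c_Fh {α : Type} (E : Finset α) (y : α → ℕ) (w : α → ℝ) {P a : ℕ} (hP : 0 < P)
    (ha : a ≤ P) : ‖Fh E y w P (P - a)‖ = ‖Fh E y w P a‖ := by
  have h : Fh E y w P (P - a) = (starRingEnd ℂ) (Fh E y w P a) := by
    unfold Fh
    rw [map_sum]
    refine Finset.sum_congr rfl fun i _ => ?_
    rw [map_mul, Complex.conj_ofReal, N7c_refl hP ha]
  rw [h, Complex.norm_conj]

theorem N7c_D (Z : ℕ) {P a : ℕ} (hP : 0 < P) (ha : a ≤ P) :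
    ‖∑ u ∈ range Z, e (((P - a : ℕ) : ℝ) / P * u)‖ = ‖∑ u ∈ range Z, e ((a : ℝ) / P * u)‖ := by
  have h : ∑ u ∈ range Z, e (((P - a : ℕ) : ℝ) / P * u) =
      (starRingEnd ℂ) (∑ u ∈ range Z, e ((a : ℝ) / P * u)) := by
    rw [map_sum]
    exact Finset.sum_congr rfl fun i _ => N7c_refl hP ha i
  rw [h, Complex.norm_conj]

theorem N7c_D0 (Z P : ℕ) : ‖∑ u ∈ range Z, e (((0 : ℕ) : ℝ) / P * u)‖ = Z := by
  simp [e]

theorem N7c_fold (G : ℕ → ℝ) (hG : ∀ a, 0 ≤ G a) {P : ℕ} (h0 : G 0 = 0)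
    (hs : ∀ a, 1 ≤ a → a ≤ P → G (P - a) = G a) :
    ∑ a ∈ range P, G a ≤ 2 * ∑ a ∈ Icc 1 (P / 2), G a := by
  have hsub : range P ⊆ {0} ∪ (Icc 1 (P / 2) ∪ (Icc 1 (P / 2)).image (fun a => P - a)) := by
    intro a ha
    rw [Finset.mem_range] at ha
    simp only [Finset.mem_union, Finset.mem_singleton, Finset.mem_Icc, Finset.mem_image]
    by_cases h1 : a = 0
    · exact Or.inl h1
    by_cases h2 : a ≤ P / 2
    · exact Or.inr (Or.inl ⟨by omega, h2⟩)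
    · exact Or.inr (Or.inr ⟨P - a, ⟨by omega, by omega⟩, by omega⟩)
  have h1 : ∑ a ∈ range P, G a ≤
      ∑ a ∈ {0} ∪ (Icc 1 (P / 2) ∪ (Icc 1 (P / 2)).image (fun a => P - a)), G a :=
    Finset.sum_le_sum_of_subset_of_nonneg hsub fun a _ _ => hG a
  have hun : ∀ s t : Finset ℕ, ∑ a ∈ s ∪ t, G a ≤ ∑ a ∈ s, G a + ∑ a ∈ t, G a := by
    intro s t
    have := Finset.sum_union_inter (s₁ := s) (s₂ := t) (f := G)
    have h2 : 0 ≤ ∑ a ∈ s ∩ t, G a := Finset.sum_nonneg fun a _ => hG a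
    linarith
  have h2 := hun {0} (Icc 1 (P / 2) ∪ (Icc 1 (P / 2)).image (fun a => P - a))
  have h3 := hun (Icc 1 (P / 2)) ((Icc 1 (P / 2)).image (fun a => P - a))
  have h4 : ∑ a ∈ (Icc 1 (P / 2)).image (fun a => P - a), G a = ∑ a ∈ Icc 1 (P / 2), G a := by
    rw [Finset.sum_image]
    · refine Finset.sum_congr rfl fun a ha => ?_
      rw [Finset.mem_Icc] at ha
      exact hs a ha.1 (by omega)
    · intro a ha b hb hab
      rw [Finset.mem_coe, Finset.mem_Icc] at ha hb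
      simp only at hab
      omega
  rw [Finset.sum_singleton, h0] at h2
  linarith

theorem t_N7c (ha : St_four) (hb : St_ker) : St_exist := by
  intro α E y w P Z Z₁ X c hw hZ hZZ hE hX hc hsum
  have hP : 0 < P := by omega
  have hZ1 : 1 ≤ Z₁ := hZ.trans hZZ
  have hPr : (0:ℝ) < P := by exact_mod_cast hP
  have hZr : (0:ℝ) < Z := by exact_mod_cast hZ
  have hZ1r : (0:ℝ) < Z₁ := by exact_mod_cast hZ1
  set N := ∑ i ∈ E, w i with hN
  set fZ : ℕ → ℕ → ℝ := fun Z a => ‖∑ u ∈ range Z, e ((a : ℝ) / P * u)‖ ^ 2 / (Z : ℝ) ^ 2 with hfZ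
  have f1 := ha α E y w P Z X hP (fun i hi => by have := hE i hi; omega) (by omega)
  have f2 := ha α E y w P Z₁ X hP hE hX
  have g1 : ((P * Rc E y w Z X / (Z:ℝ) ^ 2 : ℝ) : ℂ) = ∑ a ∈ range P, (Fh E y w P a) ^ 4 *
      ((fZ Z a : ℝ) : ℂ) * e (-((a : ℝ) / P * X)) := by
    rw [Complex.ofReal_div]
    rw [f1, Finset.sum_div]
    refine Finset.sum_congr rfl fun a _ => ?_
    simp only [hfZ]
    push_cast
    ring
  have g2 : ((P * Rc E y w Z₁ X / (Z₁:ℝ) ^ 2 : ℝ) : ℂ) = ∑ a ∈ range P, (Fh E y w P a) ^ 4 *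
      ((fZ Z₁ a : ℝ) : ℂ) * e (-((a : ℝ) / P * X)) := by
    rw [Complex.ofReal_div]
    rw [f2, Finset.sum_div]
    refine Finset.sum_congr rfl fun a _ => ?_
    simp only [hfZ]
    push_cast
    ring
  set G : ℕ → ℝ := fun a => ‖Fh E y w P a‖ ^ 4 * |fZ Z a - fZ Z₁ a| with hG
  have hnorm : |P * Rc E y w Z X / (Z:ℝ) ^ 2 - P * Rc E y w Z₁ X / (Z₁:ℝ) ^ 2| ≤
      ∑ a ∈ range P, G a := by
    have h1 : ((P * Rc E y w Z X / (Z:ℝ) ^ 2 - P * Rc E y w Z₁ X / (Z₁:ℝ) ^ 2 : ℝ) : ℂ) =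
        ∑ a ∈ range P, (Fh E y w P a) ^ 4 * ((fZ Z a - fZ Z₁ a : ℝ) : ℂ) *
          e (-((a : ℝ) / P * X)) := by
      rw [Complex.ofReal_sub, g1, g2, ← Finset.sum_sub_distrib]
      refine Finset.sum_congr rfl fun a _ => ?_
      push_cast
      ring
    have h2 := congrArg norm h1
    rw [Complex.norm_real, Real.norm_eq_abs] at h2
    rw [h2]
    refine (norm_sum_le _ _).trans (Finset.sum_le_sum fun a _ => ?_)
    rw [norm_mul, norm_mul, norm_pow, Complex.norm_real, Real.norm_eq_abs]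
    have h3 : ‖e (-((a : ℝ) / P * X))‖ = 1 := by
      unfold e
      have : (2 * Real.pi * (-((a : ℝ) / P * X) : ℝ) * Complex.I : ℂ) =
          ((2 * Real.pi * (-((a : ℝ) / P * X)) : ℝ) : ℂ) * Complex.I := by push_cast; ring
      rw [this, Complex.norm_exp_ofReal_mul_I]
    rw [h3, mul_one]
  have hG0 : G 0 = 0 := by
    simp only [hG, hfZ]
    rw [N7c_D0, N7c_D0, div_self (by positivity), div_self (by positivity)]
    simp
  have hGs : ∀ a, 1 ≤ a → a ≤ P → G (P - a) = G a := by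
    intro a _ haP
    simp only [hG, hfZ]
    rw [N7c_Fh E y w hP haP, N7c_D Z hP haP, N7c_D Z₁ hP haP]
  have hfold := N7c_fold G (fun a => by positivity) hG0 hGs
  have hker : ∑ a ∈ Icc 1 (P / 2), G a ≤
      ∑ a ∈ Icc 1 (P / 2), ‖Fh E y w P a‖ ^ 4 * ker P Z Z₁ a := by
    refine Finset.sum_le_sum fun a haI => ?_
    rw [Finset.mem_Icc] at haI
    exact mul_le_mul_of_nonneg_left (hb P Z Z₁ a hZ hZZ haI.1 (by omega)) (by positivity)
  have hbig : c * N ^ 4 ≤ P * Rc E y w Z₁ X / (Z₁:ℝ) ^ 2 := by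
    rw [le_div_iff₀ (by positivity)]
    rw [div_le_iff₀ hPr] at hc
    calc c * N ^ 4 * (Z₁:ℝ) ^ 2 = c * (Z₁:ℝ) ^ 2 * N ^ 4 := by ring
      _ ≤ Rc E y w Z₁ X * P := hc
      _ = _ := by ring
  have hpos : 0 < P * Rc E y w Z X / (Z:ℝ) ^ 2 := by
    have := (abs_le.1 hnorm).1
    linarith
  have hne : Rc E y w Z X ≠ 0 := by
    intro h0
    rw [h0] at hpos
    simp at hpos
  unfold Rc at hne
  obtain ⟨i₁, h1, hne⟩ := Finset.exists_ne_zero_of_sum_ne_zero hne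
  obtain ⟨i₂, h2, hne⟩ := Finset.exists_ne_zero_of_sum_ne_zero hne
  obtain ⟨i₃, h3, hne⟩ := Finset.exists_ne_zero_of_sum_ne_zero hne
  obtain ⟨i₄, h4, hne⟩ := Finset.exists_ne_zero_of_sum_ne_zero hne
  obtain ⟨u, hu, hne⟩ := Finset.exists_ne_zero_of_sum_ne_zero hne
  obtain ⟨v, hv, hne⟩ := Finset.exists_ne_zero_of_sum_ne_zero hne
  rw [Finset.mem_range] at hu hv
  refine ⟨i₁, h1, i₂, h2, i₃, h3, i₄, h4, ?_⟩
  by_cases h : y i₁ + y i₂ + y i₃ + y i₄ + u = X + v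
  · rw [abs_lt]
    constructor <;> omega
  · rw [if_neg h] at hne
    exact absurd rfl hne

end Pool.Agent.H108R3.Had
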