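import Pool.Agent.H108R3.Had.Defs

namespace Pool.Agent.H108R3.Had

open Finset

private theorem n8_uv (Z D a X : ℕ) (c : ℝ) (hc : 0 ≤ c) (h : a + D = X) :
    ((Z : ℝ) - D) * c ≤ ∑ u ∈ range Z, ∑ v ∈ range Z, if a + u = X + v then c else 0 := by
  rw [Finset.sum_comm]
  have h1 : ∀ v ∈ range Z, (∑ u ∈ range Z, if a + u = X + v then c else 0) =
      if D + v < Z then c else 0 := by
    intro v _
    have h0 : ∀ u ∈ range Z, (if a + u = X + v then c else 0) = if u = D + v then c else 0 := by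
      intro u _
      by_cases hu : u = D + v
      · rw [if_pos hu, if_pos (by omega)]
      · rw [if_neg hu, if_neg (by omega)]
    rw [Finset.sum_congr rfl h0, Finset.sum_ite_eq']
    simp only [Finset.mem_range]
  rw [Finset.sum_congr rfl h1, ← Finset.sum_filter, Finset.sum_const, nsmul_eq_mul]
  apply mul_le_mul_of_nonneg_right _ hc
  have h2 : range (Z - D) ⊆ (range Z).filter (fun v => D + v < Z) := by
    intro v hv
    rw [Finset.mem_range] at hv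
    rw [Finset.mem_filter, Finset.mem_range]
    omega
  have h3 := Finset.card_le_card h2
  rw [card_range] at h3
  have h4 : (Z : ℝ) ≤ ((Z - D : ℕ) : ℝ) + D := by exact_mod_cast (by omega : Z ≤ Z - D + D)
  have h5 : ((Z - D : ℕ) : ℝ) ≤ (((range Z).filter (fun v => D + v < Z)).card : ℝ) := by
    exact_mod_cast h3
  linarith

private theorem n8_uv_nonneg (Z a X : ℕ) (c : ℝ) (hc : 0 ≤ c) :
    0 ≤ ∑ u ∈ range Z, ∑ v ∈ range Z, if a + u = X + v then c else 0 := by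
  refine Finset.sum_nonneg fun u _ => Finset.sum_nonneg fun v _ => ?_
  split_ifs
  · exact hc
  · exact le_rfl

private theorem n8_r (m T₀ J Z s X : ℕ) (c : ℝ) (hc : 0 ≤ c) (hm : 0 < m) (hs : s ≤ X)
    (hJ : 2 * (J * m) ≤ Z) (h1 : (T₀ + J) * m ≤ X - s) (h2 : X - s < 50 * T₀ * m) :
    (J : ℝ) * (((Z : ℝ) / 2) * c) ≤ ∑ r ∈ range (50 * T₀), ∑ u ∈ range Z, ∑ v ∈ range Z,
      if s + (T₀ + r) * m + u = X + v then c else 0 := by
  obtain ⟨t, ht⟩ : ∃ t, t = (X - s) / m := ⟨_, rfl⟩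
  have ht1 : T₀ + J ≤ t := by rw [ht]; exact (Nat.le_div_iff_mul_le hm).2 h1
  have ht2 : t < 50 * T₀ := by rw [ht]; exact (Nat.div_lt_iff_lt_mul hm).2 h2
  have ht3 : t * m ≤ X - s := by rw [ht]; exact Nat.div_mul_le_self _ _
  have ht4 : X - s < (t + 1) * m := by
    rw [ht]
    have := Nat.lt_div_mul_add hm (a := X - s)
    calc X - s < (X - s) / m * m + m := this
      _ = ((X - s) / m + 1) * m := by ring
  have hinj : Set.InjOn (fun j => t - j - T₀) (range J : Set ℕ) := by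
    intro a ha b hb h
    rw [Finset.coe_range, Set.mem_Iio] at ha hb
    simp only at h
    omega
  have hstep : ∀ j ∈ range J, (Z : ℝ) / 2 * c ≤ ∑ u ∈ range Z, ∑ v ∈ range Z,
      if s + (T₀ + (t - j - T₀)) * m + u = X + v then c else 0 := by
    intro j hj
    rw [Finset.mem_range] at hj
    have e1 : T₀ + (t - j - T₀) = t - j := by omega
    rw [e1]
    have hle : (t - j) * m ≤ X - s := le_trans (Nat.mul_le_mul_right _ (Nat.sub_le _ _)) ht3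
    obtain ⟨D, hD⟩ : ∃ D, s + (t - j) * m + D = X := ⟨X - s - (t - j) * m, by omega⟩
    have hD2 : 2 * D ≤ Z := by
      have e2 : (t + 1) * m = (t - j) * m + (j + 1) * m := by
        rw [← add_mul]; congr 1; omega
      have e3 : (j + 1) * m ≤ J * m := Nat.mul_le_mul_right _ hj
      omega
    refine le_trans ?_ (n8_uv Z D _ X c hc hD)
    apply mul_le_mul_of_nonneg_right _ hc
    have : (2 : ℝ) * D ≤ Z := by exact_mod_cast hD2
    linarith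
  calc (J : ℝ) * (((Z : ℝ) / 2) * c) = ∑ j ∈ range J, (Z : ℝ) / 2 * c := by
        rw [Finset.sum_const, card_range, nsmul_eq_mul]
    _ ≤ ∑ j ∈ range J, ∑ u ∈ range Z, ∑ v ∈ range Z,
          if s + (T₀ + (t - j - T₀)) * m + u = X + v then c else 0 := Finset.sum_le_sum hstep
    _ = ∑ r ∈ (range J).image (fun j => t - j - T₀), ∑ u ∈ range Z, ∑ v ∈ range Z,
          if s + (T₀ + r) * m + u = X + v then c else 0 := by
        rw [Finset.sum_image hinj]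
    _ ≤ _ := by
        apply Finset.sum_le_sum_of_subset_of_nonneg
        · intro r hr
          obtain ⟨j, hj, rfl⟩ := Finset.mem_image.1 hr
          rw [Finset.mem_range] at hj ⊢
          omega
        · intro r _ _
          exact n8_uv_nonneg _ _ _ _ hc

private theorem n8_wf_nonneg (A : Finset ℕ) (κ : ℕ) (i : ℕ × ℕ) : 0 ≤ wf A κ i := Nat.cast_nonneg _

private theorem n8_sum (A : Finset ℕ) (κ N : ℕ) :
    ∑ i ∈ range N ×ˢ Pr A κ, wf A κ i = (N : ℝ) * (A.card : ℝ) ^ κ := by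
  rw [Finset.sum_product]
  have h : ∀ r ∈ range N, ∑ m ∈ Pr A κ, wf A κ (r, m) = (A.card : ℝ) ^ κ := by
    intro r _
    have := sum_wt A κ
    unfold wf
    simp only
    exact_mod_cast this
  rw [Finset.sum_congr rfl h, Finset.sum_const, card_range, nsmul_eq_mul]

private theorem n8_inner (A : Finset ℕ) (κ Q T₁ X s : ℕ) (w : ℝ) (hw : 0 ≤ w) (hQ : 1 ≤ Q)
    (hT : 10 ≤ T₁) (hPr : ∀ m ∈ Pr A κ, Q ≤ m ∧ m ≤ 3 * Q)
    (hX1 : 6 * (1000000 * T₁ * Q) ≤ X - s) (hX2 : X - s < 47 * (1000000 * T₁ * Q) + 1)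
    (hs : s ≤ X) :
    w * ((A.card : ℝ) ^ κ * ((T₁ : ℝ) / 12 * (((T₁ * Q : ℕ) : ℝ) / 2))) ≤
      ∑ i ∈ Ef A κ (1000000 * T₁), ∑ u ∈ range (T₁ * Q), ∑ v ∈ range (T₁ * Q),
        if s + yf (1000000 * T₁) i + u = X + v then w * wf A κ i else 0 := by
  unfold Ef
  rw [Finset.sum_product_right]
  have hJ : (T₁ : ℝ) / 12 ≤ ((T₁ / 6 : ℕ) : ℝ) := by
    have h : T₁ ≤ 12 * (T₁ / 6) := by omega
    have h' : (T₁ : ℝ) ≤ 12 * ((T₁ / 6 : ℕ) : ℝ) := by exact_mod_cast h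
    linarith
  have hmain : ∀ m ∈ Pr A κ, (wt A κ m : ℝ) * (w * ((T₁ : ℝ) / 12 * (((T₁ * Q : ℕ) : ℝ) / 2))) ≤
      ∑ r ∈ range (50 * (1000000 * T₁)), ∑ u ∈ range (T₁ * Q), ∑ v ∈ range (T₁ * Q),
        if s + yf (1000000 * T₁) (r, m) + u = X + v then w * wf A κ (r, m) else 0 := by
    intro m hm
    obtain ⟨hm1, hm2⟩ := hPr m hm
    have hm0 : 0 < m := lt_of_lt_of_le hQ hm1
    have hc : 0 ≤ w * (wt A κ m : ℝ) := mul_nonneg hw (Nat.cast_nonneg _)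
    have key := n8_r m (1000000 * T₁) (T₁ / 6) (T₁ * Q) s X (w * (wt A κ m : ℝ)) hc hm0 hs
      (by
        have h6 : 6 * (T₁ / 6) ≤ T₁ := Nat.mul_div_le _ _
        calc 2 * (T₁ / 6 * m) ≤ 2 * (T₁ / 6 * (3 * Q)) := by gcongr
          _ = (6 * (T₁ / 6)) * Q := by ring
          _ ≤ T₁ * Q := by gcongr)
      (by
        have h6 : T₁ / 6 ≤ T₁ := Nat.div_le_self _ _
        calc (1000000 * T₁ + T₁ / 6) * m ≤ (1000000 * T₁ + 1000000 * T₁) * (3 * Q) := by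
              gcongr; omega
          _ = 6 * (1000000 * T₁ * Q) := by ring
          _ ≤ X - s := hX1)
      (by
        calc X - s < 47 * (1000000 * T₁ * Q) + 1 := hX2
          _ ≤ 50 * (1000000 * T₁ * Q) := by
            have : 1 ≤ 1000000 * T₁ * Q := by
              have : 1 * 1 ≤ (1000000 * T₁) * Q := Nat.mul_le_mul (by omega) hQ
              omega
            omega
          _ = 50 * (1000000 * T₁) * Q := by ring
          _ ≤ 50 * (1000000 * T₁) * m := by gcongr)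
    refine le_trans ?_ key
    have hZ : (0 : ℝ) ≤ ((T₁ * Q : ℕ) : ℝ) / 2 := by positivity
    calc (wt A κ m : ℝ) * (w * ((T₁ : ℝ) / 12 * (((T₁ * Q : ℕ) : ℝ) / 2)))
        = (T₁ : ℝ) / 12 * ((((T₁ * Q : ℕ) : ℝ) / 2) * (w * (wt A κ m : ℝ))) := by ring
      _ ≤ _ := mul_le_mul_of_nonneg_right hJ (mul_nonneg hZ hc)
  refine le_trans (le_of_eq ?_) (Finset.sum_le_sum hmain)
  rw [← Finset.sum_mul]
  have := sum_wt A κ
  have h' : ∑ m ∈ Pr A κ, (wt A κ m : ℝ) = (A.card : ℝ) ^ κ := by exact_mod_cast this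
  rw [h']
  ring

private theorem n8_main (A : Finset ℕ) (κ Q T₁ X : ℕ) (hQ : 1 ≤ Q) (hT : 10 ≤ T₁)
    (hPr : ∀ m ∈ Pr A κ, Q ≤ m ∧ m ≤ 3 * Q)
    (hX1 : 24 * (1000000 * T₁ * Q) ≤ X) (hX2 : X < 50 * (1000000 * T₁ * Q)) :
    (((1000000 * T₁ : ℕ) : ℝ) * (A.card : ℝ) ^ κ) ^ 3 *
      ((A.card : ℝ) ^ κ * ((T₁ : ℝ) / 12 * (((T₁ * Q : ℕ) : ℝ) / 2))) ≤
    Rc (Ef A κ (1000000 * T₁)) (yf (1000000 * T₁)) (wf A κ) (T₁ * Q) X := by
  obtain ⟨K, hK⟩ : ∃ K : ℝ, K = (A.card : ℝ) ^ κ * ((T₁ : ℝ) / 12 * (((T₁ * Q : ℕ) : ℝ) / 2)) :=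
    ⟨_, rfl⟩
  obtain ⟨E', hE'⟩ : ∃ E' : Finset (ℕ × ℕ), E' = range (1000000 * T₁) ×ˢ Pr A κ := ⟨_, rfl⟩
  have hsub : E' ⊆ Ef A κ (1000000 * T₁) := by
    rw [hE']
    unfold Ef
    apply Finset.product_subset_product_left
    intro x hx
    rw [Finset.mem_range] at hx ⊢
    omega
  have hw := n8_wf_nonneg A κ
  have hf0 : ∀ i₁ i₂ i₃ : ℕ × ℕ, 0 ≤ ∑ i₄ ∈ Ef A κ (1000000 * T₁), ∑ u ∈ range (T₁ * Q),
      ∑ v ∈ range (T₁ * Q),
      if yf (1000000 * T₁) i₁ + yf (1000000 * T₁) i₂ + yf (1000000 * T₁) i₃ +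
        yf (1000000 * T₁) i₄ + u = X + v then wf A κ i₁ * wf A κ i₂ * wf A κ i₃ * wf A κ i₄
      else 0 := by
    intro i₁ i₂ i₃
    refine Finset.sum_nonneg fun i₄ _ => n8_uv_nonneg _ _ _ _ ?_
    exact mul_nonneg (mul_nonneg (mul_nonneg (hw _) (hw _)) (hw _)) (hw _)
  have hyf : ∀ i ∈ E', 1000000 * T₁ * Q ≤ yf (1000000 * T₁) i ∧
      yf (1000000 * T₁) i ≤ 6 * (1000000 * T₁ * Q) := by
    intro i hi
    rw [hE', Finset.mem_product, Finset.mem_range] at hi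
    obtain ⟨hi1, hi2⟩ := hi
    obtain ⟨hm1, hm2⟩ := hPr _ hi2
    unfold yf
    constructor
    · calc 1000000 * T₁ * Q ≤ (1000000 * T₁ + i.1) * i.2 := by gcongr; omega
        _ = _ := rfl
    · calc (1000000 * T₁ + i.1) * i.2 ≤ (1000000 * T₁ + 1000000 * T₁) * (3 * Q) := by gcongr
        _ = 6 * (1000000 * T₁ * Q) := by ring
  have hmain : ∀ i₁ ∈ E', ∀ i₂ ∈ E', ∀ i₃ ∈ E', wf A κ i₁ * wf A κ i₂ * wf A κ i₃ * K ≤
      ∑ i₄ ∈ Ef A κ (1000000 * T₁), ∑ u ∈ range (T₁ * Q), ∑ v ∈ range (T₁ * Q),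
      if yf (1000000 * T₁) i₁ + yf (1000000 * T₁) i₂ + yf (1000000 * T₁) i₃ +
        yf (1000000 * T₁) i₄ + u = X + v then wf A κ i₁ * wf A κ i₂ * wf A κ i₃ * wf A κ i₄
      else 0 := by
    intro i₁ h₁ i₂ h₂ i₃ h₃
    obtain ⟨a1, b1⟩ := hyf i₁ h₁
    obtain ⟨a2, b2⟩ := hyf i₂ h₂
    obtain ⟨a3, b3⟩ := hyf i₃ h₃
    rw [hK]
    exact n8_inner A κ Q T₁ X _ _ (mul_nonneg (mul_nonneg (hw _) (hw _)) (hw _)) hQ hT hPr
      (by omega) (by omega) (by omega)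
  have hsum : ∑ i ∈ E', wf A κ i = ((1000000 * T₁ : ℕ) : ℝ) * (A.card : ℝ) ^ κ := by
    rw [hE']; exact n8_sum A κ _
  unfold Rc
  calc (((1000000 * T₁ : ℕ) : ℝ) * (A.card : ℝ) ^ κ) ^ 3 *
      ((A.card : ℝ) ^ κ * ((T₁ : ℝ) / 12 * (((T₁ * Q : ℕ) : ℝ) / 2)))
      = ∑ i₁ ∈ E', ∑ i₂ ∈ E', ∑ i₃ ∈ E', wf A κ i₁ * wf A κ i₂ * wf A κ i₃ * K := by
        rw [← hK, ← hsum, pow_three]
        simp only [← Finset.sum_mul, ← Finset.mul_sum]
        ring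
    _ ≤ ∑ i₁ ∈ E', ∑ i₂ ∈ E', ∑ i₃ ∈ E', ∑ i₄ ∈ Ef A κ (1000000 * T₁), ∑ u ∈ range (T₁ * Q),
      ∑ v ∈ range (T₁ * Q),
      (if yf (1000000 * T₁) i₁ + yf (1000000 * T₁) i₂ + yf (1000000 * T₁) i₃ +
        yf (1000000 * T₁) i₄ + u = X + v then wf A κ i₁ * wf A κ i₂ * wf A κ i₃ * wf A κ i₄
      else 0) := Finset.sum_le_sum fun i₁ h₁ => Finset.sum_le_sum fun i₂ h₂ =>
          Finset.sum_le_sum fun i₃ h₃ => hmain i₁ h₁ i₂ h₂ i₃ h₃
    _ ≤ _ := by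
        refine (Finset.sum_le_sum fun i₁ _ => Finset.sum_le_sum fun i₂ _ =>
          Finset.sum_le_sum_of_subset_of_nonneg hsub fun i₃ _ _ => hf0 i₁ i₂ i₃).trans ?_
        refine (Finset.sum_le_sum fun i₁ _ =>
          Finset.sum_le_sum_of_subset_of_nonneg hsub fun i₂ _ _ =>
            Finset.sum_nonneg fun i₃ _ => hf0 i₁ i₂ i₃).trans ?_
        exact Finset.sum_le_sum_of_subset_of_nonneg hsub fun i₁ _ _ =>
            Finset.sum_nonneg fun i₂ _ => Finset.sum_nonneg fun i₃ _ => hf0 i₁ i₂ i₃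

theorem t_N8 (h2 : St_Prbound) : St_coarse := by
  intro A M L κ T₁ X hW hκ hM hT hX1 hX2
  have hPr : ∀ m ∈ Pr A κ, M ^ κ ≤ m ∧ m ≤ 3 * M ^ κ := fun m hm =>
    ⟨(h2 A M L κ m hW hκ hm).1, (h2 A M L κ m hW hκ hm).2.1⟩
  have hQ : 1 ≤ M ^ κ := Nat.one_le_pow _ _ hM
  refine le_trans ?_ (n8_main A κ (M ^ κ) T₁ X hQ hT hPr hX1 hX2)
  have hsum : ∑ i ∈ Ef A κ (1000000 * T₁), wf A κ i =
      ((50 * (1000000 * T₁) : ℕ) : ℝ) * (A.card : ℝ) ^ κ := n8_sum A κ _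
  rw [hsum]
  obtain ⟨Q, hQd⟩ : ∃ Q : ℕ, Q = M ^ κ := ⟨_, rfl⟩
  obtain ⟨n, hn⟩ : ∃ n : ℝ, n = (A.card : ℝ) ^ κ := ⟨_, rfl⟩
  rw [← hn, ← hQd]
  rw [← hQd] at hQ
  have hQ' : (0 : ℝ) < Q := by exact_mod_cast hQ
  have hT' : (0 : ℝ) < T₁ := by
    have : 0 < T₁ := by omega
    exact_mod_cast this
  have hn0 : 0 ≤ n := by rw [hn]; positivity
  push_cast
  rw [div_le_iff₀ (by positivity)]
  have hpoly : (1000000 * (T₁ : ℝ) * n) ^ 3 * (n * ((T₁ : ℝ) / 12 * ((T₁ : ℝ) * Q / 2))) *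
      (625 * (1000000 * (T₁ : ℝ) * Q)) -
      1 / 1000000 * ((T₁ : ℝ) * Q) ^ 2 * (50 * (1000000 * (T₁ : ℝ)) * n) ^ 4 =
      (1000000 ^ 3 * 625 * 1000000 / 24 - 1 / 1000000 * (50 * 1000000) ^ 4) *
        ((T₁ : ℝ) ^ 6 * (Q : ℝ) ^ 2 * n ^ 4) := by ring
  have hpos : 0 ≤ (1000000 ^ 3 * 625 * 1000000 / 24 - 1 / 1000000 * (50 * 1000000) ^ 4 : ℝ) *
        ((T₁ : ℝ) ^ 6 * (Q : ℝ) ^ 2 * n ^ 4) := by
    apply mul_nonneg
    · norm_num
    · positivity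
  linarith

end Pool.Agent.H108R3.Had
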