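import Pool.Agent.H108R3.Had.Defs

namespace Pool.Agent.H108R3.Had

open Finset

/-- N9a: total weight, and the Fourier sum of the family -/
theorem t_N9a : St_fam := by
  intro A κ T₀ P
  constructor
  · unfold Ef wf
    rw [sum_product]
    have h1 : ∀ r ∈ range (50 * T₀), ∑ m ∈ Pr A κ, ((wt A κ (r, m).2 : ℕ) : ℝ)
        = (A.card : ℝ) ^ κ := by
      intro r _
      have := sum_wt A κ
      calc ∑ m ∈ Pr A κ, ((wt A κ (r, m).2 : ℕ) : ℝ) = ((∑ m ∈ Pr A κ, wt A κ m : ℕ) : ℝ) := by
            rw [Nat.cast_sum]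
        _ = (A.card : ℝ) ^ κ := by rw [this, Nat.cast_pow]
    rw [sum_congr rfl h1, sum_const, card_range, nsmul_eq_mul]
  · intro a
    unfold Fh Phi Ef yf wf
    rw [sum_product]
    refine sum_congr rfl fun r _ => ?_
    rw [SA_eq_sum]
    refine sum_congr rfl fun m _ => ?_
    rw [nsmul_eq_mul]
    simp only [Nat.cast_mul, Complex.ofReal_natCast]

end Pool.Agent.H108R3.Had
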