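import Pool.Agent.H108R3.Had.Defs

/-! Task N9c: region 2. -/

namespace Pool.Agent.H108R3.Had

open Finset

private lemma N9c_blk (F : ℕ → ℝ) (p n : ℕ) (c : ℝ) (hp : 1 ≤ p) (hc : 0 ≤ c)
    (h : ∀ a ∈ Ioc p n, F a ^ 4 ≤ c / (a : ℝ) ^ 2) :
    ∑ a ∈ Ioc p n, F a ^ 4 ≤ c / p := by
  have hp' : (0 : ℝ) < p := by exact_mod_cast hp
  rcases Nat.lt_or_ge n p with hn | hn
  · rw [Ioc_eq_empty_of_le hn.le, sum_empty]
    positivity
  · have h1 : ∑ a ∈ Ioc p n, F a ^ 4 ≤ ∑ a ∈ Ioc p n, c * ((a : ℝ) ^ 2)⁻¹ := by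
      refine sum_le_sum fun a ha => ?_
      rw [← div_eq_mul_inv]
      exact h a ha
    rw [← mul_sum] at h1
    have h2 : ∑ i ∈ Ioc p n, ((i : ℝ) ^ 2)⁻¹ ≤ (p : ℝ)⁻¹ - (n : ℝ)⁻¹ :=
      sum_Ioc_inv_sq_le_sub (by omega) hn
    have h3 : (0 : ℝ) ≤ (n : ℝ)⁻¹ := by positivity
    calc ∑ a ∈ Ioc p n, F a ^ 4 ≤ c * ∑ i ∈ Ioc p n, ((i : ℝ) ^ 2)⁻¹ := h1
      _ ≤ c * (p : ℝ)⁻¹ := by
        apply mul_le_mul_of_nonneg_left _ hc
        linarith
      _ = c / p := by rw [div_eq_mul_inv]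

private lemma N9c_split (f : ℕ → ℝ) (hf : ∀ a, 0 ≤ f a) (p k n : ℕ) :
    ∑ a ∈ Ioc p n, f a ≤ ∑ a ∈ Ioc p k, f a + ∑ a ∈ Ioc k n, f a := by
  have h1 : ∑ a ∈ Ioc p n, f a ≤ ∑ a ∈ Ioc p k ∪ Ioc k n, f a := by
    apply sum_le_sum_of_subset_of_nonneg
    · intro a ha
      simp only [mem_union, mem_Ioc] at ha ⊢
      omega
    · intro a _ _
      exact hf a
  have h2 := sum_union_inter (s₁ := Ioc p k) (s₂ := Ioc k n) (f := f)
  have h3 : 0 ≤ ∑ a ∈ Ioc p k ∩ Ioc k n, f a := sum_nonneg fun a _ => hf a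
  linarith

private lemma N9c_four (x B a : ℝ) (hx : 0 ≤ x) (ha : 0 < a)
    (h : x ^ 2 ≤ 625 * B / a) : x ^ 4 ≤ 390625 * B ^ 2 / a ^ 2 := by
  have h1 : (x ^ 2) ^ 2 ≤ (625 * B / a) ^ 2 := pow_le_pow_left₀ (by positivity) h 2
  calc x ^ 4 = (x ^ 2) ^ 2 := by ring
    _ ≤ (625 * B / a) ^ 2 := h1
    _ = 390625 * B ^ 2 / a ^ 2 := by rw [div_pow]; ring

private lemma N9c_log (M L : ℕ) (hL : 1000000 ≤ L) (h1 : L ^ 40 ≤ M) (h2 : M ≤ 4 * L ^ 40) :
    Real.log M ≤ (L : ℝ) - 2 := by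
  have hl : (1000000 : ℝ) ≤ L := by exact_mod_cast hL
  have hl0 : (0 : ℝ) < L := by linarith
  have hM : (0 : ℝ) < M := by
    have : 0 < L ^ 40 := by positivity
    exact_mod_cast lt_of_lt_of_le this h1
  have h3 : Real.log M ≤ Real.log (4 * (L : ℝ) ^ 40) := by
    apply Real.log_le_log hM
    exact_mod_cast h2
  rw [Real.log_mul (by norm_num) (by positivity), Real.log_pow] at h3
  have h4 : Real.log 4 ≤ 3 := by
    have := Real.log_le_sub_one_of_pos (show (0 : ℝ) < 4 by norm_num)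
    linarith
  set s := Real.sqrt L with hs
  have hs0 : 0 < s := Real.sqrt_pos.2 hl0
  have hss : s * s = L := Real.mul_self_sqrt hl0.le
  have hs1 : 1000 ≤ s := by
    rw [hs]
    apply Real.le_sqrt_of_sq_le
    calc (1000 : ℝ) ^ 2 = 1000000 := by norm_num
      _ ≤ (L : ℝ) := hl
  have h5 : Real.log L = 2 * Real.log s := by
    rw [← hss, Real.log_mul hs0.ne' hs0.ne']
    ring
  have h6 : Real.log s ≤ s - 1 := Real.log_le_sub_one_of_pos hs0
  have h7 : 1000 * s ≤ L := by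
    rw [← hss]
    exact mul_le_mul_of_nonneg_right hs1 hs0.le
  rw [h5] at h3
  push_cast at h3
  linarith

theorem t_N9c : St_R2 := by
  intro F M L g hF hL hM1 hM2 hg hgL hFa
  have hl : (1000000 : ℝ) ≤ L := by exact_mod_cast hL
  have hl0 : (0 : ℝ) < L := by linarith
  have hl1 : (1 : ℝ) ≤ L := by linarith
  have hM0 : 0 < M := lt_of_lt_of_le (by positivity) hM1
  have hm : (L : ℝ) ^ 40 ≤ M := by exact_mod_cast hM1
  have hm0 : (0 : ℝ) < M := by exact_mod_cast hM0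
  have hlog := N9c_log M L hL hM1 hM2
  have hlog0 : 0 ≤ Real.log M := Real.log_natCast_nonneg M
  have hf4 : ∀ a, 0 ≤ F a ^ 4 := fun a => pow_nonneg (hF a) 4
  have hp : 1 ≤ 100 * (1000000 * L ^ 20) := by
    have : 0 < 100 * (1000000 * L ^ 20) := by positivity
    omega
  -- first block
  have hb1 : ∑ a ∈ Ioc (100 * (1000000 * L ^ 20)) (625 * M ^ 1), F a ^ 4 ≤ 1 / (L : ℝ) ^ 10 := by
    have h1 := N9c_blk F (100 * (1000000 * L ^ 20)) (625 * M ^ 1) (390625 * ((L : ℝ) ^ 5) ^ 2) hp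
      (by positivity) (by
        intro a ha
        rw [mem_Ioc] at ha
        have ha0 : (0 : ℝ) < a := by
          have : 0 < a := by omega
          exact_mod_cast this
        apply N9c_four _ _ _ (hF a) ha0
        refine (hFa 1 a le_rfl (by omega) (by omega) ha.2).trans ?_
        apply div_le_div_of_nonneg_right _ ha0.le
        apply mul_le_mul_of_nonneg_left _ (by norm_num)
        have e1 : (((Nat.factorial 1 : ℕ) : ℝ) * ((L : ℝ) ^ 2) ^ 1) ^ 2 *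
            (2 + ((1 : ℕ) : ℝ) * Real.log M) = (L : ℝ) ^ 4 * (2 + Real.log M) := by
          simp only [Nat.factorial_one, Nat.cast_one]
          ring
        rw [e1]
        calc (L : ℝ) ^ 4 * (2 + Real.log M) ≤ (L : ℝ) ^ 4 * L := by
              apply mul_le_mul_of_nonneg_left _ (by positivity)
              linarith
          _ = (L : ℝ) ^ 5 := by ring)
    refine h1.trans ?_
    rw [div_le_div_iff₀ (by exact_mod_cast hp) (by positivity)]
    push_cast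
    have : (0 : ℝ) < (L : ℝ) ^ 20 := by positivity
    nlinarith [this]
  -- the other blocks
  have hb2 : ∀ J : ℕ, 1 ≤ J → J + 1 ≤ 2 * g →
      ∑ a ∈ Ioc (625 * M ^ J) (625 * M ^ (J + 1)), F a ^ 4 ≤ 625 / (L : ℝ) ^ 12 := by
    intro J hJ1 hJ2
    have hpp : 1 ≤ 625 * M ^ J := by
      have : 0 < 625 * M ^ J := by positivity
      omega
    have hjL : ((J + 1 : ℕ) : ℝ) ≤ L := by
      have : J + 1 ≤ L := by omega
      exact_mod_cast this
    have h1 := N9c_blk F (625 * M ^ J) (625 * M ^ (J + 1))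
      (390625 * ((L : ℝ) ^ (6 * (J + 1) + 2)) ^ 2) hpp
      (by positivity) (by
        intro a ha
        rw [mem_Ioc] at ha
        have ha0 : (0 : ℝ) < a := by
          have : 0 < a := by omega
          exact_mod_cast this
        apply N9c_four _ _ _ (hF a) ha0
        refine (hFa (J + 1) a (by omega) hJ2 (by omega) ha.2).trans ?_
        apply div_le_div_of_nonneg_right _ ha0.le
        apply mul_le_mul_of_nonneg_left _ (by norm_num)
        have e1 : ((Nat.factorial (J + 1) : ℕ) : ℝ) ≤ (L : ℝ) ^ (J + 1) := by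
          calc ((Nat.factorial (J + 1) : ℕ) : ℝ) ≤ (((J + 1) ^ (J + 1) : ℕ) : ℝ) := by
                exact_mod_cast Nat.factorial_le_pow (J + 1)
            _ = ((J + 1 : ℕ) : ℝ) ^ (J + 1) := by push_cast; ring
            _ ≤ (L : ℝ) ^ (J + 1) := pow_le_pow_left₀ (by positivity) hjL _
        have e2 : 2 + ((J + 1 : ℕ) : ℝ) * Real.log M ≤ (L : ℝ) ^ 2 := by
          have hJ0 : (1 : ℝ) ≤ ((J + 1 : ℕ) : ℝ) := by
            have : 1 ≤ J + 1 := by omega
            exact_mod_cast this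
          have e3 : ((J + 1 : ℕ) : ℝ) * Real.log M ≤ ((J + 1 : ℕ) : ℝ) * ((L : ℝ) - 2) :=
            mul_le_mul_of_nonneg_left hlog (by linarith)
          have e4 : ((J + 1 : ℕ) : ℝ) * (L : ℝ) ≤ (L : ℝ) * L :=
            mul_le_mul_of_nonneg_right hjL hl0.le
          nlinarith
        have e5 : 0 ≤ 2 + ((J + 1 : ℕ) : ℝ) * Real.log M := by positivity
        calc (((Nat.factorial (J + 1) : ℕ) : ℝ) * ((L : ℝ) ^ 2) ^ (J + 1)) ^ 2 *
              (2 + ((J + 1 : ℕ) : ℝ) * Real.log M)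
            ≤ ((L : ℝ) ^ (J + 1) * ((L : ℝ) ^ 2) ^ (J + 1)) ^ 2 * (L : ℝ) ^ 2 := by
              apply mul_le_mul _ e2 e5 (by positivity)
              apply pow_le_pow_left₀ (by positivity)
              exact mul_le_mul_of_nonneg_right e1 (by positivity)
          _ = (L : ℝ) ^ (6 * (J + 1) + 2) := by
              rw [← pow_mul, ← pow_add, ← pow_mul, ← pow_add]
              congr 1
              ring)
    refine h1.trans ?_
    rw [div_le_div_iff₀ (by exact_mod_cast hpp) (by positivity)]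
    push_cast
    have h2 : (L : ℝ) ^ (12 * J + 28) ≤ (M : ℝ) ^ J := by
      calc (L : ℝ) ^ (12 * J + 28) ≤ (L : ℝ) ^ (40 * J) := pow_le_pow_right₀ hl1 (by omega)
        _ = ((L : ℝ) ^ 40) ^ J := by rw [pow_mul]
        _ ≤ (M : ℝ) ^ J := pow_le_pow_left₀ (by positivity) hm _
    have h3 : ((L : ℝ) ^ (6 * (J + 1) + 2)) ^ 2 * (L : ℝ) ^ 12 = (L : ℝ) ^ (12 * J + 28) := by
      rw [← pow_mul, ← pow_add]
      congr 1
      ring
    calc 390625 * ((L : ℝ) ^ (6 * (J + 1) + 2)) ^ 2 * (L : ℝ) ^ 12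
        = 390625 * (((L : ℝ) ^ (6 * (J + 1) + 2)) ^ 2 * (L : ℝ) ^ 12) := by ring
      _ = 390625 * (L : ℝ) ^ (12 * J + 28) := by rw [h3]
      _ ≤ 390625 * (M : ℝ) ^ J := mul_le_mul_of_nonneg_left h2 (by norm_num)
      _ = 625 * (625 * (M : ℝ) ^ J) := by ring
  -- induction
  have hind : ∀ J : ℕ, 1 ≤ J → J ≤ 2 * g →
      ∑ a ∈ Ioc (100 * (1000000 * L ^ 20)) (625 * M ^ J), F a ^ 4 ≤
        1 / (L : ℝ) ^ 10 + (J : ℝ) * (625 / (L : ℝ) ^ 12) := by
    intro J hJ1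
    induction J, hJ1 using Nat.le_induction with
    | base =>
      intro _
      refine hb1.trans ?_
      have : (0 : ℝ) ≤ ((1 : ℕ) : ℝ) * (625 / (L : ℝ) ^ 12) := by positivity
      linarith
    | succ J hJ ih =>
      intro hJ2
      have h1 := ih (by omega)
      have h2 := hb2 J hJ hJ2
      have h3 := N9c_split (fun a => F a ^ 4) hf4 (100 * (1000000 * L ^ 20)) (625 * M ^ J)
        (625 * M ^ (J + 1))
      push_cast
      linarith
  have hfin := hind (2 * g) (by omega) le_rfl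
  refine hfin.trans ?_
  have h1 : ((2 * g : ℕ) : ℝ) ≤ L := by
    have : 2 * g ≤ L := by omega
    exact_mod_cast this
  have h2 : ((2 * g : ℕ) : ℝ) * (625 / (L : ℝ) ^ 12) ≤ L * (625 / (L : ℝ) ^ 12) :=
    mul_le_mul_of_nonneg_right h1 (by positivity)
  have h3 : (L : ℝ) * (625 / (L : ℝ) ^ 12) = 625 / (L : ℝ) ^ 11 := by
    rw [pow_succ (L : ℝ) 11]
    field_simp
  have h4 : (1000000 : ℝ) ^ 10 ≤ (L : ℝ) ^ 10 := pow_le_pow_left₀ (by norm_num) hl _
  have h5 : (1000000 : ℝ) ^ 11 ≤ (L : ℝ) ^ 11 := pow_le_pow_left₀ (by norm_num) hl _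
  have h6 : 1 / (L : ℝ) ^ 10 ≤ 1 / (1000000 : ℝ) ^ 10 :=
    div_le_div_of_nonneg_left (by norm_num) (by norm_num) h4
  have h7 : 625 / (L : ℝ) ^ 11 ≤ 625 / (1000000 : ℝ) ^ 11 :=
    div_le_div_of_nonneg_left (by norm_num) (by norm_num) h5
  have h8 : (1 : ℝ) / (1000000 : ℝ) ^ 10 + 625 / (1000000 : ℝ) ^ 11 ≤ 1 / 100000000 := by
    norm_num
  linarith

end Pool.Agent.H108R3.Had
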