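import Pool.Agent.H108R3.Had.Defs

/-!
# N9d: the numerical sum (helper204)
-/

set_option autoImplicit false

namespace Pool.Agent.H108R3.Had

open Finset

theorem t_N9d (h1 : St_R1) (h2 : St_R2) (h3 : St_R3) : St_nine := by
  intro F M L g hF0 hF1 hL hM1 hM2 hg hgL hs hl
  have hLpos : 0 < L := by omega
  have hMpos : 0 < M := lt_of_lt_of_le (pow_pos hLpos 40) hM1
  obtain ⟨T0, hT0⟩ : ∃ T0 : ℕ, T0 = 1000000 * L ^ 20 := ⟨_, rfl⟩
  have hT0pos : 0 < T0 := by rw [hT0]; positivity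
  obtain ⟨P, hP⟩ : ∃ P : ℕ, P = 625 * (1000000 * L ^ 20 * M ^ (4 * g)) := ⟨_, rfl⟩
  obtain ⟨Z, hZ⟩ : ∃ Z : ℕ, Z = 100000 * (1000000 * L ^ 20) * M ^ (3 * g) := ⟨_, rfl⟩
  obtain ⟨Z1, hZ1⟩ : ∃ Z1 : ℕ, Z1 = L ^ 20 * M ^ (4 * g) := ⟨_, rfl⟩
  rw [← hP, ← hZ, ← hZ1]
  have hker0 : ∀ a : ℕ, 0 ≤ ker P Z Z1 a := fun a => by
    unfold ker
    refine le_min (le_min zero_le_one (by positivity)) (by positivity)
  obtain ⟨f, hf⟩ : ∃ f : ℕ → ℝ, f = fun a => F a ^ 4 * ker P Z Z1 a := ⟨_, rfl⟩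
  have hf0 : ∀ a, 0 ≤ f a := fun a => by
    rw [hf]
    exact mul_nonneg (pow_nonneg (hF0 a) 4) (hker0 a)
  have hsub : Icc 1 (P / 2) ⊆ (Icc 1 (100 * T0) ∪ Ioc (100 * T0) (625 * M ^ (2 * g))) ∪
      Ioc (625 * M ^ (2 * g)) (P / 2) := by
    intro a ha
    rw [mem_Icc] at ha
    rw [mem_union, mem_union, mem_Icc, mem_Ioc, mem_Ioc]
    omega
  have hun : ∀ s t : Finset ℕ, ∑ a ∈ s ∪ t, f a ≤ ∑ a ∈ s, f a + ∑ a ∈ t, f a := by
    intro s t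
    rw [← Finset.sum_union_inter]
    exact le_add_of_nonneg_right (Finset.sum_nonneg fun a _ => hf0 a)
  have hsum : ∑ a ∈ Icc 1 (P / 2), f a ≤ ∑ a ∈ Icc 1 (100 * T0), f a +
      ∑ a ∈ Ioc (100 * T0) (625 * M ^ (2 * g)), f a +
      ∑ a ∈ Ioc (625 * M ^ (2 * g)) (P / 2), f a :=
    (Finset.sum_le_sum_of_subset_of_nonneg hsub fun a _ _ => hf0 a).trans
      ((hun _ _).trans (add_le_add (hun _ _) le_rfl))
  have hr1 : ∑ a ∈ Icc 1 (100 * T0), f a ≤ 1 / 1000000000000 := by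
    refine le_trans (Finset.sum_le_sum fun a ha => ?_) (h1 (100 * T0))
    rw [mem_Icc] at ha
    have ha1 : (0 : ℝ) < (a : ℝ) := by exact_mod_cast ha.1
    rw [hf]
    have e1 : F a ^ 4 ≤ (25 / 4 / (a : ℝ)) ^ 4 :=
      pow_le_pow_left₀ (hF0 a) (hs a ha.1 (by rw [← hT0]; exact ha.2)) 4
    have e2 : ker P Z Z1 a ≤ 20 * ((a : ℝ) / 625000000) ^ 2 := by
      have e3 : (a : ℝ) * Z1 / P = (a : ℝ) / 625000000 := by
        rw [hP, hZ1]
        push_cast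
        have e4 : (L : ℝ) ≠ 0 := by positivity
        have e5 : (M : ℝ) ≠ 0 := by positivity
        field_simp
        norm_num
      unfold ker
      rw [e3]
      exact (min_le_left _ _).trans (min_le_right _ _)
    exact mul_le_mul e1 e2 (hker0 a) (by positivity)
  have hr2 : ∑ a ∈ Ioc (100 * T0) (625 * M ^ (2 * g)), f a ≤ 1 / 100000000 := by
    refine le_trans (Finset.sum_le_sum fun a ha => ?_) (hT0 ▸ h2 F M L g hF0 hL hM1 hM2 hg hgL hl)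
    rw [hf]
    have e2 : ker P Z Z1 a ≤ 1 := (min_le_left _ _).trans (min_le_left _ _)
    exact mul_le_of_le_one_right (pow_nonneg (hF0 a) 4) e2
  have hr3 : ∑ a ∈ Ioc (625 * M ^ (2 * g)) (P / 2), f a ≤ 1 / 60000000 := by
    refine le_trans (Finset.sum_le_sum fun a ha => ?_) (h3 M g T0 (P / 2) hMpos hT0pos)
    rw [hf]
    have e1 : F a ^ 4 ≤ 1 := pow_le_one₀ (hF0 a) (hF1 a)
    have e2 : ker P Z Z1 a ≤ (((625 * (T0 * M ^ (4 * g)) : ℕ) : ℝ) /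
        (2 * a * ((100000 * T0 * M ^ (3 * g) : ℕ) : ℝ))) ^ 2 := by
      rw [hT0, ← hP, ← hZ]
      exact min_le_right _ _
    calc F a ^ 4 * ker P Z Z1 a ≤ 1 * ker P Z Z1 a :=
          mul_le_mul_of_nonneg_right e1 (hker0 a)
      _ = ker P Z Z1 a := one_mul _
      _ ≤ _ := e2
  have hfin : ∑ a ∈ Icc 1 (P / 2), F a ^ 4 * ker P Z Z1 a = ∑ a ∈ Icc 1 (P / 2), f a := by
    rw [hf]
  rw [hfin]
  have hlast : (2 : ℝ) * (1 / 1000000000000 + 1 / 100000000 + 1 / 60000000) < 1 / 1000000 := by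
    norm_num
  linarith

end Pool.Agent.H108R3.Had
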