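import Pool.Agent.H108R3.Had.Defs

/-! P1: `PU` depends only on the cardinality of the index type. -/

namespace Pool.Agent.H108R3.Had

open Finset Matrix

theorem P1_ev {ι κ R : Type} [CommRing R] (f : κ → ι) (W : ℕ → ι → ι → ℤ) (S : ℕ) (u : R) :
    evM (fun n i j => W n (f i) (f j)) S u = (evM W S u).submatrix f f := rfl

theorem P1_one {ι κ R : Type} [CommRing R] [DecidableEq ι] [DecidableEq κ] (f : κ ≃ ι) (c : R) :
    (c • (1 : Matrix ι ι R)).submatrix f f = c • (1 : Matrix κ κ R) := by
  ext i j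
  rw [Matrix.submatrix_apply, Matrix.smul_apply, Matrix.smul_apply, Matrix.one_apply,
    Matrix.one_apply]
  simp

theorem t_P1 : St_congr := by
  intro ι κ _ _ _ _ hc S h
  obtain ⟨W, hW⟩ := h
  let f : κ ≃ ι := Fintype.equivOfCardEq hc.symm
  refine ⟨fun n i j => W n (f i) (f j), fun n hn i j => hW.sign n hn _ _, ?_, ?_⟩
  · intro R _ u v huv
    rw [P1_ev f W S u, P1_ev f W S v, Matrix.transpose_submatrix, Matrix.submatrix_mul_equiv, hW.left R u v huv,
      ← hc, P1_one]
  · intro R _ u v huv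
    rw [P1_ev f W S u, P1_ev f W S v, Matrix.transpose_submatrix, Matrix.submatrix_mul_equiv, hW.right R u v huv,
      ← hc, P1_one]

end Pool.Agent.H108R3.Had
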