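import Pool.Agent.H108R3.Had.Defs

/-! Tasks P2 (base) and P3 (lift). -/

namespace Pool.Agent.H108R3.Had

open Finset Matrix

theorem t_P2 : St_base := by
  constructor
  · refine ⟨fun _ _ _ => 1, ⟨fun n hn => absurd hn (Nat.not_lt_zero n), ?_, ?_⟩⟩
    · intro R _ u v _
      ext i j
      simp [evM, Matrix.mul_apply]
    · intro R _ u v _
      ext i j
      simp [evM, Matrix.mul_apply]
  · refine ⟨fun _ _ _ => 1, ⟨fun n _ i j => Or.inl rfl, ?_, ?_⟩⟩
    · intro R _ u v _
      ext i j
      have hij : i = j := Fin.ext (by have := i.2; have := j.2; simp at *)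
      subst hij
      simp [evM, Matrix.mul_apply]
    · intro R _ u v _
      ext i j
      have hij : i = j := Fin.ext (by have := i.2; have := j.2; simp at *)
      subst hij
      simp [evM, Matrix.mul_apply]

/-- the doubled sequence -/
def p23W {ι : Type} (W : ℕ → ι → ι → ℤ) : ℕ → ι ⊕ ι → ι ⊕ ι → ℤ := fun n i j =>
  match i, j with
  | Sum.inl a, Sum.inl b => W n a b
  | Sum.inl a, Sum.inr b => W n a b
  | Sum.inr a, Sum.inl b => W n a b
  | Sum.inr a, Sum.inr b => -W n a b

theorem p23_ev {ι : Type} {R : Type} [CommRing R] (W : ℕ → ι → ι → ℤ) (S : ℕ) (u : R) :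
    evM (p23W W) S u = Matrix.fromBlocks (evM W S u) (evM W S u) (evM W S u) (-evM W S u) := by
  ext i j
  rcases i with i | i <;> rcases j with j | j <;>
    simp [evM, p23W, Matrix.fromBlocks, Finset.sum_neg_distrib]

theorem t_P3 (h : St_congr) : St_lift := by
  rintro k S ⟨W, hW⟩
  have key : PU (Fin (2 ^ k) ⊕ Fin (2 ^ k)) S := by
    refine ⟨p23W W, ⟨?_, ?_, ?_⟩⟩
    · intro n hn i j
      rcases i with i | i <;> rcases j with j | j
      · exact hW.sign n hn i j
      · exact hW.sign n hn i j
      · exact hW.sign n hn i j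
      · rcases hW.sign n hn i j with h1 | h1
        · right; simp only [p23W]; rw [h1]
        · left; simp only [p23W]; rw [h1]; norm_num
    · intro R _ u v huv
      have h1 := hW.left R u v huv
      rw [p23_ev, p23_ev, Matrix.fromBlocks_transpose, Matrix.fromBlocks_multiply,
        Matrix.transpose_neg, Matrix.mul_neg, Matrix.neg_mul, Matrix.neg_mul, Matrix.mul_neg,
        neg_neg, h1, ← Matrix.fromBlocks_one, Matrix.fromBlocks_smul, smul_zero, add_neg_cancel,
        ← add_smul, Fintype.card_sum]
      congr 2 <;> push_cast <;> ring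
    · intro R _ u v huv
      have h1 := hW.right R u v huv
      rw [p23_ev, p23_ev, Matrix.fromBlocks_transpose, Matrix.fromBlocks_multiply,
        Matrix.transpose_neg, Matrix.mul_neg, Matrix.neg_mul, Matrix.neg_mul, Matrix.mul_neg,
        neg_neg, h1, ← Matrix.fromBlocks_one, Matrix.fromBlocks_smul, smul_zero, add_neg_cancel,
        ← add_smul, Fintype.card_sum]
      congr 2 <;> push_cast <;> ring
  refine h _ _ ?_ S key
  simp only [Fintype.card_sum, Fintype.card_fin]
  rw [pow_succ]; ring

end Pool.Agent.H108R3.Had
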