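import Pool.Agent.H108R3.Had.Defs

/-! P4: doubling the length of a para-unitary sign matrix polynomial. -/

namespace Pool.Agent.H108R3.Had

open Finset Matrix

namespace P4

/-- the sum-difference construction -/
def dblW {ι : Type} (S : ℕ) (W : ℕ → (ι ⊕ ι) → (ι ⊕ ι) → ℤ) : ℕ → (ι ⊕ ι) → (ι ⊕ ι) → ℤ :=
  fun n i j => match j with
    | Sum.inl j => if n < S then W n i (Sum.inl j) else W (n - S) i (Sum.inr j)
    | Sum.inr j => if n < S then W n i (Sum.inl j) else - W (n - S) i (Sum.inr j)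

def Dm (ι : Type) [DecidableEq ι] {R : Type} [CommRing R] (S : ℕ) (u : R) :
    Matrix (ι ⊕ ι) (ι ⊕ ι) R :=
  fromBlocks 1 0 0 (u ^ S • (1 : Matrix ι ι R))

def Hm (ι : Type) [DecidableEq ι] (R : Type) [CommRing R] : Matrix (ι ⊕ ι) (ι ⊕ ι) R :=
  fromBlocks 1 1 1 (-1)

variable {ι : Type} [Fintype ι] [DecidableEq ι] {R : Type} [CommRing R]

theorem Dm_mul (S : ℕ) (u v : R) (h : u * v = 1) : Dm ι S u * (Dm ι S v)ᵀ = 1 := by
  have h' : v * u = 1 := by rw [mul_comm]; exact h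
  unfold Dm
  rw [fromBlocks_transpose, fromBlocks_multiply, ← fromBlocks_one]
  simp [smul_smul, ← mul_pow, h, h']

theorem Dm_mul' (S : ℕ) (u v : R) (h : u * v = 1) : (Dm ι S v)ᵀ * Dm ι S u = 1 := by
  have h' : v * u = 1 := by rw [mul_comm]; exact h
  unfold Dm
  rw [fromBlocks_transpose, fromBlocks_multiply, ← fromBlocks_one]
  simp [smul_smul, ← mul_pow, h, h']

theorem Hm_mul : Hm ι R * (Hm ι R)ᵀ = (2 : R) • (1 : Matrix (ι ⊕ ι) (ι ⊕ ι) R) := by
  unfold Hm
  rw [fromBlocks_transpose, fromBlocks_multiply, ← fromBlocks_one, fromBlocks_smul]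
  simp [two_smul]

theorem Hm_mul' : (Hm ι R)ᵀ * Hm ι R = (2 : R) • (1 : Matrix (ι ⊕ ι) (ι ⊕ ι) R) := by
  unfold Hm
  rw [fromBlocks_transpose, fromBlocks_multiply, ← fromBlocks_one, fromBlocks_smul]
  simp [two_smul]

theorem ev_dbl (S : ℕ) (W : ℕ → (ι ⊕ ι) → (ι ⊕ ι) → ℤ) (u : R) :
    evM (dblW S W) (2 * S) u = evM W S u * (Dm ι S u * Hm ι R) := by
  have hDH : Dm ι S u * Hm ι R =
      fromBlocks 1 1 (u ^ S • (1 : Matrix ι ι R)) (-(u ^ S • (1 : Matrix ι ι R))) := by
    unfold Dm Hm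
    rw [fromBlocks_multiply]
    simp
  rw [hDH]
  ext i j
  rw [Matrix.mul_apply, Fintype.sum_sum_type]
  rcases j with j | j
  · simp only [fromBlocks_apply₁₁, fromBlocks_apply₂₁, Matrix.smul_apply, Matrix.one_apply,
      smul_eq_mul, mul_ite, mul_one, mul_zero, Finset.sum_ite_eq', Finset.mem_univ, if_true]
    simp only [evM, Matrix.of_apply, dblW]
    rw [two_mul, Finset.sum_range_add]
    congr 1
    · refine Finset.sum_congr rfl fun n hn => ?_
      rw [if_pos (Finset.mem_range.1 hn)]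
    · rw [Finset.sum_mul]
      refine Finset.sum_congr rfl fun n hn => ?_
      rw [if_neg (by omega), Nat.add_sub_cancel_left, pow_add]
      ring
  · simp only [fromBlocks_apply₁₂, fromBlocks_apply₂₂, Matrix.smul_apply, Matrix.one_apply,
      Matrix.neg_apply, mul_neg,
      smul_eq_mul, mul_ite, mul_one, mul_zero, Finset.sum_ite_eq', Finset.mem_univ, if_true,
      Finset.sum_neg_distrib]
    simp only [evM, Matrix.of_apply, dblW]
    rw [two_mul, Finset.sum_range_add]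
    congr 1
    · refine Finset.sum_congr rfl fun n hn => ?_
      rw [if_pos (Finset.mem_range.1 hn)]
    · rw [Finset.sum_mul, ← Finset.sum_neg_distrib]
      refine Finset.sum_congr rfl fun n hn => ?_
      rw [if_neg (by omega), Nat.add_sub_cancel_left, pow_add]
      push_cast
      ring

theorem isPU_dbl (S : ℕ) (W : ℕ → (ι ⊕ ι) → (ι ⊕ ι) → ℤ) (h : IsPU S W) :
    IsPU (2 * S) (dblW S W) := by
  refine ⟨?_, ?_, ?_⟩
  · intro n hn i j
    rcases j with j | j
    · simp only [dblW]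
      split_ifs with h1
      · exact h.sign n h1 _ _
      · exact h.sign (n - S) (by omega) _ _
    · simp only [dblW]
      split_ifs with h1
      · exact h.sign n h1 _ _
      · rcases h.sign (n - S) (by omega) i (Sum.inr j) with h2 | h2
        · right; rw [h2]
        · left; rw [h2]; norm_num
  · intro R _ u v huv
    rw [ev_dbl, ev_dbl]
    have h1 := h.left R u v huv
    have : evM W S u * (Dm ι S u * Hm ι R) * (evM W S v * (Dm ι S v * Hm ι R))ᵀ =
        evM W S u * (Dm ι S u * (Hm ι R * (Hm ι R)ᵀ) * (Dm ι S v)ᵀ) * (evM W S v)ᵀ := by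
      simp only [Matrix.transpose_mul, Matrix.mul_assoc]
    rw [this, Hm_mul]
    rw [Matrix.mul_smul, Matrix.mul_one, Matrix.smul_mul, Dm_mul S u v huv, Matrix.mul_smul,
      Matrix.mul_one, Matrix.smul_mul, h1, smul_smul]
    congr 1
    push_cast
    ring
  · intro R _ u v huv
    rw [ev_dbl, ev_dbl]
    have h1 := h.right R u v huv
    have : (evM W S v * (Dm ι S v * Hm ι R))ᵀ * (evM W S u * (Dm ι S u * Hm ι R)) =
        (Hm ι R)ᵀ * ((Dm ι S v)ᵀ * ((evM W S v)ᵀ * evM W S u) * Dm ι S u) * Hm ι R := by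
      simp only [Matrix.transpose_mul, Matrix.mul_assoc]
    rw [this, h1]
    rw [Matrix.mul_smul, Matrix.mul_one, Matrix.smul_mul, Dm_mul' S u v huv, Matrix.mul_smul,
      Matrix.mul_one, Matrix.smul_mul, Hm_mul', smul_smul]
    congr 1
    push_cast
    ring

end P4

open P4 in
/-- P4 -/
theorem t_P4 (h : St_congr) : St_dbl := by
  intro k S hk hPU
  obtain ⟨k, rfl⟩ : ∃ k', k = k' + 1 := ⟨k - 1, by omega⟩
  have hc : Fintype.card (Fin (2 ^ (k + 1))) = Fintype.card (Fin (2 ^ k) ⊕ Fin (2 ^ k)) := by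
    simp [pow_succ, mul_two]
  obtain ⟨W, hW⟩ := h _ (Fin (2 ^ k) ⊕ Fin (2 ^ k)) hc S hPU
  exact h _ _ hc.symm (2 * S) ⟨_, isPU_dbl S W hW⟩

end Pool.Agent.H108R3.Had
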