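import Pool.Agent.H108R3.Had.Defs

/-! Task P5: products of lengths of para-unitary sign matrix polynomials. -/

set_option autoImplicit false

namespace Pool.Agent.H108R3.Had

open Finset Matrix

namespace P5

theorem sum_range_mul' {E : Type} [AddCommMonoid E] (f : ℕ → E) (a b : ℕ) :
    ∑ n ∈ range (a * b), f n = ∑ i ∈ range a, ∑ j ∈ range b, f (i * b + j) := by
  induction a with
  | zero => simp
  | succ a ih => rw [Nat.succ_mul, Finset.sum_range_add, ih, sum_range_succ]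

/-- the index of the middle factor -/
def li (K S₁ S₂ n : ℕ) (hK : 0 < K) : Fin K := ⟨n / (S₁ * S₂) % K, Nat.mod_lt _ hK⟩

/-- the coefficients of the product -/
def WW {K : ℕ} (hK : 0 < K) (S₁ S₂ : ℕ) (A B : ℕ → Fin K → Fin K → ℤ) (n : ℕ) (i j : Fin K) : ℤ :=
  A (n % (S₁ * S₂) / S₂) i (li K S₁ S₂ n hK) * B (n % (S₁ * S₂) % S₂) (li K S₁ S₂ n hK) j

theorem WW_eq {K : ℕ} (hK : 0 < K) {S₁ S₂ : ℕ} (A B : ℕ → Fin K → Fin K → ℤ) (i j : Fin K)
    {l a b : ℕ} (hl : l < K) (ha : a < S₁) (hb : b < S₂) :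
    WW hK S₁ S₂ A B (l * (S₁ * S₂) + (a * S₂ + b)) i j = A a i ⟨l, hl⟩ * B b ⟨l, hl⟩ j := by
  have hm : a * S₂ + b < S₁ * S₂ := by
    calc a * S₂ + b < a * S₂ + S₂ := by omega
      _ = (a + 1) * S₂ := by ring
      _ ≤ S₁ * S₂ := Nat.mul_le_mul_right _ ha
  have h0 : 0 < S₁ * S₂ := lt_of_le_of_lt (Nat.zero_le _) hm
  have e1 : (l * (S₁ * S₂) + (a * S₂ + b)) % (S₁ * S₂) = a * S₂ + b := by
    rw [add_comm, Nat.add_mul_mod_self_right, Nat.mod_eq_of_lt hm]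
  have e2 : (l * (S₁ * S₂) + (a * S₂ + b)) / (S₁ * S₂) = l := by
    rw [add_comm, Nat.add_mul_div_right _ _ h0, Nat.div_eq_of_lt hm, zero_add]
  have e3 : (a * S₂ + b) / S₂ = a := by
    rw [add_comm, Nat.add_mul_div_right _ _ (by omega), Nat.div_eq_of_lt hb, zero_add]
  have e4 : (a * S₂ + b) % S₂ = b := by
    rw [add_comm, Nat.add_mul_mod_self_right, Nat.mod_eq_of_lt hb]
  have e5 : li K S₁ S₂ (l * (S₁ * S₂) + (a * S₂ + b)) hK = ⟨l, hl⟩ := by
    apply Fin.ext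
    show (l * (S₁ * S₂) + (a * S₂ + b)) / (S₁ * S₂) % K = l
    rw [e2, Nat.mod_eq_of_lt hl]
  unfold WW
  rw [e1, e3, e4, e5]

theorem evM_WW {K : ℕ} (hK : 0 < K) (S₁ S₂ : ℕ) (A B : ℕ → Fin K → Fin K → ℤ) {R : Type}
    [CommRing R] (u : R) : evM (WW hK S₁ S₂ A B) (K * (S₁ * S₂)) u =
      evM A S₁ (u ^ S₂) * Matrix.diagonal (fun l : Fin K => u ^ ((l : ℕ) * (S₁ * S₂))) *
        evM B S₂ u := by
  ext i j
  rw [Matrix.mul_apply]
  simp only [Matrix.mul_diagonal]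
  unfold evM
  simp only [Matrix.of_apply]
  rw [sum_range_mul', Finset.sum_range]
  refine sum_congr rfl fun l _ => ?_
  rw [sum_range_mul', Finset.sum_mul, Finset.sum_mul]
  refine sum_congr rfl fun a ha => ?_
  rw [Finset.mul_sum]
  refine sum_congr rfl fun b hb => ?_
  rw [mem_range] at ha hb
  rw [WW_eq hK A B i j l.2 ha hb]
  push_cast
  rw [pow_add, pow_add, ← pow_mul]
  have e : a * S₂ = S₂ * a := by ring
  rw [e]
  ring

theorem diag_mul {K : ℕ} (N : ℕ) {R : Type} [CommRing R] {u v : R} (h : u * v = 1) :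
    Matrix.diagonal (fun l : Fin K => u ^ ((l : ℕ) * N)) *
      Matrix.diagonal (fun l : Fin K => v ^ ((l : ℕ) * N)) = (1 : Matrix (Fin K) (Fin K) R) := by
  rw [Matrix.diagonal_mul_diagonal, ← Matrix.diagonal_one]
  congr 1
  funext l
  rw [← mul_pow, h, one_pow]

theorem isPU_WW {K : ℕ} (hK : 0 < K) {S₁ S₂ : ℕ} {A B : ℕ → Fin K → Fin K → ℤ}
    (hA : IsPU S₁ A) (hB : IsPU S₂ B) : IsPU (K * (S₁ * S₂)) (WW hK S₁ S₂ A B) := by
  refine ⟨?_, ?_, ?_⟩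
  · intro n hn i j
    have h0 : 0 < S₁ * S₂ := by
      by_contra h
      have h1 : S₁ * S₂ = 0 := by omega
      rw [h1, mul_zero] at hn
      omega
    have h2 : 0 < S₂ := Nat.pos_of_ne_zero fun h => by rw [h, mul_zero] at h0; omega
    have h3 : n % (S₁ * S₂) < S₁ * S₂ := Nat.mod_lt _ h0
    have h4 : n % (S₁ * S₂) / S₂ < S₁ := by
      rw [Nat.div_lt_iff_lt_mul h2]
      exact h3
    have h5 : n % (S₁ * S₂) % S₂ < S₂ := Nat.mod_lt _ h2
    unfold WW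
    rcases hA.sign _ h4 i (li K S₁ S₂ n hK) with h6 | h6 <;>
      rcases hB.sign _ h5 (li K S₁ S₂ n hK) j with h7 | h7 <;> rw [h6, h7] <;> simp
  · intro R _ u v h
    have h' : u ^ S₂ * v ^ S₂ = 1 := by rw [← mul_pow, h, one_pow]
    have a1 := hA.left R _ _ h'
    have b1 := hB.left R _ _ h
    rw [evM_WW, evM_WW, Matrix.transpose_mul, Matrix.transpose_mul, Matrix.diagonal_transpose]
    have e1 : evM A S₁ (u ^ S₂) * Matrix.diagonal (fun l : Fin K => u ^ ((l : ℕ) * (S₁ * S₂))) *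
        evM B S₂ u * ((evM B S₂ v)ᵀ * (Matrix.diagonal
          (fun l : Fin K => v ^ ((l : ℕ) * (S₁ * S₂))) * (evM A S₁ (v ^ S₂))ᵀ)) =
        evM A S₁ (u ^ S₂) * (Matrix.diagonal (fun l : Fin K => u ^ ((l : ℕ) * (S₁ * S₂))) *
          (evM B S₂ u * (evM B S₂ v)ᵀ) * Matrix.diagonal
            (fun l : Fin K => v ^ ((l : ℕ) * (S₁ * S₂)))) * (evM A S₁ (v ^ S₂))ᵀ := by
      simp only [Matrix.mul_assoc]
    rw [e1, b1, Matrix.mul_smul, Matrix.smul_mul, Matrix.mul_one, diag_mul _ h, Matrix.mul_smul,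
      Matrix.smul_mul, Matrix.mul_one, a1, smul_smul, ← Nat.cast_mul]
    congr 2
    rw [Fintype.card_fin]
    ring
  · intro R _ u v h
    have h' : u ^ S₂ * v ^ S₂ = 1 := by rw [← mul_pow, h, one_pow]
    have hvu : v * u = 1 := by rw [mul_comm, h]
    have a1 := hA.right R _ _ h'
    have b1 := hB.right R _ _ h
    rw [evM_WW, evM_WW, Matrix.transpose_mul, Matrix.transpose_mul, Matrix.diagonal_transpose]
    have e1 : (evM B S₂ v)ᵀ * (Matrix.diagonal (fun l : Fin K => v ^ ((l : ℕ) * (S₁ * S₂))) *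
        (evM A S₁ (v ^ S₂))ᵀ) * (evM A S₁ (u ^ S₂) * Matrix.diagonal
          (fun l : Fin K => u ^ ((l : ℕ) * (S₁ * S₂))) * evM B S₂ u) =
        (evM B S₂ v)ᵀ * (Matrix.diagonal (fun l : Fin K => v ^ ((l : ℕ) * (S₁ * S₂))) *
          ((evM A S₁ (v ^ S₂))ᵀ * evM A S₁ (u ^ S₂)) * Matrix.diagonal
            (fun l : Fin K => u ^ ((l : ℕ) * (S₁ * S₂)))) * evM B S₂ u := by
      simp only [Matrix.mul_assoc]
    rw [e1, a1, Matrix.mul_smul, Matrix.smul_mul, Matrix.mul_one, diag_mul _ hvu, Matrix.mul_smul,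
      Matrix.smul_mul, Matrix.mul_one, b1, smul_smul, ← Nat.cast_mul]
    congr 2
    rw [Fintype.card_fin]
    ring

end P5

/-- P5 -/
theorem t_P5 : St_mul := by
  rintro k S₁ S₂ ⟨A, hA⟩ ⟨B, hB⟩
  exact ⟨P5.WW (Nat.two_pow_pos k) S₁ S₂ A B, P5.isPU_WW (Nat.two_pow_pos k) hA hB⟩

end Pool.Agent.H108R3.Had
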