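import Pool.Agent.H108R3.Had.Defs

/-! Task P6: addition of lengths. -/

namespace Pool.Agent.H108R3.Had

open Finset Matrix Kronecker

namespace P6

set_option linter.unusedSectionVars false

/-- block computations -/
theorem block_left {R I : Type} [CommRing R] [Fintype I] [DecidableEq I]
    (a a' b b' : Matrix I I R) (α β u v : R) (S₁ S₂ : ℕ) (hS₂ : 1 ≤ S₂) (huv : u * v = 1)
    (h1 : a * a' = α • (1 : Matrix I I R)) (h2 : a' * a = α • (1 : Matrix I I R))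
    (h3 : b * b' = β • (1 : Matrix I I R)) (h4 : b' * b = β • (1 : Matrix I I R))
    (hab : a * b = b * a) (hab' : a' * b' = b' * a') :
    fromBlocks a (u ^ S₁ • b) (-(u ^ (S₂ - 1) • b')) (u ^ (S₁ + S₂ - 1) • a') *
      fromBlocks a' (-(v ^ (S₂ - 1) • b)) (v ^ S₁ • b') (v ^ (S₁ + S₂ - 1) • a) =
      (α + β) • (1 : Matrix (I ⊕ I) (I ⊕ I) R) := by
  have hp : ∀ n : ℕ, u ^ n * v ^ n = 1 := fun n => by rw [← mul_pow, huv, one_pow]
  have e1 : S₁ + S₂ - 1 = S₁ + (S₂ - 1) := by omega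
  have hq1 : u ^ S₁ * v ^ (S₁ + S₂ - 1) = v ^ (S₂ - 1) := by
    rw [e1, pow_add, ← mul_assoc, hp, one_mul]
  have hq2 : u ^ (S₁ + S₂ - 1) * v ^ S₁ = u ^ (S₂ - 1) := by
    rw [e1, pow_add, mul_right_comm, hp, one_mul]
  rw [fromBlocks_multiply, ← fromBlocks_one, fromBlocks_smul]
  congr 1
  · rw [smul_mul_smul_comm, hp, h1, h3, one_smul, add_smul]
  · rw [mul_neg, mul_smul_comm, smul_mul_smul_comm, hq1, hab, neg_add_cancel, smul_zero]
  · rw [neg_mul, smul_mul_assoc, smul_mul_smul_comm, hq2, hab', neg_add_cancel, smul_zero]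
  · rw [neg_mul_neg, smul_mul_smul_comm, smul_mul_smul_comm, hp, hp, h2, h4, one_smul, one_smul,
      ← add_smul, add_comm]

theorem block_right {R I : Type} [CommRing R] [Fintype I] [DecidableEq I]
    (a a' b b' : Matrix I I R) (α β u v : R) (S₁ S₂ : ℕ) (hS₂ : 1 ≤ S₂) (huv : u * v = 1)
    (h1 : a * a' = α • (1 : Matrix I I R)) (h2 : a' * a = α • (1 : Matrix I I R))
    (h3 : b * b' = β • (1 : Matrix I I R)) (h4 : b' * b = β • (1 : Matrix I I R))
    (hab : a' * b = b * a') (hab' : a * b' = b' * a) :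
    fromBlocks a' (-(v ^ (S₂ - 1) • b)) (v ^ S₁ • b') (v ^ (S₁ + S₂ - 1) • a) *
    fromBlocks a (u ^ S₁ • b) (-(u ^ (S₂ - 1) • b')) (u ^ (S₁ + S₂ - 1) • a') =
      (α + β) • (1 : Matrix (I ⊕ I) (I ⊕ I) R) := by
  have hp : ∀ n : ℕ, u ^ n * v ^ n = 1 := fun n => by rw [← mul_pow, huv, one_pow]
  have hp' : ∀ n : ℕ, v ^ n * u ^ n = 1 := fun n => by rw [mul_comm, hp]
  have e1 : S₁ + S₂ - 1 = S₁ + (S₂ - 1) := by omega
  have hq1 : v ^ (S₂ - 1) * u ^ (S₁ + S₂ - 1) = u ^ S₁ := by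
    rw [e1, pow_add, mul_left_comm, hp', mul_one]
  have hq2 : v ^ (S₁ + S₂ - 1) * u ^ (S₂ - 1) = v ^ S₁ := by
    rw [e1, pow_add, mul_assoc, hp', mul_one]
  rw [fromBlocks_multiply, ← fromBlocks_one, fromBlocks_smul]
  congr 1
  · rw [neg_mul_neg, smul_mul_smul_comm, hp', h2, h3, one_smul, add_smul]
  · rw [mul_smul_comm, neg_mul, smul_mul_smul_comm, hq1, hab, add_neg_cancel, smul_zero]
  · rw [smul_mul_assoc, mul_neg, smul_mul_smul_comm, hq2, hab', add_neg_cancel, smul_zero]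
  · rw [smul_mul_smul_comm, smul_mul_smul_comm, hp', hp', h1, h4, one_smul, one_smul,
      ← add_smul, add_comm]

section
variable {G : Type} [Fintype G] [DecidableEq G] [AddCommGroup G]

/-- the coefficients -/
def W6 (A B : ℕ → G → G → ℤ) (H : G → G → ℤ) (S₁ S₂ : ℕ) (n : ℕ) :
    (G × G) ⊕ (G × G) → (G × G) ⊕ (G × G) → ℤ
  | Sum.inl (a, b), Sum.inl (c, d) =>
    if n < S₁ then A n a (b + c) * H b d else B (n - S₁) b (a - c) * H (a - c) d
  | Sum.inl (a, b), Sum.inr (c, d) =>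
    if n < S₁ then A n a (b + c) * H b d else -(B (n - S₁) b (a - c) * H (a - c) d)
  | Sum.inr (a, b), Sum.inl (c, d) =>
    if n < S₂ then -(B (S₂ - 1 - n) (a - c) b * H (a - c) d)
      else A (S₁ + S₂ - 1 - n) (b + c) a * H b d
  | Sum.inr (a, b), Sum.inr (c, d) =>
    if n < S₂ then -(B (S₂ - 1 - n) (a - c) b * H (a - c) d)
      else -(A (S₁ + S₂ - 1 - n) (b + c) a * H b d)

theorem pm_mul {x y : ℤ} (hx : x = 1 ∨ x = -1) (hy : y = 1 ∨ y = -1) : x * y = 1 ∨ x * y = -1 := by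
  rcases hx with rfl | rfl <;> rcases hy with rfl | rfl <;> simp

theorem pm_neg {x : ℤ} (hx : x = 1 ∨ x = -1) : -x = 1 ∨ -x = -1 := by
  rcases hx with rfl | rfl <;> simp

theorem W6_sign (A B : ℕ → G → G → ℤ) (H : G → G → ℤ) (S₁ S₂ : ℕ)
    (hA : ∀ n < S₁, ∀ i j, A n i j = 1 ∨ A n i j = -1)
    (hB : ∀ n < S₂, ∀ i j, B n i j = 1 ∨ B n i j = -1)
    (hH : ∀ i j, H i j = 1 ∨ H i j = -1) (n : ℕ) (hn : n < S₁ + S₂)
    (i j : (G × G) ⊕ (G × G)) : W6 A B H S₁ S₂ n i j = 1 ∨ W6 A B H S₁ S₂ n i j = -1 := by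
  rcases i with ⟨a, b⟩ | ⟨a, b⟩ <;> rcases j with ⟨c, d⟩ | ⟨c, d⟩ <;> simp only [W6] <;> split_ifs with h
  · exact pm_mul (hA n h _ _) (hH _ _)
  · exact pm_mul (hB _ (by omega) _ _) (hH _ _)
  · exact pm_mul (hA n h _ _) (hH _ _)
  · exact pm_neg (pm_mul (hB _ (by omega) _ _) (hH _ _))
  · exact pm_neg (pm_mul (hB _ (by omega) _ _) (hH _ _))
  · exact pm_mul (hA _ (by omega) _ _) (hH _ _)
  · exact pm_neg (pm_mul (hB _ (by omega) _ _) (hH _ _))
  · exact pm_neg (pm_mul (hA _ (by omega) _ _) (hH _ _))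

variable {R : Type} [CommRing R]

/-- the permutation of `G × G` -/
def sg (G : Type) [AddCommGroup G] : G × G ≃ G × G where
  toFun p := (p.1 - p.2, p.2)
  invFun p := (p.1 + p.2, p.2)
  left_inv p := by simp
  right_inv p := by simp

/-- the integer matrix in `R` -/
def hm (R : Type) [CommRing R] (H : G → G → ℤ) : Matrix G G R := Matrix.of fun i j => ((H i j : ℤ) : R)

/-- the Bell matrix -/
def Q (R : Type) [CommRing R] (H : G → G → ℤ) : Matrix (G × G) (G × G) R :=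
  ((1 : Matrix G G R) ⊗ₖ hm R H).submatrix (sg G) id

theorem Q_apply (H : G → G → ℤ) (a b c d : G) :
    Q R H (a, b) (c, d) = if a = b + c then ((H b d : ℤ) : R) else 0 := by
  simp only [Q, submatrix_apply, sg, Equiv.coe_fn_mk, id, kroneckerMap_apply, hm, Matrix.of_apply,
    Matrix.one_apply]
  by_cases h : a = b + c
  · rw [if_pos h, if_pos (by rw [h]; abel), one_mul]
  · rw [if_neg h, if_neg (fun h' => h (by rw [← h']; abel)), zero_mul]

theorem one_kron (X X' : Matrix G G R) (r : R) (h : X * X' = r • (1 : Matrix G G R)) :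
    ((1 : Matrix G G R) ⊗ₖ X) * ((1 : Matrix G G R) ⊗ₖ X') = r • (1 : Matrix (G × G) (G × G) R) := by
  rw [← mul_kronecker_mul, h, mul_one, kronecker_smul, one_kronecker_one]

theorem kron_one (X X' : Matrix G G R) (r : R) (h : X * X' = r • (1 : Matrix G G R)) :
    (X ⊗ₖ (1 : Matrix G G R)) * (X' ⊗ₖ (1 : Matrix G G R)) = r • (1 : Matrix (G × G) (G × G) R) := by
  rw [← mul_kronecker_mul, h, mul_one, smul_kronecker, one_kronecker_one]

theorem kron_comm (X Y : Matrix G G R) :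
    (X ⊗ₖ (1 : Matrix G G R)) * ((1 : Matrix G G R) ⊗ₖ Y) =
      ((1 : Matrix G G R) ⊗ₖ Y) * (X ⊗ₖ (1 : Matrix G G R)) := by
  rw [← mul_kronecker_mul, ← mul_kronecker_mul, mul_one, one_mul, mul_one, one_mul]

theorem Q_left (H : G → G → ℤ)
    (hH : hm R H * (hm R H)ᵀ = (Fintype.card G : R) • (1 : Matrix G G R)) :
    Q R H * (Q R H)ᵀ = (Fintype.card G : R) • (1 : Matrix (G × G) (G × G) R) := by
  unfold Q
  rw [transpose_submatrix]
  have h1 := submatrix_mul_equiv ((1 : Matrix G G R) ⊗ₖ hm R H) ((1 : Matrix G G R) ⊗ₖ hm R H)ᵀ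
    (sg G) (Equiv.refl (G × G)) (sg G)
  refine h1.trans ?_
  have h2 : ((1 : Matrix G G R) ⊗ₖ hm R H)ᵀ = (1 : Matrix G G R) ⊗ₖ (hm R H)ᵀ := by
    conv_rhs => rw [← transpose_one]
    exact (kroneckerMap_transpose _ _ _).symm
  rw [h2, one_kron _ _ _ hH, submatrix_smul, Pi.smul_apply, Pi.smul_apply, submatrix_one_equiv]

theorem Q_right (H : G → G → ℤ)
    (hH : (hm R H)ᵀ * hm R H = (Fintype.card G : R) • (1 : Matrix G G R)) :
    (Q R H)ᵀ * Q R H = (Fintype.card G : R) • (1 : Matrix (G × G) (G × G) R) := by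
  unfold Q
  rw [transpose_submatrix, submatrix_mul_equiv, submatrix_id_id]
  have h2 : ((1 : Matrix G G R) ⊗ₖ hm R H)ᵀ = (1 : Matrix G G R) ⊗ₖ (hm R H)ᵀ := by
    conv_rhs => rw [← transpose_one]
    exact (kroneckerMap_transpose _ _ _).symm
  rw [h2, one_kron _ _ _ hH]

theorem kron_one_Q (X : Matrix G G R) (H : G → G → ℤ) (a b c d : G) :
    ((X ⊗ₖ (1 : Matrix G G R)) * Q R H) (a, b) (c, d) = X a (b + c) * ((H b d : ℤ) : R) := by
  rw [Matrix.mul_apply, Fintype.sum_prod_type, Finset.sum_eq_single (b + c)]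
  · rw [Finset.sum_eq_single b]
    · rw [Q_apply, if_pos rfl, kroneckerMap_apply, one_apply_eq, mul_one]
    · intro y _ hy
      rw [kroneckerMap_apply, one_apply_ne (Ne.symm hy), mul_zero, zero_mul]
    · intro h; exact absurd (Finset.mem_univ _) h
  · intro x _ hx
    refine Finset.sum_eq_zero fun y _ => ?_
    rw [Q_apply]
    by_cases hy : b = y
    · subst hy
      rw [if_neg hx, mul_zero]
    · rw [kroneckerMap_apply, one_apply_ne hy, mul_zero, zero_mul]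
  · intro h; exact absurd (Finset.mem_univ _) h

theorem one_kron_Q (Y : Matrix G G R) (H : G → G → ℤ) (a b c d : G) :
    (((1 : Matrix G G R) ⊗ₖ Y) * Q R H) (a, b) (c, d) = Y b (a - c) * ((H (a - c) d : ℤ) : R) := by
  rw [Matrix.mul_apply, Fintype.sum_prod_type, Finset.sum_eq_single a]
  · rw [Finset.sum_eq_single (a - c)]
    · rw [Q_apply, if_pos (by abel), kroneckerMap_apply, one_apply_eq, one_mul]
    · intro y _ hy
      rw [Q_apply, if_neg (fun h => hy (by rw [h]; abel)), mul_zero]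
    · intro h; exact absurd (Finset.mem_univ _) h
  · intro x _ hx
    refine Finset.sum_eq_zero fun y _ => ?_
    rw [kroneckerMap_apply, one_apply_ne (Ne.symm hx), zero_mul, zero_mul]
  · intro h; exact absurd (Finset.mem_univ _) h

/-- the matrix `M (u)` -/
def Mm (A B : ℕ → G → G → ℤ) (S₁ S₂ : ℕ) (u v : R) :
    Matrix ((G × G) ⊕ (G × G)) ((G × G) ⊕ (G × G)) R :=
  fromBlocks (evM A S₁ u ⊗ₖ (1 : Matrix G G R)) (u ^ S₁ • ((1 : Matrix G G R) ⊗ₖ evM B S₂ u))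
    (-(u ^ (S₂ - 1) • ((1 : Matrix G G R) ⊗ₖ (evM B S₂ v)ᵀ)))
    (u ^ (S₁ + S₂ - 1) • ((evM A S₁ v)ᵀ ⊗ₖ (1 : Matrix G G R)))

/-- the matrix `D` -/
def Dm (R : Type) [CommRing R] (H : G → G → ℤ) :
    Matrix ((G × G) ⊕ (G × G)) ((G × G) ⊕ (G × G)) R :=
  fromBlocks (Q R H) (Q R H) (Q R H) (-(Q R H))

theorem Dm_left (H : G → G → ℤ)
    (hH : hm R H * (hm R H)ᵀ = (Fintype.card G : R) • (1 : Matrix G G R)) :
    Dm R H * (Dm R H)ᵀ = (2 * (Fintype.card G : R)) •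
      (1 : Matrix ((G × G) ⊕ (G × G)) ((G × G) ⊕ (G × G)) R) := by
  unfold Dm
  rw [fromBlocks_transpose, fromBlocks_multiply, ← fromBlocks_one, fromBlocks_smul,
    transpose_neg, neg_mul_neg, mul_neg, neg_mul, Q_left H hH, add_neg_cancel, smul_zero, ← add_smul,
    ← two_mul]

theorem Dm_right (H : G → G → ℤ)
    (hH : (hm R H)ᵀ * hm R H = (Fintype.card G : R) • (1 : Matrix G G R)) :
    (Dm R H)ᵀ * Dm R H = (2 * (Fintype.card G : R)) •
      (1 : Matrix ((G × G) ⊕ (G × G)) ((G × G) ⊕ (G × G)) R) := by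
  unfold Dm
  rw [fromBlocks_transpose, fromBlocks_multiply, ← fromBlocks_one, fromBlocks_smul,
    transpose_neg, neg_mul_neg, mul_neg, neg_mul, Q_right H hH, add_neg_cancel, smul_zero, ← add_smul,
    ← two_mul]

theorem refl_sum (f : ℕ → R) (S : ℕ) (u v : R) (huv : u * v = 1) :
    ∑ n ∈ range S, f (S - 1 - n) * u ^ n = u ^ (S - 1) * ∑ n ∈ range S, f n * v ^ n := by
  rw [← Finset.sum_range_reflect, Finset.mul_sum]
  refine Finset.sum_congr rfl fun n hn => ?_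
  rw [Finset.mem_range] at hn
  have h1 : S - 1 - (S - 1 - n) = n := by omega
  have h2 : u ^ (S - 1) = u ^ (S - 1 - n) * u ^ n := by rw [← pow_add]; congr 1; omega
  have h3 : u ^ n * v ^ n = 1 := by rw [← mul_pow, huv, one_pow]
  rw [h1, h2]
  linear_combination (-(f n * u ^ (S - 1 - n))) * h3

theorem split1 (f g : ℕ → R) (S₁ S₂ : ℕ) (u : R) :
    ∑ x ∈ range (S₁ + S₂), (if x < S₁ then f x else g (x - S₁)) * u ^ x =
      ∑ n ∈ range S₁, f n * u ^ n + u ^ S₁ * ∑ n ∈ range S₂, g n * u ^ n := by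
  rw [Finset.sum_range_add, Finset.mul_sum]
  congr 1
  · refine Finset.sum_congr rfl fun n hn => ?_
    rw [if_pos (Finset.mem_range.1 hn)]
  · refine Finset.sum_congr rfl fun n hn => ?_
    rw [if_neg (by omega), Nat.add_sub_cancel_left, pow_add]
    ring

theorem split2 (f g : ℕ → R) (S₁ S₂ : ℕ) (hS₁ : 1 ≤ S₁) (u v : R) (huv : u * v = 1) :
    ∑ x ∈ range (S₁ + S₂), (if x < S₂ then f (S₂ - 1 - x) else g (S₁ + S₂ - 1 - x)) * u ^ x =
      u ^ (S₂ - 1) * ∑ n ∈ range S₂, f n * v ^ n +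
        u ^ (S₁ + S₂ - 1) * ∑ n ∈ range S₁, g n * v ^ n := by
  have h1 : ∑ x ∈ range (S₁ + S₂), (if x < S₂ then f (S₂ - 1 - x) else g (S₁ + S₂ - 1 - x)) * u ^ x =
      ∑ x ∈ range (S₂ + S₁), (if x < S₂ then f (S₂ - 1 - x) else g (S₁ - 1 - (x - S₂))) * u ^ x := by
    rw [add_comm S₁ S₂]
    refine Finset.sum_congr rfl fun n hn => ?_
    split_ifs with h
    · rfl
    · have h2 : S₂ + S₁ - 1 - n = S₁ - 1 - (n - S₂) := by omega
      rw [h2]
  rw [h1, split1 (fun x => f (S₂ - 1 - x)) (fun x => g (S₁ - 1 - x)), refl_sum f S₂ u v huv,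
    refl_sum g S₁ u v huv]
  have h3 : S₁ + S₂ - 1 = S₂ + (S₁ - 1) := by omega
  rw [h3, pow_add]
  ring

theorem W6_eval (A B : ℕ → G → G → ℤ) (H : G → G → ℤ) (S₁ S₂ : ℕ) (hS₁ : 1 ≤ S₁) (hS₂ : 1 ≤ S₂)
    (u v : R) (huv : u * v = 1) :
    evM (W6 A B H S₁ S₂) (S₁ + S₂) u = Mm A B S₁ S₂ u v * Dm R H := by
  unfold Mm Dm
  rw [fromBlocks_multiply]
  have hu : ∀ n : ℕ, u ^ n * v ^ n = 1 := fun n => by rw [← mul_pow, huv, one_pow]
  ext i j
  rcases i with ⟨a, b⟩ | ⟨a, b⟩ <;> rcases j with ⟨c, d⟩ | ⟨c, d⟩ <;>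
    simp only [fromBlocks_apply₁₁, fromBlocks_apply₁₂, fromBlocks_apply₂₁, fromBlocks_apply₂₂,
      Matrix.add_apply, Matrix.neg_apply, Matrix.mul_neg, Matrix.neg_mul, Matrix.smul_mul,
      Matrix.smul_apply, kron_one_Q, one_kron_Q, evM, Matrix.of_apply, transpose_apply, smul_eq_mul,
      W6]
  · have h := split1 (fun x => ((A x a (b + c) : ℤ) : R) * ((H b d : ℤ) : R))
      (fun x => ((B x b (a - c) : ℤ) : R) * ((H (a - c) d : ℤ) : R)) S₁ S₂ u
    simp only [Int.cast_ite, Int.cast_mul, Int.cast_neg]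
    rw [h, Finset.sum_mul, Finset.sum_mul]
    congr 1
    · exact Finset.sum_congr rfl fun n _ => by ring
    · congr 1
      exact Finset.sum_congr rfl fun n _ => by ring
  · have h := split1 (fun x => ((A x a (b + c) : ℤ) : R) * ((H b d : ℤ) : R))
      (fun x => -(((B x b (a - c) : ℤ) : R) * ((H (a - c) d : ℤ) : R))) S₁ S₂ u
    simp only [Int.cast_ite, Int.cast_mul, Int.cast_neg]
    rw [h, Finset.sum_mul, Finset.sum_mul, ← mul_neg, ← Finset.sum_neg_distrib]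
    congr 1
    · exact Finset.sum_congr rfl fun n _ => by ring
    · congr 1
      exact Finset.sum_congr rfl fun n _ => by ring
  · have h := split2 (fun x => -(((B x (a - c) b : ℤ) : R) * ((H (a - c) d : ℤ) : R)))
      (fun x => ((A x (b + c) a : ℤ) : R) * ((H b d : ℤ) : R)) S₁ S₂ hS₁ u v huv
    simp only [Int.cast_ite, Int.cast_mul, Int.cast_neg]
    rw [h, Finset.sum_mul, Finset.sum_mul, ← mul_neg, ← Finset.sum_neg_distrib]
    congr 1
    · congr 1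
      exact Finset.sum_congr rfl fun n _ => by ring
    · congr 1
      exact Finset.sum_congr rfl fun n _ => by ring
  · have h := split2 (fun x => -(((B x (a - c) b : ℤ) : R) * ((H (a - c) d : ℤ) : R)))
      (fun x => -(((A x (b + c) a : ℤ) : R) * ((H b d : ℤ) : R))) S₁ S₂ hS₁ u v huv
    simp only [Int.cast_ite, Int.cast_mul, Int.cast_neg]
    rw [h, Finset.sum_mul, Finset.sum_mul, ← mul_neg, ← mul_neg, ← Finset.sum_neg_distrib,
      ← Finset.sum_neg_distrib]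
    congr 1
    · congr 1
      exact Finset.sum_congr rfl fun n _ => by ring
    · congr 1
      exact Finset.sum_congr rfl fun n _ => by ring

theorem Mm_transpose (A B : ℕ → G → G → ℤ) (S₁ S₂ : ℕ) (u v : R) :
    (Mm A B S₁ S₂ v u)ᵀ = fromBlocks ((evM A S₁ v)ᵀ ⊗ₖ (1 : Matrix G G R))
      (-(v ^ (S₂ - 1) • ((1 : Matrix G G R) ⊗ₖ evM B S₂ u)))
      (v ^ S₁ • ((1 : Matrix G G R) ⊗ₖ (evM B S₂ v)ᵀ))
      (v ^ (S₁ + S₂ - 1) • (evM A S₁ u ⊗ₖ (1 : Matrix G G R))) := by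
  unfold Mm
  have h1 : ∀ X : Matrix G G R, (X ⊗ₖ (1 : Matrix G G R))ᵀ = Xᵀ ⊗ₖ (1 : Matrix G G R) := fun X => by
    conv_rhs => rw [← transpose_one]
    exact (kroneckerMap_transpose _ _ _).symm
  have h2 : ∀ X : Matrix G G R, ((1 : Matrix G G R) ⊗ₖ X)ᵀ = (1 : Matrix G G R) ⊗ₖ Xᵀ := fun X => by
    conv_rhs => rw [← transpose_one]
    exact (kroneckerMap_transpose _ _ _).symm
  rw [fromBlocks_transpose, transpose_neg, transpose_smul, transpose_smul, transpose_smul,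
    h1, h1, h2, h2, transpose_transpose, transpose_transpose]

theorem W6_IsPU {A B : ℕ → G → G → ℤ} {H : ℕ → G → G → ℤ} {S₁ S₂ : ℕ} (hS₁ : 1 ≤ S₁) (hS₂ : 1 ≤ S₂)
    (hA : IsPU S₁ A) (hB : IsPU S₂ B) (hH : IsPU 1 H) :
    IsPU (S₁ + S₂) (W6 A B (H 0) S₁ S₂) := by
  have hcard : ∀ (R : Type) [CommRing R],
      ((Fintype.card ((G × G) ⊕ (G × G)) * (S₁ + S₂) : ℕ) : R) =
      2 * (Fintype.card G : R) * ((Fintype.card G * S₁ : ℕ) + (Fintype.card G * S₂ : ℕ)) := by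
    intro R _
    rw [Fintype.card_sum, Fintype.card_prod]
    push_cast
    ring
  have hev : ∀ (R : Type) [CommRing R] (u : R), evM H 1 u = hm R (H 0) := by
    intro R _ u
    ext i j
    simp [evM, hm]
  have hH1 : ∀ (R : Type) [CommRing R],
      hm R (H 0) * (hm R (H 0))ᵀ = (Fintype.card G : R) • (1 : Matrix G G R) := by
    intro R _
    have h := hH.left R 1 1 (one_mul 1)
    rw [hev, mul_one] at h
    exact h
  have hH2 : ∀ (R : Type) [CommRing R],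
      (hm R (H 0))ᵀ * hm R (H 0) = (Fintype.card G : R) • (1 : Matrix G G R) := by
    intro R _
    have h := hH.right R 1 1 (one_mul 1)
    rw [hev, mul_one] at h
    exact h
  refine ⟨?_, ?_, ?_⟩
  · exact fun n hn i j => W6_sign A B (H 0) S₁ S₂ hA.sign hB.sign (hH.sign 0 (by norm_num)) n hn i j
  · intro R _ u v huv
    have hvu : v * u = 1 := by rw [mul_comm, huv]
    rw [W6_eval A B (H 0) S₁ S₂ hS₁ hS₂ u v huv, W6_eval A B (H 0) S₁ S₂ hS₁ hS₂ v u hvu,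
      transpose_mul, Matrix.mul_assoc, ← Matrix.mul_assoc (Dm R (H 0)), Dm_left (H 0) (hH1 R),
      Matrix.smul_mul, Matrix.one_mul, Matrix.mul_smul, Mm_transpose]
    unfold Mm
    rw [block_left _ _ _ _ ((Fintype.card G * S₁ : ℕ) : R) ((Fintype.card G * S₂ : ℕ) : R) u v
      S₁ S₂ hS₂ huv (kron_one _ _ _ (hA.left R u v huv)) (kron_one _ _ _ (hA.right R u v huv))
      (one_kron _ _ _ (hB.left R u v huv)) (one_kron _ _ _ (hB.right R u v huv))
      (kron_comm _ _) (kron_comm _ _), smul_smul, hcard]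
  · intro R _ u v huv
    have hvu : v * u = 1 := by rw [mul_comm, huv]
    rw [W6_eval A B (H 0) S₁ S₂ hS₁ hS₂ u v huv, W6_eval A B (H 0) S₁ S₂ hS₁ hS₂ v u hvu,
      transpose_mul, Matrix.mul_assoc, ← Matrix.mul_assoc (Mm A B S₁ S₂ v u)ᵀ, Mm_transpose]
    unfold Mm
    rw [block_right _ _ _ _ ((Fintype.card G * S₁ : ℕ) : R) ((Fintype.card G * S₂ : ℕ) : R) u v
      S₁ S₂ hS₂ huv (kron_one _ _ _ (hA.left R u v huv)) (kron_one _ _ _ (hA.right R u v huv))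
      (one_kron _ _ _ (hB.left R u v huv)) (one_kron _ _ _ (hB.right R u v huv))
      (kron_comm _ _) (kron_comm _ _), Matrix.smul_mul, Matrix.one_mul, Matrix.mul_smul,
      Dm_right (H 0) (hH2 R), smul_smul, hcard]
    congr 1
    ring

end

end P6

theorem t_P6 (h : St_congr) (h2 : St_base) (h3 : St_lift) : St_add := by
  intro k S₁ S₂ hS₁ hS₂ h4 h5
  have hk : ∀ k, PUk k 1 := by
    intro k
    induction k with
    | zero => exact h2.2
    | succ k ih => exact h3 k 1 ih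
  have : NeZero (2 ^ k) := ⟨by positivity⟩
  have hc : Fintype.card (Fin (2 ^ k)) = Fintype.card (ZMod (2 ^ k)) := by
    rw [Fintype.card_fin, ZMod.card]
  obtain ⟨A, hA⟩ := h _ _ hc _ h4
  obtain ⟨B, hB⟩ := h _ _ hc _ h5
  obtain ⟨H, hH⟩ := h _ _ hc _ (hk k)
  have h6 : PU ((ZMod (2 ^ k) × ZMod (2 ^ k)) ⊕ (ZMod (2 ^ k) × ZMod (2 ^ k))) (S₁ + S₂) :=
    ⟨_, P6.W6_IsPU hS₁ hS₂ hA hB hH⟩
  refine h _ _ ?_ _ h6
  rw [Fintype.card_sum, Fintype.card_prod, ZMod.card, Fintype.card_fin]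
  ring

end Pool.Agent.H108R3.Had
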