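import Pool.Agent.H108R3.Had.Defs

/-! Task P7: block circulant Hadamard matrices. -/

namespace Pool.Agent.H108R3.Had

open Finset Matrix

/-- sums over `range S` and sums over `ZMod S` -/
theorem P7_sum_range {E : Type} [AddCommMonoid E] (S : ℕ) [NeZero S] (F : ℕ → E) :
    ∑ n ∈ range S, F n = ∑ x : ZMod S, F x.val := by
  refine Finset.sum_nbij' (fun n => (n : ZMod S)) (fun x => x.val) (fun n _ => mem_univ _)
    (fun x _ => mem_range.2 (ZMod.val_lt x)) (fun n hn => ?_) (fun x _ => ?_) (fun n hn => ?_)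
  · exact ZMod.val_cast_of_lt (mem_range.1 hn)
  · exact ZMod.natCast_zmod_val x
  · rw [ZMod.val_cast_of_lt (mem_range.1 hn)]

theorem P7_corr (S : ℕ) [NeZero S] (f g : ℕ → ℤ) (a a' : ZMod S) :
    ∑ n ∈ range S, ∑ m ∈ range S, (f n * g m) * (if (n : ZMod S) - m = a' - a then 1 else 0) =
      ∑ b : ZMod S, f (b - a).val * g (b - a').val := by
  rw [P7_sum_range]
  have h1 : ∀ x : ZMod S, ∑ m ∈ range S, (f x.val * g m) *
      (if ((x.val : ℕ) : ZMod S) - m = a' - a then 1 else 0) =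
      f x.val * g (x + a - a').val := by
    intro x
    rw [P7_sum_range, Finset.sum_eq_single (x + a - a')]
    · rw [if_pos, mul_one]
      rw [ZMod.natCast_zmod_val, ZMod.natCast_zmod_val]
      ring
    · intro y _ hy
      rw [if_neg, mul_zero]
      rw [ZMod.natCast_zmod_val, ZMod.natCast_zmod_val]
      intro h
      apply hy
      rw [← sub_eq_zero]
      have h2 : y - (x + a - a') = (a' - a) - (x - y) := by ring
      rw [h2, h, sub_self]
    · intro h
      exact absurd (mem_univ _) h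
  simp only [h1]
  rw [← Equiv.sum_comp (Equiv.subRight a)]
  refine Finset.sum_congr rfl fun b _ => ?_
  simp only [Equiv.subRight_apply, sub_add_cancel]

theorem P7_entry {κ : Type} [Fintype κ] [DecidableEq κ] {S : ℕ} [NeZero S]
    {W : ℕ → κ → κ → ℤ} (hW : IsPU S W) (i i' : κ) (d : ZMod S) :
    ∑ j, ∑ n ∈ range S, ∑ m ∈ range S, (W n i j * W m i' j) *
      (if (n : ZMod S) - m = d then 1 else 0) =
      if i = i' ∧ d = 0 then ((Fintype.card κ * S : ℕ) : ℤ) else 0 := by
  let u : AddMonoidAlgebra ℤ (ZMod S) := AddMonoidAlgebra.single 1 1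
  let v : AddMonoidAlgebra ℤ (ZMod S) := AddMonoidAlgebra.single (-1) 1
  have huv : u * v = 1 := by
    change AddMonoidAlgebra.single (1 : ZMod S) (1 : ℤ) * AddMonoidAlgebra.single (-1) 1 = 1
    rw [AddMonoidAlgebra.single_mul_single, add_neg_cancel, mul_one]
    rfl
  have h := hW.left (AddMonoidAlgebra ℤ (ZMod S)) u v huv
  have h1 := congrFun (congrFun h i) i'
  rw [Matrix.mul_apply] at h1
  have h2 : ∀ n m : ℕ, u ^ n * v ^ m = AddMonoidAlgebra.single ((n : ZMod S) - m) (1 : ℤ) := by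
    intro n m
    change AddMonoidAlgebra.single (1 : ZMod S) (1 : ℤ) ^ n *
      AddMonoidAlgebra.single (-1 : ZMod S) (1 : ℤ) ^ m = _
    rw [AddMonoidAlgebra.single_pow, AddMonoidAlgebra.single_pow,
      AddMonoidAlgebra.single_mul_single, one_pow, one_pow, mul_one]
    congr 1
    rw [nsmul_eq_mul, nsmul_eq_mul, mul_one, mul_neg, mul_one, sub_eq_add_neg]
  have h3 : ∀ j, evM W S u i j * (evM W S v)ᵀ j i' = ∑ n ∈ range S, ∑ m ∈ range S,
      (W n i j * W m i' j) • AddMonoidAlgebra.single ((n : ZMod S) - m) (1 : ℤ) := by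
    intro j
    change (∑ n ∈ range S, ((W n i j : ℤ) : AddMonoidAlgebra ℤ (ZMod S)) * u ^ n) *
      (∑ n ∈ range S, ((W n i' j : ℤ) : AddMonoidAlgebra ℤ (ZMod S)) * v ^ n) = _
    rw [Finset.sum_mul_sum]
    refine Finset.sum_congr rfl fun n _ => Finset.sum_congr rfl fun m _ => ?_
    rw [← h2, zsmul_eq_mul, Int.cast_mul]
    ring
  have h4 := congrArg (fun x : AddMonoidAlgebra ℤ (ZMod S) => x.coeff d) h1
  simp only [h3] at h4
  have h5 : ∀ (z : ℤ) (n m : ℕ), (z • AddMonoidAlgebra.single ((n : ZMod S) - m) (1 : ℤ)).coeff d =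
      z * (if (n : ZMod S) - m = d then 1 else 0) := by
    intro z n m
    rw [AddMonoidAlgebra.coeff_smul_apply, AddMonoidAlgebra.coeff_single, Finsupp.single_apply, smul_eq_mul]
  simp only [AddMonoidAlgebra.coeff_sum, Finsupp.finsetSum_apply, h5] at h4
  rw [h4, Matrix.smul_apply, Matrix.one_apply]
  by_cases hi : i = i'
  · by_cases hd : d = 0
    · rw [if_pos hi, if_pos ⟨hi, hd⟩, smul_eq_mul, mul_one, hd]
      have h6 : ((Fintype.card κ * S : ℕ) : AddMonoidAlgebra ℤ (ZMod S)) =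
          AddMonoidAlgebra.single 0 ((Fintype.card κ * S : ℕ) : ℤ) := by
        rw [AddMonoidAlgebra.natCast_def]
      rw [h6, AddMonoidAlgebra.coeff_single, Finsupp.single_apply, if_pos rfl]
    · rw [if_pos hi, if_neg (fun h => hd h.2), smul_eq_mul, mul_one]
      have h6 : ((Fintype.card κ * S : ℕ) : AddMonoidAlgebra ℤ (ZMod S)) =
          AddMonoidAlgebra.single 0 ((Fintype.card κ * S : ℕ) : ℤ) := by
        rw [AddMonoidAlgebra.natCast_def]
      rw [h6, AddMonoidAlgebra.coeff_single, Finsupp.single_apply, if_neg (Ne.symm hd)]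
  · rw [if_neg hi, if_neg (fun h => hi h.1), smul_zero]
    rfl

theorem t_P7 : St_had := by
  intro k S hPU
  rcases Nat.eq_zero_or_pos S with rfl | hS
  · refine ⟨fun _ _ => 1, fun _ _ => Or.inl rfl, ?_⟩
    ext i j
    exact absurd i.2 (by simp)
  have : NeZero S := ⟨hS.ne'⟩
  obtain ⟨W, hW⟩ := hPU
  let e : Fin (2 ^ k * S) ≃ Fin (2 ^ k) × ZMod S := Fintype.equivOfCardEq (by
    rw [Fintype.card_prod, Fintype.card_fin, Fintype.card_fin, ZMod.card])
  let H' : Matrix (Fin (2 ^ k) × ZMod S) (Fin (2 ^ k) × ZMod S) ℤ :=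
    Matrix.of fun p q => W (q.2 - p.2).val p.1 q.1
  have key : H' * H'ᵀ = ((2 ^ k * S : ℕ) : ℤ) • (1 : Matrix _ _ ℤ) := by
    ext p q
    rw [Matrix.mul_apply, Fintype.sum_prod_type, Matrix.smul_apply, Matrix.one_apply]
    have h1 : ∀ j : Fin (2 ^ k), ∑ b : ZMod S, H' p (j, b) * H'ᵀ (j, b) q =
        ∑ n ∈ range S, ∑ m ∈ range S, (W n p.1 j * W m q.1 j) *
          (if (n : ZMod S) - m = q.2 - p.2 then 1 else 0) := by
      intro j
      rw [P7_corr S (fun n => W n p.1 j) (fun m => W m q.1 j)]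
      rfl
    simp only [h1]
    rw [P7_entry hW, Fintype.card_fin, smul_eq_mul]
    by_cases hpq : p = q
    · rw [if_pos hpq, if_pos ⟨congrArg Prod.fst hpq, by rw [hpq, sub_self]⟩, mul_one]
    · rw [if_neg hpq, if_neg, mul_zero]
      rintro ⟨h2, h3⟩
      exact hpq (Prod.ext h2 (sub_eq_zero.1 h3).symm)
  refine ⟨H'.submatrix e e, fun i j => hW.sign _ (ZMod.val_lt _) _ _, ?_⟩
  rw [Matrix.transpose_submatrix, Matrix.submatrix_mul_equiv, key]
  ext a b
  rw [Matrix.submatrix_apply, Matrix.smul_apply, Matrix.smul_apply, Matrix.one_apply,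
    Matrix.one_apply]
  by_cases hab : a = b
  · rw [if_pos hab, if_pos (congrArg e hab)]
  · rw [if_neg hab, if_neg (fun h => hab (e.injective h))]

end Pool.Agent.H108R3.Had
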