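import Pool.Agent.H108R3.Had.Final
import Pool.Agent.H108R3.Had.N0
import Pool.Agent.H108R3.Had.N1
import Pool.Agent.H108R3.Had.N2
import Pool.Agent.H108R3.Had.N3
import Pool.Agent.H108R3.Had.N4
import Pool.Agent.H108R3.Had.N5
import Pool.Agent.H108R3.Had.N6
import Pool.Agent.H108R3.Had.N7a
import Pool.Agent.H108R3.Had.N7b
import Pool.Agent.H108R3.Had.N7c
import Pool.Agent.H108R3.Had.N8
import Pool.Agent.H108R3.Had.N9a
import Pool.Agent.H108R3.Had.N9b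
import Pool.Agent.H108R3.Had.N9c
import Pool.Agent.H108R3.Had.N9d
import Pool.Agent.H108R3.Had.N10
import Pool.Agent.H108R3.Had.P1
import Pool.Agent.H108R3.Had.P23
import Pool.Agent.H108R3.Had.P4
import Pool.Agent.H108R3.Had.P5
import Pool.Agent.H108R3.Had.P6
import Pool.Agent.H108R3.Had.P7

/-! Hadamard matrices of order `2 ^ t * q` for `t ≥ C (1 + log log q) ^ 2`. -/

namespace Pool.Agent.H108R3.Had

theorem core : St_core :=
  t_N10 (t_N5 t_N0 t_N2) (t_N6 t_N2 t_N3 (t_N4 t_N0)) (t_N7c t_N7a (t_N7b t_N0)) (t_N8 t_N2)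
    t_N9a (t_N9d t_R1 t_N9c t_R3) t_N2

theorem lift : St_lift := t_P3 t_P1

theorem add : St_add := t_P6 t_P1 t_P2 lift

/-- for every `q ≥ 3` there are para-unitary sign matrix polynomials of length `q` and size
`2 ^ t`, for all `t ≥ C ℓ (1 + log ℓ) ^ 2`, `ℓ = 1 + log log q` -/
theorem pu_loglog : ∃ C : ℝ, 1 ≤ C ∧ ∀ q t : ℕ, 3 ≤ q →
    C * (1 + Real.log (Real.log q)) * (1 + Real.log (1 + Real.log (Real.log q))) ^ 2 ≤ t →
    PUk t q :=
  round_two t_P2 lift (t_P4 t_P1) add t_P5 t_N1 core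

/-- Hadamard matrices of order `2 ^ t * q` -/
theorem had_loglog : ∃ C : ℝ, 1 ≤ C ∧ ∀ q t : ℕ, 3 ≤ q →
    C * (1 + Real.log (Real.log q)) * (1 + Real.log (1 + Real.log (Real.log q))) ^ 2 ≤ t →
    HasHad (2 ^ t * q) := by
  obtain ⟨C, hC, h⟩ := pu_loglog
  exact ⟨C, hC, fun q t hq ht => t_P7 _ _ (h q t hq ht)⟩

end Pool.Agent.H108R3.Had
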