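import Pool.Agent.H108R3.Had.Defs

namespace Pool.Agent.H108R3.Had

open Finset

theorem N9b_sum (n : ℕ) : ∑ a ∈ Icc 1 n, ((a : ℝ) ^ 2)⁻¹ ≤ 2 := by
  rcases Nat.eq_zero_or_pos n with h | h
  · subst h; simp
  · have key : ∀ n : ℕ, 1 ≤ n → ∑ a ∈ Icc 1 n, ((a : ℝ) ^ 2)⁻¹ ≤ 2 - 1 / (n : ℝ) := by
      intro n hn
      induction n, hn using Nat.le_induction with
      | base => norm_num
      | succ n hn ih =>
        rw [Finset.sum_Icc_succ_top (by omega)]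
        have hn' : (0 : ℝ) < n := by exact_mod_cast hn
        have h1 : (((n + 1 : ℕ) : ℝ) ^ 2)⁻¹ ≤ 1 / (n : ℝ) - 1 / ((n + 1 : ℕ) : ℝ) := by
          push_cast
          have h2 : 1 / (n : ℝ) - 1 / ((n : ℝ) + 1) = 1 / (n * (n + 1)) := by
            field_simp; ring
          rw [h2, ← one_div]
          apply one_div_le_one_div_of_le (by positivity)
          nlinarith
        linarith
    have h1 := key n h
    have h2 : 0 ≤ 1 / (n : ℝ) := by positivity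
    linarith

theorem t_R1 : St_R1 := by
  intro n
  have h1 : ∀ a ∈ Icc 1 n, (25 / 4 / (a : ℝ)) ^ 4 * (20 * ((a : ℝ) / 625000000) ^ 2) =
      ((25 / 4 : ℝ) ^ 4 * 20 / 625000000 ^ 2) * ((a : ℝ) ^ 2)⁻¹ := by
    intro a ha
    have ha' : (a : ℝ) ≠ 0 := by
      have := (Finset.mem_Icc.1 ha).1
      positivity
    field_simp
  rw [Finset.sum_congr rfl h1, ← Finset.mul_sum]
  have h2 := N9b_sum n
  calc ((25 / 4 : ℝ) ^ 4 * 20 / 625000000 ^ 2) * ∑ a ∈ Icc 1 n, ((a : ℝ) ^ 2)⁻¹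
      ≤ ((25 / 4 : ℝ) ^ 4 * 20 / 625000000 ^ 2) * 2 :=
        mul_le_mul_of_nonneg_left h2 (by positivity)
    _ ≤ 1 / 1000000000000 := by norm_num

theorem t_R3 : St_R3 := by
  intro M g T₀ n hM hT
  have hM' : (0 : ℝ) < M := by exact_mod_cast hM
  have hT' : (0 : ℝ) < T₀ := by exact_mod_cast hT
  have hk0 : 625 * M ^ (2 * g) ≠ 0 := by positivity
  have h1 : ∀ a ∈ Ioc (625 * M ^ (2 * g)) n, (((625 * (T₀ * M ^ (4 * g)) : ℕ) : ℝ) /
      (2 * a * ((100000 * T₀ * M ^ (3 * g) : ℕ) : ℝ))) ^ 2 =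
      ((M : ℝ) ^ (2 * g) / 102400) * ((a : ℝ) ^ 2)⁻¹ := by
    intro a ha
    have ha' : (a : ℝ) ≠ 0 := by
      have h2 := (Finset.mem_Ioc.1 ha).1
      have h3 : 0 < a := lt_of_le_of_lt (Nat.zero_le _) h2
      positivity
    push_cast
    have e1 : (M : ℝ) ^ (4 * g) = M ^ (3 * g) * M ^ g := by rw [← pow_add]; congr 1; ring
    have e2 : (M : ℝ) ^ (2 * g) = (M ^ g) ^ 2 := by rw [← pow_mul]; congr 1; ring
    rw [e1, e2]
    have hMg : (M : ℝ) ^ (3 * g) ≠ 0 := by positivity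
    field_simp
    norm_num
  rw [Finset.sum_congr rfl h1, ← Finset.mul_sum]
  by_cases hn : 625 * M ^ (2 * g) ≤ n
  · have h2 := sum_Ioc_inv_sq_le_sub (α := ℝ) hk0 hn
    have h3 : (0 : ℝ) ≤ ((n : ℕ) : ℝ)⁻¹ := by positivity
    have h4 : ∑ i ∈ Ioc (625 * M ^ (2 * g)) n, ((i : ℝ) ^ 2)⁻¹ ≤
        ((625 * M ^ (2 * g) : ℕ) : ℝ)⁻¹ := by linarith
    calc ((M : ℝ) ^ (2 * g) / 102400) * ∑ i ∈ Ioc (625 * M ^ (2 * g)) n, ((i : ℝ) ^ 2)⁻¹
        ≤ ((M : ℝ) ^ (2 * g) / 102400) * ((625 * M ^ (2 * g) : ℕ) : ℝ)⁻¹ :=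
          mul_le_mul_of_nonneg_left h4 (by positivity)
      _ = 1 / 64000000 := by
          push_cast
          have : (M : ℝ) ^ (2 * g) ≠ 0 := by positivity
          field_simp
          norm_num
      _ ≤ 1 / 60000000 := by norm_num
  · rw [Finset.Ioc_eq_empty (by omega)]
    simp

end Pool.Agent.H108R3.Had
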