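import Pool.Agent.H108R3.Had.Defs

/-! Closure properties of the classes `PUk k`. -/

namespace Pool.Agent.H108R3.Had

theorem PUk_mono (h2 : St_lift) {k k' S : ℕ} (h : k ≤ k') (hk : PUk k S) : PUk k' S := by
  induction h with
  | refl => exact hk
  | step _ ih => exact h2 _ _ ih

theorem PUk_add (h2 : St_lift) (h4 : St_add) {k S₁ S₂ : ℕ} (hS₁ : PUk k S₁) (hS₂ : PUk k S₂) :
    PUk (2 * k + 1) (S₁ + S₂) := by
  rcases Nat.eq_zero_or_pos S₁ with h | h
  · subst h
    rw [Nat.zero_add]
    exact PUk_mono h2 (by omega) hS₂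
  rcases Nat.eq_zero_or_pos S₂ with h' | h'
  · subst h'
    exact PUk_mono h2 (by omega) hS₁
  exact h4 k S₁ S₂ h h' hS₁ hS₂

theorem PUk_pow (h3 : St_dbl) {k S : ℕ} (hk : 1 ≤ k) (h : PUk k S) (c : ℕ) :
    PUk k (2 ^ c * S) := by
  induction c with
  | zero => simpa using h
  | succ c ih =>
    rw [pow_succ', mul_assoc]
    exact h3 k _ hk ih

theorem t_small (h1 : St_base) (h2 : St_lift) (h3 : St_dbl) (h4 : St_add) : St_small := by
  intro m
  induction m with
  | zero =>
    intro s hs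
    have hs' : s = 0 ∨ s = 1 := by
      have : s < 2 := by simpa using hs
      omega
    rcases hs' with rfl | rfl
    · exact PUk_mono h2 (Nat.zero_le _) h1.1
    · exact PUk_mono h2 (Nat.zero_le _) h1.2
  | succ m ih =>
    intro s hs
    have hpos : 0 < 2 ^ 2 ^ m := by positivity
    have e1 : (2 : ℕ) ^ 2 ^ (m + 1) = 2 ^ 2 ^ m * 2 ^ 2 ^ m := by
      rw [← pow_add, pow_succ]; congr 1; ring
    have hq : s / 2 ^ 2 ^ m < 2 ^ 2 ^ m := by
      apply Nat.div_lt_of_lt_mul
      rw [← e1]; exact hs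
    have hr : s % 2 ^ 2 ^ m < 2 ^ 2 ^ m := Nat.mod_lt _ hpos
    have hk : 1 ≤ 2 ^ (m + 1) - 1 := by
      have : 2 ^ 1 ≤ 2 ^ (m + 1) := Nat.pow_le_pow_right (by norm_num) (by omega)
      omega
    have a1 := PUk_pow h3 hk (ih _ hq) (2 ^ m)
    have a2 := PUk_add h2 h4 a1 (ih _ hr)
    have e2 : 2 * (2 ^ (m + 1) - 1) + 1 = 2 ^ (m + 1 + 1) - 1 := by
      have : 2 ^ (m + 1 + 1) = 2 * 2 ^ (m + 1) := by rw [pow_succ]; ring
      have h' : 1 ≤ 2 ^ (m + 1) := Nat.one_le_two_pow
      omega
    rw [e2, Nat.div_add_mod] at a2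
    exact a2

theorem t_prod (h3 : St_dbl) (h5 : St_mul) : St_prod := by
  intro k l
  induction l with
  | nil =>
    intro x c hk hx _ _
    simpa using PUk_pow h3 hk hx c
  | cons y l ih =>
    intro x c hk hx hl hc
    simp only [List.mem_cons, forall_eq_or_imp] at hl
    simp only [List.length_cons] at hc
    have hc' : k * l.length ≤ c - k := by
      rw [Nat.mul_add] at hc; omega
    have a1 := ih x (c - k) hk hx hl.2 hc'
    have a2 := h5 k _ _ hl.1 a1
    have hck : k ≤ c := by
      rw [Nat.mul_add] at hc; omega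
    have e : 2 ^ k * (y * (2 ^ (c - k) * (x * l.prod))) = 2 ^ c * (x * (y :: l).prod) := by
      rw [List.prod_cons]
      conv_rhs => rw [← Nat.sub_add_cancel hck, pow_add]
      ring
    rwa [e] at a2

theorem t_sum (h1 : St_base) (h2 : St_lift) (h4 : St_add) : St_sum := by
  intro k m
  induction m with
  | zero =>
    intro l hl hlen
    have : l.length ≤ 1 := by simpa using hlen
    have ek : 2 ^ 0 * (k + 1) - 1 = k := by simp
    rw [ek]
    rcases l with _ | ⟨y, l⟩
    · exact PUk_mono h2 (Nat.zero_le _) h1.1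
    · have hl0 : l = [] := by
        rcases l with _ | ⟨z, l⟩
        · rfl
        · simp at this
      subst hl0
      simpa using hl y (by simp)
  | succ m ih =>
    intro l hl hlen
    have h1' := ih (l.take (2 ^ m)) (fun y hy => hl y (List.mem_of_mem_take hy)) (by simp)
    have h2' := ih (l.drop (2 ^ m)) (fun y hy => hl y (List.mem_of_mem_drop hy)) (by
      rw [List.length_drop, pow_succ] at *; omega)
    have a := PUk_add h2 h4 h1' h2'
    have e1 : (l.take (2 ^ m)).sum + (l.drop (2 ^ m)).sum = l.sum := by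
      rw [← List.sum_append, List.take_append_drop]
    have e2 : 2 * (2 ^ m * (k + 1) - 1) + 1 = 2 ^ (m + 1) * (k + 1) - 1 := by
      have : 2 ^ (m + 1) * (k + 1) = 2 * (2 ^ m * (k + 1)) := by rw [pow_succ]; ring
      have h' : 1 ≤ 2 ^ m * (k + 1) := Nat.mul_pos (by positivity) (by omega)
      omega
    rwa [e1, e2] at a

theorem t_final (h2 : St_lift) (h7 : St_had) : St_final := by
  intro k S t hk hkt
  exact h7 t S (PUk_mono h2 hkt hk)

end Pool.Agent.H108R3.Had
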